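import Mathlib

/-!
# Spans of monomials in a field (common definitions for the weak Amoroso-David theorem)

`k ⊆ W` fields (given by `Algebra k W`), `x : Fin r → W` a point.

* `Sp k x L` : the `k`-span of the monomials `x^v`, `v ∈ [0,L]^r`, as the image of the polynomials
  of degree at most `L` in each variable;
* `Hd k x L` : its dimension;
* `pw x m` : the point `(x_i ^ m)_i`;
* `mon x v` : the Laurent monomial `∏ x_i ^ (v_i)`, `v ∈ ℤ^r`.
-/

open MvPolynomial

namespace H61.Geo

/-- the span of the monomials `x^v`, `v ∈ [0,L]^r` -/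
noncomputable def Sp (k : Type*) {W : Type*} [Field k] [Field W] [Algebra k W] {r : ℕ}
    (x : Fin r → W) (L : ℕ) : Submodule k W :=
  (restrictDegree (Fin r) k L).map (aeval x).toLinearMap

/-- the dimension of the span of the monomials `x^v`, `v ∈ [0,L]^r` -/
noncomputable def Hd (k : Type*) {W : Type*} [Field k] [Field W] [Algebra k W] {r : ℕ}
    (x : Fin r → W) (L : ℕ) : ℕ :=
  Module.finrank k (Sp k x L)

/-- the point `(x_i ^ m)_i` -/
def pw {W : Type*} [Field W] {r : ℕ} (x : Fin r → W) (m : ℕ) : Fin r → W := fun i => x i ^ m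

/-- the Laurent monomial `∏ x_i ^ (v_i)` -/
def mon {W : Type*} [Field W] {r : ℕ} (x : Fin r → W) (v : Fin r → ℤ) : W := ∏ i, x i ^ v i

section basic

variable {k W : Type*} [Field k] [Field W] [Algebra k W] {r : ℕ}

instance (x : Fin r → W) (L : ℕ) : FiniteDimensional k (Sp k x L) := by
  unfold Sp; infer_instance

theorem mem_Sp {x : Fin r → W} {L : ℕ} {w : W} :
    w ∈ Sp k x L ↔ ∃ P ∈ restrictDegree (Fin r) k L, aeval x P = w := by
  unfold Sp; simp [Submodule.mem_map]

theorem mem_rd {P : MvPolynomial (Fin r) k} {L : ℕ} :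
    P ∈ restrictDegree (Fin r) k L ↔ ∀ s ∈ P.support, ∀ i, s i ≤ L :=
  mem_restrictDegree _ _ _

theorem rd_mono {L L' : ℕ} (h : L ≤ L') :
    restrictDegree (Fin r) k L ≤ restrictDegree (Fin r) k L' := by
  intro P hP
  rw [mem_rd] at hP ⊢
  exact fun s hs i => (hP s hs i).trans h

theorem rd_mul {L L' : ℕ} {P Q : MvPolynomial (Fin r) k} (hP : P ∈ restrictDegree (Fin r) k L)
    (hQ : Q ∈ restrictDegree (Fin r) k L') : P * Q ∈ restrictDegree (Fin r) k (L + L') := by
  classical
  rw [mem_rd] at *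
  intro s hs i
  obtain ⟨a, ha, b, hb, rfl⟩ := Finset.mem_add.1 (support_mul P Q hs)
  simpa using Nat.add_le_add (hP a ha i) (hQ b hb i)

theorem rd_one : (1 : MvPolynomial (Fin r) k) ∈ restrictDegree (Fin r) k 0 := by
  classical
  rw [mem_rd]
  intro s hs i
  rw [mem_support_iff, coeff_one] at hs
  by_cases h : 0 = s
  · simp [← h]
  · simp [h] at hs

theorem rd_pow {L : ℕ} {P : MvPolynomial (Fin r) k} (hP : P ∈ restrictDegree (Fin r) k L) (T : ℕ) :
    P ^ T ∈ restrictDegree (Fin r) k (T * L) := by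
  induction T with
  | zero => simpa using rd_one
  | succ T ih =>
    rw [pow_succ, Nat.succ_mul]
    exact rd_mul ih hP

theorem rd_prod {ι : Type*} (s : Finset ι) (P : ι → MvPolynomial (Fin r) k) (L : ι → ℕ)
    (hP : ∀ i ∈ s, P i ∈ restrictDegree (Fin r) k (L i)) :
    ∏ i ∈ s, P i ∈ restrictDegree (Fin r) k (∑ i ∈ s, L i) := by
  classical
  induction s using Finset.induction_on with
  | empty => simpa using rd_one
  | insert a s ha ih =>
    rw [Finset.prod_insert ha, Finset.sum_insert ha]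
    exact rd_mul (hP a (Finset.mem_insert_self a s))
      (ih fun i hi => hP i (Finset.mem_insert_of_mem hi))

theorem rd_monomial {L : ℕ} {s : Fin r →₀ ℕ} (c : k) (hs : ∀ i, s i ≤ L) :
    monomial s c ∈ restrictDegree (Fin r) k L := by
  classical
  rw [mem_rd]
  intro t ht i
  rw [mem_support_iff, coeff_monomial] at ht
  by_cases h : s = t
  · simpa [← h] using hs i
  · simp [h] at ht

theorem Sp_mono (x : Fin r → W) {L L' : ℕ} (h : L ≤ L') : Sp k x L ≤ Sp k x L' :=
  Submodule.map_mono (rd_mono h)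

theorem Hd_mono (x : Fin r → W) {L L' : ℕ} (h : L ≤ L') : Hd k x L ≤ Hd k x L' :=
  Submodule.finrank_mono (Sp_mono x h)

/-- the span as a span of natural monomials -/
theorem Sp_eq_span (x : Fin r → W) (L : ℕ) :
    Sp k x L = Submodule.span k ((fun v : Fin r → ℕ => ∏ i, x i ^ v i) '' {v | ∀ i, v i ≤ L}) := by
  classical
  apply le_antisymm
  · intro w hw
    obtain ⟨P, hP, rfl⟩ := mem_Sp.1 hw
    rw [mem_rd] at hP
    rw [aeval_def, eval₂_eq']
    refine Submodule.sum_mem _ fun s hs => ?_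
    rw [← Algebra.smul_def]
    exact Submodule.smul_mem _ _ (Submodule.subset_span ⟨fun i => s i, hP s hs, rfl⟩)
  · rw [Submodule.span_le]
    rintro _ ⟨v, hv, rfl⟩
    refine mem_Sp.2 ⟨monomial (Finsupp.equivFunOnFinite.symm v) 1, rd_monomial 1 (by simpa using hv), ?_⟩
    rw [aeval_monomial, map_one, one_mul, Finsupp.prod_fintype _ _ (by simp)]
    simp

/-- the span as a span of Laurent monomials -/
theorem Sp_eq_span_mon (x : Fin r → W) (L : ℕ) :
    Sp k x L = Submodule.span k (mon x '' {v : Fin r → ℤ | ∀ i, 0 ≤ v i ∧ v i ≤ L}) := by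
  rw [Sp_eq_span]
  congr 1
  ext w
  constructor
  · rintro ⟨v, hv, rfl⟩
    exact ⟨fun i => (v i : ℤ), fun i => ⟨Int.natCast_nonneg _, Int.ofNat_le.2 (hv i)⟩, by simp [mon]⟩
  · rintro ⟨v, hv, rfl⟩
    refine ⟨fun i => (v i).toNat, fun i => by have := hv i; simp only; omega, ?_⟩
    unfold mon
    refine Finset.prod_congr rfl fun i _ => ?_
    have h : ((v i).toNat : ℤ) = v i := Int.toNat_of_nonneg (hv i).1
    simp only
    rw [← zpow_natCast, h]

theorem mon_ne_zero {x : Fin r → W} (hx : ∀ i, x i ≠ 0) (v : Fin r → ℤ) : mon x v ≠ 0 :=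
  Finset.prod_ne_zero_iff.2 fun i _ => zpow_ne_zero _ (hx i)

theorem mon_add {x : Fin r → W} (hx : ∀ i, x i ≠ 0) (v w : Fin r → ℤ) :
    mon x (v + w) = mon x v * mon x w := by
  unfold mon
  rw [← Finset.prod_mul_distrib]
  exact Finset.prod_congr rfl fun i _ => by simp [zpow_add₀ (hx i)]

theorem mon_zero (x : Fin r → W) : mon x 0 = 1 := by simp [mon]

theorem mon_neg (x : Fin r → W) (v : Fin r → ℤ) : mon x (-v) = (mon x v)⁻¹ := by
  unfold mon
  rw [← Finset.prod_inv_distrib]
  exact Finset.prod_congr rfl fun i _ => by simp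

theorem mon_pw (x : Fin r → W) (m : ℕ) (v : Fin r → ℤ) : mon (pw x m) v = mon x v ^ m := by
  unfold mon pw
  rw [← Finset.prod_pow]
  refine Finset.prod_congr rfl fun i _ => ?_
  rw [← zpow_natCast, ← zpow_natCast, ← zpow_mul, ← zpow_mul, mul_comm]

theorem pw_pw (x : Fin r → W) (m m' : ℕ) : pw (pw x m) m' = pw x (m * m') := by
  funext i; simp [pw, pow_mul]

theorem Hd_pos (x : Fin r → W) (L : ℕ) : 0 < Hd k x L := by
  unfold Hd
  rw [Module.finrank_pos_iff]
  refine ⟨⟨⟨1, ?_⟩, 0, ?_⟩⟩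
  · exact mem_Sp.2 ⟨1, rd_mono (Nat.zero_le _) rd_one, by simp⟩
  · intro h
    exact one_ne_zero (congrArg Subtype.val h)

end basic

end H61.Geo
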