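import Mathlib

/-!
# The block lemma: independent evaluation functionals

`f_i : V → W` linear (`i` in a finite index set), `U_i ⊆ V` subspaces such that `f_j` vanishes on
`U_i` for `j ≠ i`. Then the rank of `(f_i)_i : V → W^ι` is at least `∑ dim f_i(U_i)`.
Proof: the image contains `∏_i f_i(U_i)` (the vector `(f_i(u_i))_i` is the image of `∑ u_i`).
-/

namespace H61.Geo

theorem block {k V W ι : Type*} [Field k] [AddCommGroup V] [Module k V] [FiniteDimensional k V]
    [AddCommGroup W] [Module k W] [Fintype ι]
    (f : ι → V →ₗ[k] W) (U : ι → Submodule k V) (h : ∀ i j, i ≠ j → ∀ u ∈ U i, f j u = 0) :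
    ∑ i, Module.finrank k ((U i).map (f i)) ≤
      Module.finrank k (LinearMap.range (LinearMap.pi f)) := by
  classical
  -- the product of the images
  let e : (∀ i, (U i).map (f i)) →ₗ[k] (ι → W) :=
    LinearMap.pi fun i => ((U i).map (f i)).subtype.comp (LinearMap.proj i)
  have he : Function.Injective e := by
    intro a b hab
    funext i
    have := congrFun hab i
    exact Subtype.ext this
  have hr : LinearMap.range e ≤ LinearMap.range (LinearMap.pi f) := by
    rintro _ ⟨w, rfl⟩
    choose u hu hw using fun i => (w i).2
    refine ⟨∑ i, u i, ?_⟩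
    funext j
    have h1 : f j (∑ i, u i) = f j (u j) := by
      rw [map_sum]
      exact Finset.sum_eq_single j (fun i _ hij => h i j hij (u i) (hu i)) (by simp)
    change f j (∑ i, u i) = (w j : W)
    rw [h1, hw j]
  calc ∑ i, Module.finrank k ((U i).map (f i))
      = Module.finrank k (∀ i, (U i).map (f i)) := by
        rw [Module.finrank_pi_fintype]
    _ = Module.finrank k (LinearMap.range e) := (LinearMap.finrank_range_of_inj he).symm
    _ ≤ _ := Submodule.finrank_mono hr

end H61.Geo
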