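import Pool.Agent.H61.Geo.HomDefs

/-! # Classes modulo a rational subspace, spans of classes (definitions) -/

open MvPolynomial

namespace H61.Geo

/-- the class of an integer vector modulo `V` -/
def cls {r : ℕ} (V : Submodule ℚ (Fin r → ℚ)) (v : Fin r → ℤ) : (Fin r → ℚ) ⧸ V :=
  V.mkQ (fun i => (v i : ℚ))

/-- the number of classes modulo `V` meeting the box `|v|_∞ ≤ a` -/
noncomputable def nu {r : ℕ} (V : Submodule ℚ (Fin r → ℚ)) (a : ℕ) : ℕ :=
  Set.ncard (cls V '' {v | ∀ i, |v i| ≤ (a : ℤ)})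

/-- the span of the Laurent monomials `x^v`, `v` in the lattice of `V`, `|v|_∞ ≤ a` -/
noncomputable def Bsp (k : Type*) {W : Type*} [Field k] [Field W] [Algebra k W] {r : ℕ}
    (V : Submodule ℚ (Fin r → ℚ)) (x : Fin r → W) (a : ℕ) : Submodule k W :=
  Submodule.span k (mon x '' {v | v ∈ LamV V ∧ ∀ i, |v i| ≤ (a : ℤ)})

/-- its dimension -/
noncomputable def bb (k : Type*) {W : Type*} [Field k] [Field W] [Algebra k W] {r : ℕ}
    (V : Submodule ℚ (Fin r → ℚ)) (x : Fin r → W) (a : ℕ) : ℕ :=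
  Module.finrank k (Bsp k V x a)

section
variable {k W : Type*} [Field k] [Field W] [Algebra k W] {r : ℕ} {x : Fin r → W}

theorem finite_box (a : ℕ) : {v : Fin r → ℤ | ∀ i, |v i| ≤ (a : ℤ)}.Finite := by
  refine (Set.finite_Icc (fun _ => -(a : ℤ)) (fun _ => (a : ℤ))).subset ?_
  intro v hv
  rw [Set.mem_Icc]
  exact ⟨fun i => (abs_le.1 (hv i)).1, fun i => (abs_le.1 (hv i)).2⟩

instance (V : Submodule ℚ (Fin r → ℚ)) (a : ℕ) : FiniteDimensional k (Bsp k V x a) :=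
  FiniteDimensional.span_of_finite k (((finite_box a).subset fun _ hv => hv.2).image _)

theorem Bsp_mono (V : Submodule ℚ (Fin r → ℚ)) {a a' : ℕ} (h : a ≤ a') :
    Bsp k V x a ≤ Bsp k V x a' := by
  refine Submodule.span_mono (Set.image_mono ?_)
  intro v hv
  exact ⟨hv.1, fun i => (hv.2 i).trans (by exact_mod_cast h)⟩

theorem bb_mono (V : Submodule ℚ (Fin r → ℚ)) {a a' : ℕ} (h : a ≤ a') :
    bb k V x a ≤ bb k V x a' := Submodule.finrank_mono (Bsp_mono V h)

theorem one_mem_Bsp (V : Submodule ℚ (Fin r → ℚ)) (a : ℕ) : (1 : W) ∈ Bsp k V x a :=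
  Submodule.subset_span ⟨0, ⟨(LamV V).zero_mem, by simp⟩, mon_zero x⟩

theorem bb_pos (V : Submodule ℚ (Fin r → ℚ)) (a : ℕ) : 0 < bb k V x a := by
  unfold bb
  rw [Module.finrank_pos_iff]
  exact ⟨⟨⟨1, one_mem_Bsp V a⟩, 0, fun h => one_ne_zero (congrArg Subtype.val h)⟩⟩

end

/-- monotonicity -/
theorem nu_mono {r : ℕ} (V : Submodule ℚ (Fin r → ℚ)) {a a' : ℕ} (h : a ≤ a') :
    nu V a ≤ nu V a' := by
  refine Set.ncard_le_ncard (Set.image_mono ?_) ((finite_box a').image _)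
  intro v hv i
  exact (hv i).trans (by exact_mod_cast h)

/-- the number of classes is positive -/
theorem nu_pos {r : ℕ} (V : Submodule ℚ (Fin r → ℚ)) (a : ℕ) : 0 < nu V a := by
  rw [nu, Set.ncard_pos ((finite_box a).image _)]
  exact ⟨_, ⟨0, by simp, rfl⟩⟩

theorem cls_eq_iff {r : ℕ} {V : Submodule ℚ (Fin r → ℚ)} {v w : Fin r → ℤ} :
    cls V v = cls V w ↔ v - w ∈ LamV V := by
  unfold cls
  rw [Submodule.mkQ_apply, Submodule.mkQ_apply, Submodule.Quotient.eq, mem_LamV]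
  have h : ((fun i => (v i : ℚ)) - fun i => (w i : ℚ)) = fun i => (((v - w) i : ℤ) : ℚ) := by
    funext i; simp
  rw [h]

end H61.Geo
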