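import Mathlib

/-! # GEO-18a: cyclotomic fields of coprime levels are linearly disjoint -/

open IntermediateField

namespace H61.Geo

theorem cyclo_finrank {W : Type*} [Field W] [Algebra ℚ W] {m : ℕ} (hm : 0 < m) {z : W}
    (hz : IsPrimitiveRoot z m) : Module.finrank ℚ ℚ⟮z⟯ = m.totient := by
  have hc : CharZero W := algebraRat.charZero W
  have hi : IsIntegral ℚ z := (hz.isIntegral hm).tower_top
  have h1 : Polynomial.aeval z (Polynomial.cyclotomic m ℚ) = 0 := by
    have h2 := hz.isRoot_cyclotomic hm
    rw [Polynomial.IsRoot.def, ← Polynomial.map_cyclotomic m (algebraMap ℚ W),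
      Polynomial.eval_map_algebraMap] at h2
    exact h2
  rw [IntermediateField.adjoin.finrank hi, ← minpoly.eq_of_irreducible_of_monic
    (Polynomial.cyclotomic.irreducible_rat hm) h1 (Polynomial.cyclotomic.monic m ℚ),
    Polynomial.natDegree_cyclotomic]

/-- GEO-18a. Cyclotomic fields of coprime levels are linearly disjoint.
Proof: `ℚ(ζ_m)` and `ℚ(ζ_l)` have degrees `φ(m)`, `φ(l)` (`IsCyclotomicExtension.finrank`,
`Polynomial.cyclotomic.irreducible_rat`, or `IsPrimitiveRoot.minpoly..`), their compositum is
`ℚ(ζ_m ζ_l)`, of degree `φ(m l) = φ(m) φ(l)` (`IsPrimitiveRoot.mul_of_coprime..`,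
`ζ_m, ζ_l` are powers of the product), so `IntermediateField.LinearDisjoint.of_finrank_sup`. -/
theorem cyclo_disjoint {W : Type*} [Field W] [Algebra ℚ W] {m l : ℕ} (hm : 0 < m) (hl : 0 < l)
    (hml : m.Coprime l) {z w : W} (hz : IsPrimitiveRoot z m) (hw : IsPrimitiveRoot w l) :
    (ℚ⟮z⟯).LinearDisjoint (ℚ⟮w⟯) := by
  have hc : CharZero W := algebraRat.charZero W
  have hzi : IsIntegral ℚ z := (hz.isIntegral hm).tower_top
  have hwi : IsIntegral ℚ w := (hw.isIntegral hl).tower_top
  have hfz : FiniteDimensional ℚ ℚ⟮z⟯ := IntermediateField.adjoin.finiteDimensional hzi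
  have hfw : FiniteDimensional ℚ ℚ⟮w⟯ := IntermediateField.adjoin.finiteDimensional hwi
  have hzw : IsPrimitiveRoot (z * w) (m * l) := by
    have h1 : orderOf (z * w) = m * l := by
      rw [(Commute.all z w).orderOf_mul_eq_mul_orderOf_of_coprime, ← hz.eq_orderOf, ← hw.eq_orderOf]
      rw [← hz.eq_orderOf, ← hw.eq_orderOf]
      exact hml
    rw [← h1]
    exact IsPrimitiveRoot.orderOf (z * w)
  have hsup : ℚ⟮z⟯ ⊔ ℚ⟮w⟯ = ℚ⟮z * w⟯ := by
    apply le_antisymm
    · rw [sup_le_iff, IntermediateField.adjoin_simple_le_iff,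
        IntermediateField.adjoin_simple_le_iff]
      constructor
      · obtain ⟨a, ha1, ha2⟩ := Nat.chineseRemainder hml 1 0
        have h2 : z = (z * w) ^ a := by
          rw [mul_pow]
          have h3 : z ^ a = z := by
            have e1 := pow_mod_orderOf z a
            have e2 := pow_mod_orderOf z 1
            rw [← hz.eq_orderOf] at e1 e2
            rw [← e1, show a % m = 1 % m from ha1, e2, pow_one]
          have h5 : w ^ a = 1 := by
            rw [hw.pow_eq_one_iff_dvd]
            exact (Nat.modEq_zero_iff_dvd).1 ha2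
          rw [h3, h5, mul_one]
        have h6 := pow_mem (IntermediateField.mem_adjoin_simple_self ℚ (z * w)) a
        rw [← h2] at h6
        exact h6
      · obtain ⟨a, ha1, ha2⟩ := Nat.chineseRemainder hml 0 1
        have h2 : w = (z * w) ^ a := by
          rw [mul_pow]
          have h3 : w ^ a = w := by
            have e1 := pow_mod_orderOf w a
            have e2 := pow_mod_orderOf w 1
            rw [← hw.eq_orderOf] at e1 e2
            rw [← e1, show a % l = 1 % l from ha2, e2, pow_one]
          have h5 : z ^ a = 1 := by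
            rw [hz.pow_eq_one_iff_dvd]
            exact (Nat.modEq_zero_iff_dvd).1 ha1
          rw [h3, h5, one_mul]
        have h6 := pow_mem (IntermediateField.mem_adjoin_simple_self ℚ (z * w)) a
        rw [← h2] at h6
        exact h6
    · rw [IntermediateField.adjoin_simple_le_iff]
      refine mul_mem ?_ ?_
      · exact (le_sup_left : ℚ⟮z⟯ ≤ _) (IntermediateField.mem_adjoin_simple_self ℚ z)
      · exact (le_sup_right : ℚ⟮w⟯ ≤ _) (IntermediateField.mem_adjoin_simple_self ℚ w)
  apply IntermediateField.LinearDisjoint.of_finrank_sup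
  rw [hsup, cyclo_finrank (Nat.mul_pos hm hl) hzw, cyclo_finrank hm hz, cyclo_finrank hl hw,
    Nat.totient_mul hml]

end H61.Geo
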