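import Pool.Agent.H61.Geo.Cyclo

/-! # GEO-18b: few primes `l` with `F` and `ℚ(ζ_l)` not linearly disjoint -/

open IntermediateField

namespace H61.Geo

section aux

variable {K W : Type*} [Field K] [Field W] [Algebra K W]

theorem prim_isIntegral {n : ℕ} (hn : 0 < n) {z : W} (hz : IsPrimitiveRoot z n) :
    IsIntegral K z := by
  refine ⟨Polynomial.X ^ n - 1, ?_, ?_⟩
  · exact Polynomial.monic_X_pow_sub_C 1 hn.ne'
  · simp [hz.pow_eq_one]

theorem prim_cyclo {n : ℕ} (hn : 0 < n) {z : W} (hz : IsPrimitiveRoot z n) :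
    IsCyclotomicExtension {n} K (K⟮z⟯) := by
  have : NeZero n := ⟨hn.ne'⟩
  change IsCyclotomicExtension {n} K (IntermediateField.adjoin K {z}).toSubalgebra
  rw [IntermediateField.adjoin_simple_toSubalgebra_of_isAlgebraic
    (prim_isIntegral hn hz).isAlgebraic]
  exact hz.adjoin_isCyclotomicExtension K

theorem prim_galois {n : ℕ} (hn : 0 < n) {z : W} (hz : IsPrimitiveRoot z n) :
    IsGalois K (K⟮z⟯) := by
  have : NeZero n := ⟨hn.ne'⟩
  have := prim_cyclo (K := K) hn hz
  exact IsCyclotomicExtension.isGalois {n} K (K⟮z⟯)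

omit [Algebra K W] [Field K] in
/-- product of primitive roots of coprime orders -/
theorem prim_mul {m l : ℕ} (hml : m.Coprime l) {z w : W}
    (hz : IsPrimitiveRoot z m) (hw : IsPrimitiveRoot w l) : IsPrimitiveRoot (z * w) (m * l) := by
  have h := (Commute.all z w).orderOf_mul_eq_mul_orderOf_of_coprime
    (by rw [← hz.eq_orderOf, ← hw.eq_orderOf]; exact hml)
  rw [← hz.eq_orderOf, ← hw.eq_orderOf] at h
  rw [← h]
  exact IsPrimitiveRoot.orderOf _

theorem prim_left_mem {m l : ℕ} (hml : m.Coprime l) {z w : W}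
    (hz : IsPrimitiveRoot z m) (hw : IsPrimitiveRoot w l) : z ∈ K⟮z * w⟯ := by
  obtain ⟨k, hk1, hk0⟩ := Nat.chineseRemainder hml 1 0
  have h1 : z ^ k = z := by
    have : z ^ k = z ^ 1 := pow_eq_pow_of_modEq hk1 hz.pow_eq_one
    simpa using this
  have h0 : w ^ k = 1 := by
    have : w ^ k = w ^ 0 := pow_eq_pow_of_modEq hk0 hw.pow_eq_one
    simpa using this
  have h2 : (z * w) ^ k = z := by rw [mul_pow, h1, h0, mul_one]
  have h3 := pow_mem (mem_adjoin_simple_self K (z * w)) k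
  rwa [h2] at h3

end aux

/-- GEO-18b. Proof: induction on `T ⊆ S`: the field `E_T = ⨆_{l ∈ T} F ⊓ ℚ(ζ_l)` is contained in
`F` and in `ℚ(z)`, `z` a primitive root of order `∏_{l ∈ T} l` (`z = ∏ ζ_l`), and has degree at
least `2^|T|`. Step: `E' = F ⊓ ℚ(ζ_l)` is not `⊥` (otherwise `ℚ(ζ_l)` and `F` are linearly disjoint,
`IntermediateField.LinearDisjoint.of_inf_eq_bot` with `ℚ(ζ_l)/ℚ` Galois), so it has degree `≥ 2`;
`E_T` and `E'` are linearly disjoint (`cyclo_disjoint`, `LinearDisjoint.of_le`), so the degree of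
`E_T ⊔ E'` is the product (`LinearDisjoint.finrank_sup`). Finally `finrank E_S ≤ finrank F`
(`IntermediateField.finrank_le_of_le..`). -/
theorem card_not_disjoint {W : Type*} [Field W] [Algebra ℚ W] (F : IntermediateField ℚ W)
    [FiniteDimensional ℚ F] (S : Finset ℕ) (hp : ∀ l ∈ S, l.Prime) (Z : ℕ → W)
    (hZ : ∀ l ∈ S, IsPrimitiveRoot (Z l) l)
    (hbad : ∀ l ∈ S, ¬ (ℚ⟮Z l⟯).LinearDisjoint F) : 2 ^ S.card ≤ Module.finrank ℚ F := by
  classical
  have key : ∀ T : Finset ℕ, T ⊆ S → ∃ (E : IntermediateField ℚ W) (z : W),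
      IsPrimitiveRoot z (∏ l ∈ T, l) ∧ E ≤ F ∧ E ≤ ℚ⟮z⟯ ∧ 2 ^ T.card ≤ Module.finrank ℚ E := by
    intro T
    induction T using Finset.induction_on with
    | empty =>
      intro _
      exact ⟨⊥, 1, by simp, bot_le, bot_le, by simp [IntermediateField.finrank_bot]⟩
    | insert l T hl ih =>
      intro hT
      obtain ⟨E, z, hz, hEF, hEz, hE⟩ := ih ((Finset.subset_insert l T).trans hT)
      have hlS : l ∈ S := hT (Finset.mem_insert_self l T)
      have hlp := hp l hlS
      have hTS : ∀ q ∈ T, q.Prime := fun q hq => hp q (hT (Finset.mem_insert_of_mem hq))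
      have hm : 0 < ∏ q ∈ T, q := Finset.prod_pos fun q hq => (hTS q hq).pos
      have hcop : (∏ q ∈ T, q).Coprime l := by
        refine Nat.Coprime.prod_left fun q hq => ?_
        rw [Nat.coprime_primes (hTS q hq) hlp]
        rintro rfl
        exact hl hq
      have := prim_galois (K := ℚ) hlp.pos (hZ l hlS)
      have : FiniteDimensional ℚ (ℚ⟮Z l⟯) :=
        adjoin.finiteDimensional (prim_isIntegral hlp.pos (hZ l hlS))
      -- the intersection
      have hne : (ℚ⟮Z l⟯ ⊓ F) ≠ ⊥ := fun h => hbad l hlS (LinearDisjoint.of_inf_eq_bot h)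
      have : FiniteDimensional ℚ (ℚ⟮Z l⟯ ⊓ F : IntermediateField ℚ W) :=
        Submodule.finiteDimensional_of_le (S₁ := (ℚ⟮Z l⟯ ⊓ F : IntermediateField ℚ W).toSubalgebra.toSubmodule)
          (S₂ := F.toSubalgebra.toSubmodule) (fun x hx => hx.2)
      have h2 : 2 ≤ Module.finrank ℚ (ℚ⟮Z l⟯ ⊓ F : IntermediateField ℚ W) := by
        have h0 : 0 < Module.finrank ℚ (ℚ⟮Z l⟯ ⊓ F : IntermediateField ℚ W) := Module.finrank_pos
        have h1 : Module.finrank ℚ (ℚ⟮Z l⟯ ⊓ F : IntermediateField ℚ W) ≠ 1 := fun h =>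
          hne (finrank_eq_one_iff.mp h)
        omega
      have hdis : E.LinearDisjoint (ℚ⟮Z l⟯ ⊓ F : IntermediateField ℚ W) :=
        (cyclo_disjoint hm hlp.pos hcop hz (hZ l hlS)).of_le hEz inf_le_left
      refine ⟨E ⊔ (ℚ⟮Z l⟯ ⊓ F), z * Z l, ?_, sup_le hEF inf_le_right, ?_, ?_⟩
      · rw [Finset.prod_insert hl, mul_comm l]
        exact prim_mul hcop hz (hZ l hlS)
      · refine sup_le (hEz.trans ?_) (inf_le_left.trans ?_)
        · rw [adjoin_simple_le_iff]
          exact prim_left_mem hcop hz (hZ l hlS)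
        · rw [adjoin_simple_le_iff, mul_comm]
          exact prim_left_mem hcop.symm (hZ l hlS) hz
      · rw [hdis.finrank_sup, Finset.card_insert_of_notMem hl, pow_succ]
        exact Nat.mul_le_mul hE h2
  obtain ⟨E, z, _, hEF, _, hE⟩ := key S subset_rfl
  refine hE.trans ?_
  exact Submodule.finrank_mono (s := E.toSubalgebra.toSubmodule)
    (t := F.toSubalgebra.toSubmodule) (fun x hx => hEF hx)

end H61.Geo
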