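import Mathlib

/-! # GEO-11a: a basis with small coordinates -/

namespace H61.Geo

/-- GEO-11a. A basis with small coordinates (Fekete/Auerbach): a finite set `S` spanning a
`d`-dimensional space contains a basis `b` such that all elements of `S` have coordinates of
absolute value at most `1`.
Proof: fix a basis `b0` (`Module.finBasis`); among the finitely many functions `f : Fin d → S`
choose one maximising `|b0.det f|`; it is not zero because `S` contains a basis
(`Submodule`/`Basis.extend`, `exists_linearIndependent`, `Basis.isUnit_det`). So `f` is a basis `b`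
(`is_basis_iff_det`). For `s ∈ S` and `i`: `b0.det (Function.update f i s) = (b.repr s i) * b0.det f`
(`Basis.det_...`, multilinearity: write `s = ∑ (b.repr s j) • f j`,
`AlternatingMap.map_update_sum/map_update_self`), so `|b.repr s i| ≤ 1`. -/
theorem exists_small_basis {M : Type*} [AddCommGroup M] [Module ℚ M] {d : ℕ}
    (hd : Module.finrank ℚ M = d) [FiniteDimensional ℚ M] (S : Set M) (hS : S.Finite)
    (hspan : Submodule.span ℚ S = ⊤) :
    ∃ b : Module.Basis (Fin d) ℚ M, (∀ i, b i ∈ S) ∧ ∀ s ∈ S, ∀ i, |b.repr s i| ≤ 1 := by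
  classical
  let b0 : Module.Basis (Fin d) ℚ M := (Module.finBasis ℚ M).reindex (finCongr hd)
  obtain ⟨f1, hf1S, hf1⟩ : ∃ f : Fin d → M, (∀ i, f i ∈ S) ∧ b0.det f ≠ 0 := by
    obtain ⟨b, hbS, hbspan, hbli⟩ := exists_linearIndependent ℚ S
    let B : Module.Basis b ℚ M := Module.Basis.mk hbli (by simp [hbspan, hspan])
    haveI : Fintype b := (hS.subset hbS).fintype
    let e : b ≃ Fin d := Fintype.equivOfCardEq
      (by rw [Fintype.card_fin, ← hd, Module.finrank_eq_card_basis B])
    refine ⟨B.reindex e, ?_, (b0.isUnit_det (B.reindex e)).ne_zero⟩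
    intro i
    rw [Module.Basis.reindex_apply, Module.Basis.mk_apply]
    exact hbS (e.symm i).2
  have hfin : {f : Fin d → M | ∀ i, f i ∈ S}.Finite := Set.Finite.pi' (fun _ : Fin d => hS)
  obtain ⟨f, hfS, hmax⟩ := Set.exists_max_image _ (fun f : Fin d → M => |b0.det f|) hfin ⟨f1, hf1S⟩
  have hf0 : b0.det f ≠ 0 := by
    intro h
    have h1 := hmax f1 hf1S
    rw [h, abs_zero, abs_nonpos_iff] at h1
    exact hf1 h1
  have hb := (Module.Basis.is_basis_iff_det b0).2 (isUnit_iff_ne_zero.2 hf0)
  let b : Module.Basis (Fin d) ℚ M := Module.Basis.mk hb.1 hb.2.ge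
  have hbf : ∀ j, b j = f j := fun j => by rw [Module.Basis.mk_apply]
  have key : ∀ s i, b0.det (Function.update f i s) = b.repr s i * b0.det f := by
    intro s i
    have h2 : b0.det.toMultilinearMap.toLinearMap f i =
        (b0.det f) • (b.coord i) := by
      refine b.ext fun j => ?_
      rw [LinearMap.smul_apply, Module.Basis.coord_apply, Module.Basis.repr_self, hbf]
      change b0.det (Function.update f i (f j)) = _
      by_cases hij : j = i
      · subst hij
        simp
      · rw [Finsupp.single_eq_of_ne (Ne.symm hij), smul_zero]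
        refine b0.det.map_eq_zero_of_eq _ (i := i) (j := j) ?_ (Ne.symm hij)
        rw [Function.update_self, Function.update_of_ne hij]
    have h3 := LinearMap.congr_fun h2 s
    rw [LinearMap.smul_apply, Module.Basis.coord_apply, smul_eq_mul] at h3
    rw [mul_comm, ← h3]
    rfl
  refine ⟨b, fun i => by rw [hbf]; exact hfS i, fun s hs i => ?_⟩
  have h4 := hmax (Function.update f i s) (fun j => by
    by_cases hj : j = i
    · subst hj; rw [Function.update_self]; exact hs
    · rw [Function.update_of_ne hj]; exact hfS j)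
  rw [key, abs_mul] at h4
  have h5 : 0 < |b0.det f| := abs_pos.2 hf0
  by_contra hcon
  push Not at hcon
  have : 1 * |b0.det f| < |b.repr s i| * |b0.det f| := mul_lt_mul_of_pos_right hcon h5
  linarith

end H61.Geo
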