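import Pool.Agent.H61.Geo.ClassDefs
import Pool.Agent.H61.Geo.SmallBasis

/-! # GEO-11b: growth of the number of classes -/

open MvPolynomial

namespace H61.Geo

/-- `cls V` as a homomorphism -/
def NuGrowth_hom {r : ℕ} (V : Submodule ℚ (Fin r → ℚ)) : (Fin r → ℤ) →+ (Fin r → ℚ) ⧸ V :=
  V.mkQ.toAddMonoidHom.comp ((Int.castAddHom ℚ).compLeft (Fin r))

theorem NuGrowth_cls {r : ℕ} (V : Submodule ℚ (Fin r → ℚ)) (v : Fin r → ℤ) :
    cls V v = NuGrowth_hom V v := rfl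

theorem NuGrowth_span {r : ℕ} (V : Submodule ℚ (Fin r → ℚ)) {a : ℕ} (ha : 1 ≤ a) :
    Submodule.span ℚ (cls V '' {v | ∀ i, |v i| ≤ (a : ℤ)}) = ⊤ := by
  classical
  rw [eq_top_iff]
  intro y _
  obtain ⟨w, rfl⟩ := V.mkQ_surjective y
  have hw : w = ∑ i, w i • (Pi.single i (1 : ℚ) : Fin r → ℚ) := by
    funext j
    simp [Finset.sum_apply, Pi.single_apply]
  rw [hw, map_sum]
  refine Submodule.sum_mem _ fun i _ => ?_
  rw [map_smul]
  refine Submodule.smul_mem _ _ (Submodule.subset_span ⟨Pi.single i 1, ?_, ?_⟩)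
  · intro j
    by_cases hj : j = i
    · subst hj
      simp only [Pi.single_eq_same, abs_one]
      exact_mod_cast ha
    · rw [Pi.single_eq_of_ne hj]
      simp
  · unfold cls
    congr 1
    funext j
    by_cases hj : j = i
    · subst hj; simp
    · simp [Pi.single_eq_of_ne hj]

theorem NuGrowth_key {r d : ℕ} (V : Submodule ℚ (Fin r → ℚ)) {k a T : ℕ} (hk : 1 ≤ k)
    (ha : 1 ≤ a) (hd : Module.finrank ℚ ((Fin r → ℚ) ⧸ V) = d) (hT : 3 * d * T ≤ k - 1) :
    (T + 1) ^ d * nu V a ≤ nu V (k * a) := by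
  classical
  set S : Set ((Fin r → ℚ) ⧸ V) := cls V '' {v | ∀ i, |v i| ≤ (a : ℤ)} with hSdef
  have hSf : S.Finite := (finite_box a).image _
  obtain ⟨b, hbS, hb1⟩ := exists_small_basis hd S hSf (NuGrowth_span V ha)
  choose x hx hxb using hbS
  set S2 : Set ((Fin r → ℚ) ⧸ V) := cls V '' {v | ∀ i, |v i| ≤ ((k * a : ℕ) : ℤ)} with hS2def
  have hS2f : S2.Finite := (finite_box (k * a)).image _
  let F : (Fin d → Fin (T + 1)) × ((Fin r → ℚ) ⧸ V) → (Fin r → ℚ) ⧸ V := fun p =>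
    p.2 + ∑ i, ((3 * (p.1 i : ℕ) : ℕ) : ℚ) • b i
  have hmaps : ∀ p ∈ (Finset.univ : Finset (Fin d → Fin (T + 1))) ×ˢ hSf.toFinset,
      F p ∈ hS2f.toFinset := by
    rintro ⟨t, s⟩ hp
    rw [Finset.mem_product, Set.Finite.mem_toFinset] at hp
    obtain ⟨v, hv, hvs⟩ := hp.2
    rw [Set.Finite.mem_toFinset]
    refine ⟨v + ∑ i, (3 * (t i : ℕ)) • x i, ?_, ?_⟩
    · intro j
      have h1 : (v + ∑ i, (3 * (t i : ℕ)) • x i) j = v j + ∑ i, ((3 * (t i : ℕ) : ℕ) : ℤ) * x i j := by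
        simp [Finset.sum_apply]
      rw [h1]
      have h2 : |∑ i, ((3 * (t i : ℕ) : ℕ) : ℤ) * x i j| ≤ ∑ _i : Fin d, (3 * T * a : ℤ) := by
        refine (Finset.abs_sum_le_sum_abs _ _).trans (Finset.sum_le_sum fun i _ => ?_)
        rw [abs_mul, Nat.abs_cast]
        have h3 : ((3 * (t i : ℕ) : ℕ) : ℤ) ≤ 3 * T := by
          have := (t i).2
          push_cast
          omega
        exact mul_le_mul h3 (hx i j) (abs_nonneg _) (by positivity)
      rw [Finset.sum_const, Finset.card_univ, Fintype.card_fin, nsmul_eq_mul] at h2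
      have h4 : (3 * d * T : ℤ) ≤ k - 1 := by
        have : ((3 * d * T : ℕ) : ℤ) ≤ ((k - 1 : ℕ) : ℤ) := by exact_mod_cast hT
        push_cast [Nat.cast_sub hk] at this
        exact this
      have h5 : (3 * d * T : ℤ) * a ≤ (k - 1) * a :=
        mul_le_mul_of_nonneg_right h4 (by positivity)
      have h6 := abs_add_le (v j) (∑ i, ((3 * (t i : ℕ) : ℕ) : ℤ) * x i j)
      have h7 := hv j
      push_cast
      push_cast at h2 h6
      nlinarith
    · rw [NuGrowth_cls, map_add, map_sum, ← NuGrowth_cls, hvs]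
      show s + _ = s + _
      congr 1
      refine Finset.sum_congr rfl fun i _ => ?_
      rw [map_nsmul, ← NuGrowth_cls, hxb i, Nat.cast_smul_eq_nsmul]
  have hinj : Set.InjOn F ((Finset.univ : Finset (Fin d → Fin (T + 1))) ×ˢ hSf.toFinset :
      Finset _) := by
    rintro ⟨t, s⟩ hp ⟨t', s'⟩ hp' heq
    rw [Finset.mem_coe, Finset.mem_product, Set.Finite.mem_toFinset] at hp hp'
    have heq' : s + ∑ i, ((3 * (t i : ℕ) : ℕ) : ℚ) • b i =
        s' + ∑ i, ((3 * (t' i : ℕ) : ℕ) : ℚ) • b i := heq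
    have hrep : ∀ i, b.repr s i + ((3 * (t i : ℕ) : ℕ) : ℚ) =
        b.repr s' i + ((3 * (t' i : ℕ) : ℕ) : ℚ) := by
      intro i
      have h1 := congrArg (fun y => b.repr y i) heq'
      simp only [map_add, Finsupp.add_apply, Module.Basis.repr_sum_self] at h1
      exact h1
    have ht : t = t' := by
      funext i
      have h1 := hrep i
      have h2 := abs_le.1 (hb1 s hp.2 i)
      have h3 := abs_le.1 (hb1 s' hp'.2 i)
      have h4 : ((3 * (t i : ℕ) : ℕ) : ℚ) - ((3 * (t' i : ℕ) : ℕ) : ℚ) ≤ 2 := by linarith [h2.1, h3.2]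
      have h5 : ((3 * (t' i : ℕ) : ℕ) : ℚ) - ((3 * (t i : ℕ) : ℕ) : ℚ) ≤ 2 := by linarith [h2.2, h3.1]
      have h6 : (3 * (t i : ℕ)) ≤ 3 * (t' i : ℕ) + 2 := by
        have : ((3 * (t i : ℕ) : ℕ) : ℚ) ≤ ((3 * (t' i : ℕ) + 2 : ℕ) : ℚ) := by
          push_cast at h4 ⊢; linarith
        exact_mod_cast this
      have h7 : (3 * (t' i : ℕ)) ≤ 3 * (t i : ℕ) + 2 := by
        have : ((3 * (t' i : ℕ) : ℕ) : ℚ) ≤ ((3 * (t i : ℕ) + 2 : ℕ) : ℚ) := by
          push_cast at h5 ⊢; linarith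
        exact_mod_cast this
      apply Fin.ext
      omega
    subst ht
    have hs : s = s' := add_right_cancel heq'
    rw [hs]
  have hcard := Finset.card_le_card_of_injOn F hmaps hinj
  rw [Finset.card_product, Finset.card_univ, Fintype.card_fun, Fintype.card_fin,
    Fintype.card_fin] at hcard
  have hn1 : nu V a = hSf.toFinset.card := Set.ncard_eq_toFinset_card _ hSf
  have hn2 : nu V (k * a) = hS2f.toFinset.card := Set.ncard_eq_toFinset_card _ hS2f
  rw [hn1, hn2]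
  exact hcard

/-- GEO-11b. Growth of the number of classes.
Proof: `d = finrank (ℚ^r / V)`; for `d = 0` the claim is `nu V a ≤ nu V (k a)` (monotone; `k ≥ 1`).
Let `S = cls V '' {|v| ≤ a}` (finite, spans since `a ≥ 1`, unit vectors), `b_i = cls V (x_i)` as in
`exists_small_basis`, `|x_i| ≤ a`. Let `T = (k-1) / (3 d)`. For `t : Fin d → {0..T}` the translates
`S + 3 ∑ t_i b_i` are contained in `cls V '' {|v| ≤ k a}` (`a + 3 d T a ≤ k a`) and pairwise
disjoint (`s - s'` has coordinates in `[-2,2]`, and `3 (t'_i - t_i)` is a multiple of `3`). So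
`(T+1)^d nu V a ≤ nu V (k a)` (injectivity of `(t, s) ↦ s + 3 ∑ t_i b_i`), and `k ≤ 3 d (T+1) ≤ 3 r (T+1)`. -/
theorem nu_growth {r : ℕ} (V : Submodule ℚ (Fin r → ℚ)) {k a : ℕ} (hk : 1 ≤ k) (ha : 1 ≤ a) :
    k ^ (Module.finrank ℚ ((Fin r → ℚ) ⧸ V)) * nu V a ≤
      (3 * r) ^ (Module.finrank ℚ ((Fin r → ℚ) ⧸ V)) * nu V (k * a) := by
  obtain ⟨d, hd⟩ : ∃ d, Module.finrank ℚ ((Fin r → ℚ) ⧸ V) = d := ⟨_, rfl⟩
  rw [hd]
  have hdr : d ≤ r := by
    rw [← hd]
    calc Module.finrank ℚ ((Fin r → ℚ) ⧸ V) ≤ Module.finrank ℚ (Fin r → ℚ) :=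
          Submodule.finrank_quotient_le V
      _ = r := by simp
  rcases Nat.eq_zero_or_pos d with h0 | h0
  · subst h0
    simp only [pow_zero, one_mul]
    exact nu_mono V (Nat.le_mul_of_pos_left a hk)
  · have hT : 3 * d * ((k - 1) / (3 * d)) ≤ k - 1 := Nat.mul_div_le _ _
    have h1 := NuGrowth_key V hk ha hd hT
    have h2 : k ≤ 3 * r * ((k - 1) / (3 * d) + 1) := by
      have h3 : k - 1 < 3 * d * ((k - 1) / (3 * d) + 1) :=
        Nat.lt_mul_div_succ (k - 1) (by omega)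
      have h4 : 3 * d * ((k - 1) / (3 * d) + 1) ≤ 3 * r * ((k - 1) / (3 * d) + 1) :=
        Nat.mul_le_mul_right _ (by omega)
      omega
    calc k ^ d * nu V a ≤ (3 * r * ((k - 1) / (3 * d) + 1)) ^ d * nu V a :=
          Nat.mul_le_mul_right _ (Nat.pow_le_pow_left h2 d)
      _ = (3 * r) ^ d * (((k - 1) / (3 * d) + 1) ^ d * nu V a) := by
          rw [mul_pow, mul_assoc]
      _ ≤ (3 * r) ^ d * nu V (k * a) := Nat.mul_le_mul_left _ h1

end H61.Geo
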