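import Pool.Agent.H61.Geo.FinBox

/-! # GEO-13: upper bound by classes -/

open MvPolynomial

namespace H61.Geo

variable {k W : Type*} [Field k] [Field W] [Algebra k W] {r : ℕ} {x : Fin r → W}

/-- dimension of a finite supremum -/
theorem upper_finrank_sup {ι : Type*} (s : Finset ι) (U : ι → Submodule k W)
    (hU : ∀ i ∈ s, FiniteDimensional k (U i)) (b : ℕ)
    (hb : ∀ i ∈ s, Module.finrank k (U i) ≤ b) :
    FiniteDimensional k (s.sup U : Submodule k W) ∧
      Module.finrank k (s.sup U : Submodule k W) ≤ s.card * b := by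
  classical
  induction s using Finset.induction_on with
  | empty =>
    rw [Finset.sup_empty]
    exact ⟨inferInstance, by simp⟩
  | insert a s ha ih =>
    obtain ⟨h1, h2⟩ := ih (fun i hi => hU i (Finset.mem_insert_of_mem hi))
      (fun i hi => hb i (Finset.mem_insert_of_mem hi))
    have h3 : FiniteDimensional k (U a) := hU a (Finset.mem_insert_self a s)
    rw [Finset.sup_insert]
    refine ⟨inferInstance, ?_⟩
    rw [Finset.card_insert_of_notMem ha]
    have h4 := Submodule.finrank_add_le_finrank_add_finrank (U a) (s.sup U)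
    have h5 := hb a (Finset.mem_insert_self a s)
    calc Module.finrank k (U a ⊔ s.sup U : Submodule k W)
        ≤ Module.finrank k (U a) + Module.finrank k (s.sup U : Submodule k W) := h4
      _ ≤ b + s.card * b := add_le_add h5 h2
      _ = (s.card + 1) * b := by ring

/-- GEO-13. Upper bound.
Proof: `span {mon x v | |v| ≤ a} ≤ ⨆_C (mon x v_C) • Bsp k V x (2 a)`, `C` in the finite set of the
classes meeting the box, because `v - v_C ∈ LamV V` and `|v - v_C| ≤ 2 a`; now `finrank_box` and
`finrank (⨆) ≤ ∑`. -/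
theorem upper (hx : ∀ i, x i ≠ 0) (V : Submodule ℚ (Fin r → ℚ)) (a : ℕ) :
    Hd k x (2 * a) ≤ nu V a * bb k V x (2 * a) := by
  classical
  have hfin : (cls V '' {v : Fin r → ℤ | ∀ i, |v i| ≤ (a : ℤ)}).Finite := (finite_box a).image _
  set F := hfin.toFinset with hF
  have hrep : ∀ C : (Fin r → ℚ) ⧸ V, ∃ v : Fin r → ℤ, C ∈ F →
      (∀ i, |v i| ≤ (a : ℤ)) ∧ cls V v = C := by
    intro C
    by_cases hC : C ∈ F
    · rw [hF, Set.Finite.mem_toFinset] at hC
      obtain ⟨v, hv, hvC⟩ := hC
      exact ⟨v, fun _ => ⟨hv, hvC⟩⟩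
    · exact ⟨0, fun h => absurd h hC⟩
  choose vC hvC using hrep
  set U : ((Fin r → ℚ) ⧸ V) → Submodule k W := fun C =>
    (Bsp k V x (2 * a)).map (LinearMap.mulLeft k (mon x (vC C))) with hUdef
  have hUfin : ∀ C ∈ F, FiniteDimensional k (U C) := by
    intro C _
    change FiniteDimensional k ((Bsp k V x (2 * a)).map (LinearMap.mulLeft k (mon x (vC C))))
    infer_instance
  have hUb : ∀ C ∈ F, Module.finrank k (U C) ≤ bb k V x (2 * a) := by
    intro C _
    exact Submodule.finrank_map_le (LinearMap.mulLeft k (mon x (vC C))) (Bsp k V x (2 * a))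
  obtain ⟨h1, h2⟩ := upper_finrank_sup F U hUfin (bb k V x (2 * a)) hUb
  have hle : Submodule.span k (mon x '' {v : Fin r → ℤ | ∀ i, |v i| ≤ (a : ℤ)}) ≤ F.sup U := by
    rw [Submodule.span_le]
    rintro _ ⟨v, hv, rfl⟩
    have hv' : ∀ i, |v i| ≤ (a : ℤ) := hv
    have hCF : cls V v ∈ F := by
      rw [hF, Set.Finite.mem_toFinset]
      exact ⟨v, hv, rfl⟩
    obtain ⟨h3, h4⟩ := hvC (cls V v) hCF
    have h5 : v - vC (cls V v) ∈ LamV V := cls_eq_iff.1 h4.symm
    have h6 : mon x v = mon x (vC (cls V v)) * mon x (v - vC (cls V v)) := by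
      rw [← mon_add hx]
      congr 1
      abel
    have h7 : mon x v ∈ U (cls V v) := by
      change _ ∈ (Bsp k V x (2 * a)).map (LinearMap.mulLeft k (mon x (vC (cls V v))))
      rw [Submodule.mem_map]
      refine ⟨mon x (v - vC (cls V v)), Submodule.subset_span ⟨_, ⟨h5, fun i => ?_⟩, rfl⟩, ?_⟩
      · have e1 := hv' i
        have e2 := h3 i
        rw [Pi.sub_apply]
        calc |v i - vC (cls V v) i| ≤ |v i| + |vC (cls V v) i| := abs_sub _ _
          _ ≤ a + a := add_le_add e1 e2
          _ = ((2 * a : ℕ) : ℤ) := by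
              push_cast
              ring
      · rw [LinearMap.mulLeft_apply]
        exact h6.symm
    exact (Finset.le_sup (f := U) hCF) h7
  rw [← finrank_box hx a]
  calc Module.finrank k (Submodule.span k (mon x '' {v : Fin r → ℤ | ∀ i, |v i| ≤ (a : ℤ)}))
      ≤ Module.finrank k (F.sup U : Submodule k W) := Submodule.finrank_mono hle
    _ ≤ F.card * bb k V x (2 * a) := h2
    _ = nu V a * bb k V x (2 * a) := by
        unfold nu
        rw [Set.ncard_eq_toFinset_card _ hfin]

end H61.Geo
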