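import Pool.Agent.H61.Geo.Lower
import Pool.Agent.H61.Geo.Upper
import Pool.Agent.H61.Geo.NuGrowth

/-!
# Small doubling (section 6)
-/

open MvPolynomial

namespace H61.Geo

section
variable {k W : Type*} [Field k] [Field W] [Algebra k W] {r : ℕ} {x : Fin r → W}

/-- GEO-14a.
Proof: with `h = l / 2 ≥ 1` (so `l ≤ 4 h` and `h * (2 L) ≤ l L`), `d = finrank (ℚ^r/V)`:
`l^d nu(2L) ≤ 4^d h^d nu(2L) ≤ 4^d (3r)^d nu(h * (2L)) ≤ (12 r)^d nu(l L)` (`nu_growth`, `nu_mono`).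
`l^g nu(2L) b(lL) ≤ l^d nu(2L) b(lL) ≤ (12r)^d nu(lL) b(lL) ≤ (12r)^r Hd(4 l L)` (`lower`; `d ≤ r`)
`≤ (12r)^r C5 l^g Hd(4L) ≤ (12r)^r C5 l^g nu(2L) b(4L)` (`hslope`, `upper` with `a = 2L`).
Cancel `l^g nu(2L) > 0` (`nu_pos`). -/
theorem doubling (hr : 1 ≤ r) (hx : ∀ i, x i ≠ 0) {V : Submodule ℚ (Fin r → ℚ)} {A L l g C5 : ℕ}
    (hH : HomM k (LamV V) x A) (hL : 1 ≤ L) (hl : 2 ≤ l) (hA : 4 * (l * L) ≤ A)
    (hg : g ≤ Module.finrank ℚ ((Fin r → ℚ) ⧸ V))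
    (hslope : Hd k x (l * (4 * L)) ≤ C5 * l ^ g * Hd k x (4 * L)) :
    bb k V x (l * L) ≤ (12 * r) ^ r * C5 * bb k V x (4 * L) := by
  set d := Module.finrank ℚ ((Fin r → ℚ) ⧸ V) with hd
  have hdr : d ≤ r := by
    have := Submodule.finrank_quotient_le V
    rwa [Module.finrank_fin_fun, ← hd] at this
  -- growth of the number of classes
  have h1 : l ^ d * nu V (2 * L) ≤ (12 * r) ^ d * nu V (l * L) := by
    have hh : 1 ≤ l / 2 := by omega
    have h2 : l ≤ 4 * (l / 2) := by omega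
    have h3 : l / 2 * (2 * L) ≤ l * L := by
      rw [← mul_assoc]
      exact Nat.mul_le_mul_right _ (Nat.div_mul_le_self l 2)
    calc l ^ d * nu V (2 * L) ≤ (4 * (l / 2)) ^ d * nu V (2 * L) :=
          Nat.mul_le_mul_right _ (Nat.pow_le_pow_left h2 d)
      _ = 4 ^ d * ((l / 2) ^ d * nu V (2 * L)) := by rw [mul_pow, mul_assoc]
      _ ≤ 4 ^ d * ((3 * r) ^ d * nu V (l / 2 * (2 * L))) :=
          Nat.mul_le_mul_left _ (nu_growth V hh (by omega))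
      _ ≤ 4 ^ d * ((3 * r) ^ d * nu V (l * L)) :=
          Nat.mul_le_mul_left _ (Nat.mul_le_mul_left _ (nu_mono V h3))
      _ = (12 * r) ^ d * nu V (l * L) := by
          rw [← mul_assoc, ← mul_pow]
          congr 2
          ring
  have h4 : nu V (l * L) * bb k V x (l * L) ≤ Hd k x (l * (4 * L)) := by
    have := lower hx hH hA
    rwa [show 4 * (l * L) = l * (4 * L) by ring] at this
  have h5 : Hd k x (4 * L) ≤ nu V (2 * L) * bb k V x (4 * L) := by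
    have := upper (k := k) hx V (2 * L)
    rwa [show 2 * (2 * L) = 4 * L by ring] at this
  have h6 : (12 * r) ^ d ≤ (12 * r) ^ r := Nat.pow_le_pow_right (by omega) hdr
  have hpos : 0 < l ^ g * nu V (2 * L) := Nat.mul_pos (by positivity) (nu_pos V _)
  refine Nat.le_of_mul_le_mul_left ?_ hpos
  calc l ^ g * nu V (2 * L) * bb k V x (l * L)
      ≤ l ^ d * nu V (2 * L) * bb k V x (l * L) :=
        Nat.mul_le_mul_right _ (Nat.mul_le_mul_right _ (Nat.pow_le_pow_right (by omega) hg))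
    _ ≤ (12 * r) ^ d * nu V (l * L) * bb k V x (l * L) := Nat.mul_le_mul_right _ h1
    _ = (12 * r) ^ d * (nu V (l * L) * bb k V x (l * L)) := by ring
    _ ≤ (12 * r) ^ r * Hd k x (l * (4 * L)) := Nat.mul_le_mul h6 h4
    _ ≤ (12 * r) ^ r * (C5 * l ^ g * Hd k x (4 * L)) := Nat.mul_le_mul_left _ hslope
    _ ≤ (12 * r) ^ r * (C5 * l ^ g * (nu V (2 * L) * bb k V x (4 * L))) :=
        Nat.mul_le_mul_left _ (Nat.mul_le_mul_left _ h5)
    _ = l ^ g * nu V (2 * L) * ((12 * r) ^ r * C5 * bb k V x (4 * L)) := by ring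

/-- GEO-14b. Pigeonhole over dyadic steps: if `3 b(a) ≤ 2 b(2a)` at all `k` steps then
`3^k b(a0) ≤ 2^k b(2^k a0) ≤ 2^k C b(a0) < 3^k b(a0)`. -/
theorem dyadic (b : ℕ → ℕ) (a0 k C : ℕ) (hpos : 0 < b a0) (hC : C * 2 ^ k < 3 ^ k)
    (h : b (2 ^ k * a0) ≤ C * b a0) :
    ∃ i < k, 2 * b (2 * (2 ^ i * a0)) < 3 * b (2 ^ i * a0) := by
  by_contra hcon
  push Not at hcon
  have key : ∀ i ≤ k, 3 ^ i * b a0 ≤ 2 ^ i * b (2 ^ i * a0) := by
    intro i
    induction i with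
    | zero => intro _; simp
    | succ i ih =>
      intro hi
      have h1 := ih (by omega)
      have h2 := hcon i (by omega)
      have h3 : 2 ^ (i + 1) * a0 = 2 * (2 ^ i * a0) := by ring
      rw [h3]
      calc 3 ^ (i + 1) * b a0 = 3 * (3 ^ i * b a0) := by ring
        _ ≤ 3 * (2 ^ i * b (2 ^ i * a0)) := Nat.mul_le_mul_left _ h1
        _ = 2 ^ i * (3 * b (2 ^ i * a0)) := by ring
        _ ≤ 2 ^ i * (2 * b (2 * (2 ^ i * a0))) := Nat.mul_le_mul_left _ h2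
        _ = 2 ^ (i + 1) * b (2 * (2 ^ i * a0)) := by ring
  have h4 := key k le_rfl
  have h5 : 2 ^ k * b (2 ^ k * a0) ≤ (C * 2 ^ k) * b a0 := by
    calc 2 ^ k * b (2 ^ k * a0) ≤ 2 ^ k * (C * b a0) := Nat.mul_le_mul_left _ h
      _ = (C * 2 ^ k) * b a0 := by ring
  have h6 : (C * 2 ^ k) * b a0 < 3 ^ k * b a0 := Nat.mul_lt_mul_of_pos_right hC hpos
  omega

end

end H61.Geo
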