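import Pool.Agent.H61.Geo.Defs

/-! # GEO-5: doubling the degree -/

open MvPolynomial

namespace H61.Geo

/-- the dimension of a finite sum of subspaces -/
private theorem dbl_finrank_sup {K V ι : Type*} [Field K] [AddCommGroup V] [Module K V]
    (s : Finset ι) (S : ι → Submodule K V) (hS : ∀ i, FiniteDimensional K (S i)) :
    FiniteDimensional K (s.sup S : Submodule K V) ∧
      Module.finrank K (s.sup S : Submodule K V) ≤ ∑ i ∈ s, Module.finrank K (S i) := by
  classical
  induction s using Finset.induction_on with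
  | empty =>
    rw [Finset.sup_empty]
    exact ⟨inferInstance, by simp⟩
  | insert i s hi ih =>
    obtain ⟨ih1, ih2⟩ := ih
    have := hS i
    rw [Finset.sup_insert, Finset.sum_insert hi]
    refine ⟨inferInstance, ?_⟩
    exact (Submodule.finrank_add_le_finrank_add_finrank _ _).trans (by omega)

/-- GEO-5. `[0,2L+1]^r` is the union of the `2^r` translates `(L+1) e + [0,L]^r`, `e ∈ {0,1}^r`.
Proof: `Sp k x (2L+1) ≤ ⨆_{e : Fin r → Fin 2} (Sp k x L).map (mul by ∏ x_i^((L+1) e_i))`; use
`Sp_eq_span` and `finrank (sup) ≤ sum`, `Submodule.finrank_map_le`. -/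
theorem Hd_double {k W : Type*} [Field k] [Field W] [Algebra k W] {r : ℕ} (x : Fin r → W)
    (L : ℕ) : Hd k x (2 * L + 1) ≤ 2 ^ r * Hd k x L := by
  classical
  set S : (Fin r → Fin 2) → Submodule k W :=
    fun e => (Sp k x L).map (LinearMap.mulLeft k (∏ i, x i ^ ((L + 1) * (e i : ℕ)))) with hS
  have hfd : ∀ e, FiniteDimensional k (S e) := fun e => inferInstance
  obtain ⟨h1, h2⟩ := dbl_finrank_sup Finset.univ S hfd
  have h3 : Sp k x (2 * L + 1) ≤ Finset.univ.sup S := by
    rw [Sp_eq_span x (2 * L + 1), Submodule.span_le]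
    rintro _ ⟨v, hv, rfl⟩
    let e : Fin r → Fin 2 := fun i => if v i ≤ L then 0 else 1
    have h5 : S e ≤ Finset.univ.sup S := Finset.le_sup (Finset.mem_univ e)
    refine h5 ?_
    refine Submodule.mem_map.2 ⟨∏ i, x i ^ (v i - (L + 1) * (e i : ℕ)), ?_, ?_⟩
    · rw [Sp_eq_span x L]
      refine Submodule.subset_span ⟨fun i => v i - (L + 1) * (e i : ℕ), fun i => ?_, rfl⟩
      have h6 := hv i
      simp only [e]
      split_ifs with h
      · simpa using h
      · simp only [Fin.val_one, mul_one]
        omega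
    · simp only [LinearMap.mulLeft_apply]
      rw [← Finset.prod_mul_distrib]
      refine Finset.prod_congr rfl fun i _ => ?_
      rw [← pow_add]
      congr 1
      simp only [e]
      split_ifs with h
      · simp
      · simp only [Fin.val_one, mul_one]
        omega
  calc Hd k x (2 * L + 1)
      ≤ Module.finrank k (Finset.univ.sup S : Submodule k W) := Submodule.finrank_mono h3
    _ ≤ ∑ e, Module.finrank k (S e) := h2
    _ ≤ ∑ _e : Fin r → Fin 2, Hd k x L :=
        Finset.sum_le_sum fun e _ => Submodule.finrank_map_le _ _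
    _ = 2 ^ r * Hd k x L := by simp

end H61.Geo
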