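import Pool.Agent.H61.Geo.HomDefs

/-! # GEO-10a: determinants of vectors orthogonal to a subgroup of (ℤ/l)^r -/

open MvPolynomial

namespace H61.Geo

/-- GEO-10a. Determinants of short integer vectors in `ML G` are divisible by `l`.
Let `w : Fin r → Fin r → ℤ` be a square matrix at least `r - g + 1` of whose rows (indices in `T`)
lie in `ML G`, `l^g ≤ |G|`. Then `l ∣ det w`.
Proof: over the field `ZMod l` the rows in `T` lie in the orthogonal complement `G^⊥` of the
subspace `G`; if `l ∤ det w` the reduced rows would be linearly independent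
(`Matrix.linearIndependent_rows_of_det_ne_zero` or similar), so `dim G^⊥ ≥ |T| ≥ r - g + 1`. But
all `t ∈ G` satisfy `(w mod l).mulVec t` is zero at the coordinates of `T`, and `w mod l` is
invertible, so `t ↦ ((w mod l).mulVec t)` restricted to the coordinates outside `T` is injective on
`G`, hence `|G| ≤ l^(r - |T|) ≤ l^(g-1) < l^g` (if `g = 0` there is nothing: `|T| ≤ r`
contradicts `|T| + g ≥ r + 1`). -/
theorem dvd_det {r l g : ℕ} (hl : l.Prime) (G : AddSubgroup (Fin r → ZMod l))
    (hG : l ^ g ≤ Nat.card G) (w : Matrix (Fin r) (Fin r) ℤ) (T : Finset (Fin r))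
    (hT : r + 1 ≤ T.card + g) (hw : ∀ i ∈ T, w i ∈ ML G) : (l : ℤ) ∣ w.det := by
  classical
  have : Fact l.Prime := ⟨hl⟩
  by_contra hdvd
  set A : Matrix (Fin r) (Fin r) (ZMod l) := (Int.castRingHom (ZMod l)).mapMatrix w with hA
  have hdet : A.det ≠ 0 := by
    rw [hA, ← RingHom.map_det]
    intro h
    apply hdvd
    exact (ZMod.intCast_zmod_eq_zero_iff_dvd _ _).1 h
  have hinj : Function.Injective A.mulVec :=
    Matrix.mulVec_injective_iff_isUnit.2 ((Matrix.isUnit_iff_isUnit_det A).2 hdet.isUnit)
  have hzero : ∀ t ∈ G, ∀ i ∈ T, A.mulVec t i = 0 := by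
    intro t ht i hi
    have h1 := (mem_ML.1 (hw i hi)) t ht
    rw [← h1]
    unfold Matrix.mulVec dotProduct
    refine Finset.sum_congr rfl fun j _ => ?_
    rw [mul_comm]
    rfl
  let φ : G → ({i : Fin r // i ∉ T} → ZMod l) := fun t i => A.mulVec (t : Fin r → ZMod l) i
  have hφ : Function.Injective φ := by
    intro t t' h
    apply Subtype.ext
    apply hinj
    funext i
    by_cases hi : i ∈ T
    · rw [hzero t t.2 i hi, hzero t' t'.2 i hi]
    · exact congrFun h ⟨i, hi⟩
  have hcard := Nat.card_le_card_of_injective φ hφ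
  have h1 : Nat.card ({i : Fin r // i ∉ T} → ZMod l) = l ^ (r - T.card) := by
    rw [Nat.card_eq_fintype_card, Fintype.card_fun, ZMod.card]
    congr 1
    rw [Fintype.card_subtype_compl, Fintype.card_fin]
    simp
  rw [h1] at hcard
  have h2 := hG.trans hcard
  have h3 : g ≤ r - T.card := (Nat.pow_le_pow_iff_right hl.one_lt).1 h2
  have h4 : T.card ≤ r := by
    simpa using Finset.card_le_univ T
  omega

end H61.Geo
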