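import Pool.Agent.H61.Geo.Twist

/-! # GEO-2: upper bound for the rank of the evaluations at all twisted points -/

open MvPolynomial

namespace H61.Geo

variable {K W : Type*} [Field K] [Field W] [Algebra K W] {r l : ℕ}

/-- the dimension of a finite sum of subspaces -/
private theorem ev_finrank_sup {V ι : Type*} [AddCommGroup V] [Module K V] (s : Finset ι)
    (S : ι → Submodule K V) (hS : ∀ i, FiniteDimensional K (S i)) :
    FiniteDimensional K (s.sup S : Submodule K V) ∧
      Module.finrank K (s.sup S : Submodule K V) ≤ ∑ i ∈ s, Module.finrank K (S i) := by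
  classical
  induction s using Finset.induction_on with
  | empty =>
    rw [Finset.sup_empty]
    exact ⟨inferInstance, by simp⟩
  | insert i s hi ih =>
    obtain ⟨ih1, ih2⟩ := ih
    have := hS i
    rw [Finset.sup_insert, Finset.sum_insert hi]
    refine ⟨inferInstance, ?_⟩
    exact (Submodule.finrank_add_le_finrank_add_finrank _ _).trans (by omega)

/-- the linear map `w ↦ (χ_b(t) x^b w)_t` -/
private noncomputable def evg (ζ : K) (x : Fin r → W) (b : Fin r → Fin l) :
    W →ₗ[K] ((Fin r → ZMod l) → W) :=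
  LinearMap.pi fun t => LinearMap.mulLeft K
    (∏ i, (algebraMap K W (ζ ^ ((t i).val * (b i : ℕ))) * x i ^ (b i : ℕ)))

/-- GEO-2. Upper bound for the rank of all evaluations: it is at most `l^r` times the dimension of
the span of the monomials of degree at most `L` of the point `(x_i^l)`.
Proof: the range is spanned by the vectors `(∏ (ζ^(t_i))^(v_i) x_i^(v_i))_t`, `v ∈ [0,lL]^r`. Write
`v = b + l w`, `b_i = v_i % l`, `w_i = v_i / l ≤ L`. As `ζ^l = 1` the vector is
`χ_b(t) x^b (x^l)^w` with `χ_b(t) = ∏ ζ^(t_i.val b_i)`, i.e. it lies in the image of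
`Sp K (pw x l) L` under the linear map `g_b : W → (T → W)`, `w ↦ (t ↦ χ_b(t) x^b w)`.
So the range is contained in `⨆_b (Sp K (pw x l) L).map g_b`, `b : Fin r → Fin l`, and
`finrank (⨆_b S_b) ≤ ∑_b finrank S_b ≤ l^r * Hd K (pw x l) L` (`Submodule.finrank_map_le`,
finrank of a finite sup at most the sum: induction with `Submodule.finrank_add_le_finrank_add_finrank`). -/
theorem ev_upper [NeZero l] {ζ : K} (hζ : ζ ^ l = 1) (x : Fin r → W) (L : ℕ) :
    Module.finrank K (LinearMap.range (LinearMap.pi (evT (l := l) ζ x (l * L)))) ≤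
      l ^ r * Hd K (pw x l) L := by
  classical
  have hl : 0 < l := Nat.pos_of_ne_zero (NeZero.ne l)
  set S : (Fin r → Fin l) → Submodule K ((Fin r → ZMod l) → W) :=
    fun b => (Sp K (pw x l) L).map (evg ζ x b) with hS
  have hfd : ∀ b, FiniteDimensional K (S b) := fun b => inferInstance
  obtain ⟨h1, h2⟩ := ev_finrank_sup Finset.univ S hfd
  have h3 : LinearMap.range (LinearMap.pi (evT (l := l) ζ x (l * L))) ≤ Finset.univ.sup S := by
    rintro _ ⟨⟨P, hP⟩, rfl⟩
    rw [mem_rd] at hP
    have h4 : LinearMap.pi (evT (l := l) ζ x (l * L)) ⟨P, mem_rd.2 hP⟩ =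
        ∑ s ∈ P.support, (fun t => algebraMap K W (coeff s P) * ∏ i, tw ζ t x i ^ s i) := by
      funext t
      rw [Finset.sum_apply]
      change aeval (tw ζ t x) P = _
      rw [aeval_def, eval₂_eq']
    rw [h4]
    refine Submodule.sum_mem _ fun s hs => ?_
    let b : Fin r → Fin l := fun i => ⟨s i % l, Nat.mod_lt _ hl⟩
    have h5 : S b ≤ Finset.univ.sup S := Finset.le_sup (Finset.mem_univ b)
    refine h5 ?_
    refine Submodule.mem_map.2 ⟨aeval (pw x l)
      (monomial (Finsupp.equivFunOnFinite.symm fun i => s i / l) (coeff s P)), ?_, ?_⟩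
    · refine mem_Sp.2 ⟨_, rd_monomial _ fun i => ?_, rfl⟩
      simp only [Finsupp.equivFunOnFinite_symm_apply_apply]
      exact Nat.div_le_of_le_mul (hP s hs i)
    · funext t
      simp only [evg, LinearMap.pi_apply, LinearMap.mulLeft_apply]
      rw [aeval_monomial, Finsupp.prod_fintype _ _ (by simp)]
      have h6 : ∀ i, tw ζ t x i ^ s i =
          (algebraMap K W (ζ ^ ((t i).val * (b i : ℕ))) * x i ^ (b i : ℕ)) *
            (pw x l i) ^ (s i / l) := by
        intro i
        have h7 : (b i : ℕ) + l * (s i / l) = s i := Nat.mod_add_div _ _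
        have h8 : ζ ^ ((t i).val * s i) = ζ ^ ((t i).val * (b i : ℕ)) := by
          conv_lhs => rw [← h7, mul_add, pow_add, mul_left_comm (t i).val l, pow_mul ζ l, hζ, one_pow,
            mul_one]
        have h9 : x i ^ s i = x i ^ (b i : ℕ) * (pw x l i) ^ (s i / l) := by
          conv_lhs => rw [← h7, pow_add, pow_mul]
          rfl
        rw [tw, mul_pow, ← map_pow, ← pow_mul, h8, h9]
        ring
      simp only [h6, Finset.prod_mul_distrib, Finsupp.equivFunOnFinite_symm_apply_apply]
      ring
  calc Module.finrank K (LinearMap.range (LinearMap.pi (evT (l := l) ζ x (l * L))))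
      ≤ Module.finrank K (Finset.univ.sup S : Submodule K ((Fin r → ZMod l) → W)) :=
        Submodule.finrank_mono h3
    _ ≤ ∑ b, Module.finrank K (S b) := h2
    _ ≤ ∑ _b : Fin r → Fin l, Hd K (pw x l) L :=
        Finset.sum_le_sum fun b _ => Submodule.finrank_map_le _ _
    _ = l ^ r * Hd K (pw x l) L := by simp

end H61.Geo
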