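import Pool.Agent.H61.Geo.HomDefs

/-! # GEO-19: a short nonzero vector of the lattice -/

open MvPolynomial

namespace H61.Geo

variable {k W : Type*} [Field k] [Field W] [Algebra k W] {r : ℕ} {x : Fin r → W} {A : ℕ}

/-- GEO-19. A short nonzero vector of the lattice. Proof: `dim (rd A0) = (A0+1)^r` (basis
`basisRestrictSupport`; exponents = functions `Fin r → {0..A0}`) is larger than `dim F`, and
`P ↦ aeval x P` maps `rd A0` into `F`, so there is `0 ≠ P ∈ rd A0` with `aeval x P = 0`. Let
`s0 ∈ P.support` and `Q = part P {v | v - s0 ∈ LamV V}` (with `s0` cast to `ℤ`): `aeval x Q = 0`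
by homogeneity (`rd_mono`), `coeff s0 Q = coeff s0 P ≠ 0`. `Q` is not a single monomial because
`x^(s0) ≠ 0`: so there is `s1 ≠ s0` in `Q.support`; `lam = s1 - s0`. -/
theorem exists_lam (hx0 : ∀ i, x i ≠ 0) (F : IntermediateField k W) [FiniteDimensional k F]
    (hxF : ∀ i, x i ∈ F) {V : Submodule ℚ (Fin r → ℚ)} (h : HomM k (LamV V) x A) {A0 : ℕ}
    (hA0 : A0 ≤ A) (hF : Module.finrank k F < (A0 + 1) ^ r) :
    ∃ lam : Fin r → ℤ, lam ≠ 0 ∧ lam ∈ LamV V ∧ ∀ i, |lam i| ≤ (A0 : ℤ) := by
  classical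
  -- a linear dependence of the monomials
  let vF : (Fin r → Fin (A0 + 1)) → F := fun e => ∏ i, (⟨x i, hxF i⟩ : F) ^ (e i : ℕ)
  have hdep : ¬ LinearIndependent k vF := by
    intro hli
    have h1 := hli.fintype_card_le_finrank
    rw [Fintype.card_fun, Fintype.card_fin, Fintype.card_fin] at h1
    omega
  obtain ⟨g, hg, e0, he0⟩ := Fintype.not_linearIndependent_iff.mp hdep
  let ex : (Fin r → Fin (A0 + 1)) → (Fin r →₀ ℕ) := fun e =>
    Finsupp.equivFunOnFinite.symm (fun i => (e i : ℕ))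
  have hex : ∀ e i, ex e i = (e i : ℕ) := fun _ _ => rfl
  have hexinj : Function.Injective ex := by
    intro e e' hee
    funext i
    apply Fin.ext
    rw [← hex e i, ← hex e' i, hee]
  let P : MvPolynomial (Fin r) k := ∑ e, monomial (ex e) (g e)
  have hPrd : P ∈ restrictDegree (Fin r) k A0 := by
    refine Submodule.sum_mem _ fun e _ => rd_monomial _ fun i => ?_
    rw [hex]
    have := (e i).isLt
    omega
  have hPx : aeval x P = 0 := by
    have h1 : aeval x P = ∑ e, g e • ∏ i, x i ^ (e i : ℕ) := by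
      change aeval x (∑ e, monomial (ex e) (g e)) = _
      rw [map_sum]
      refine Finset.sum_congr rfl fun e _ => ?_
      rw [aeval_monomial, Finsupp.prod_fintype _ _ (by simp), Algebra.smul_def]
      rfl
    have h2 : ((∑ e, g e • vF e : F) : W) = ∑ e, g e • ∏ i, x i ^ (e i : ℕ) := by
      rw [← IntermediateField.coe_val, map_sum]
      refine Finset.sum_congr rfl fun e _ => ?_
      rw [map_smul, map_prod]
      rfl
    rw [h1, ← h2, hg]
    rfl
  have hcoeff : coeff (ex e0) P = g e0 := by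
    change coeff (ex e0) (∑ e, monomial (ex e) (g e)) = _
    rw [coeff_sum, Finset.sum_eq_single e0]
    · rw [coeff_monomial, if_pos rfl]
    · intro e _ hne
      rw [coeff_monomial, if_neg (fun h => hne (hexinj h))]
    · intro hne; exact absurd (Finset.mem_univ _) hne
  -- the homogeneous part
  let v0 : Fin r → ℤ := fun i => (ex e0 i : ℤ)
  let Q := part P {v | v - v0 ∈ LamV V}
  have hQx : aeval x Q = 0 := h P (rd_mono hA0 hPrd) hPx v0
  have hQ0 : coeff (ex e0) Q ≠ 0 := by
    change coeff (ex e0) (part P _) ≠ 0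
    rw [coeff_part, if_pos, hcoeff]
    · exact he0
    · change v0 - v0 ∈ LamV V
      rw [sub_self]
      exact (LamV V).zero_mem
  obtain ⟨s1, hs1, hne⟩ : ∃ s1 ∈ Q.support, s1 ≠ ex e0 := by
    by_contra hcon
    push Not at hcon
    have hQm : Q = monomial (ex e0) (coeff (ex e0) Q) := by
      ext s
      rw [coeff_monomial]
      split_ifs with hs
      · rw [hs]
      · by_contra h0
        exact hs (hcon s (mem_support_iff.mpr h0)).symm
    rw [hQm, aeval_monomial, Finsupp.prod_fintype _ _ (by simp)] at hQx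
    rcases mul_eq_zero.mp hQx with h1 | h1
    · exact hQ0 ((map_eq_zero _).mp h1)
    · rw [Finset.prod_eq_zero_iff] at h1
      obtain ⟨i, -, hi⟩ := h1
      exact pow_ne_zero _ (hx0 i) hi
  have hs1c : coeff s1 (part P {v | v - v0 ∈ LamV V}) ≠ 0 := mem_support_iff.mp hs1
  rw [coeff_part] at hs1c
  have hmem : (fun i => (s1 i : ℤ)) ∈ {v | v - v0 ∈ LamV V} := by
    by_contra hc
    rw [if_neg hc] at hs1c
    exact hs1c rfl
  rw [if_pos hmem] at hs1c
  have hs1A : ∀ i, s1 i ≤ A0 := fun i => mem_rd.mp hPrd s1 (mem_support_iff.mpr hs1c) i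
  refine ⟨(fun i => (s1 i : ℤ)) - v0, ?_, hmem, ?_⟩
  · intro h0
    apply hne
    ext i
    have := congrFun (sub_eq_zero.mp h0) i
    change ((s1 i : ℕ) : ℤ) = ((ex e0 i : ℕ) : ℤ) at this
    exact_mod_cast this
  · intro i
    change |((s1 i : ℕ) : ℤ) - ((ex e0 i : ℕ) : ℤ)| ≤ _
    have h1 := hs1A i
    have h2 : ex e0 i ≤ A0 := by
      rw [hex]
      have := (e0 i).isLt
      omega
    rw [abs_le]
    constructor <;> omega

end H61.Geo
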