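import Pool.Agent.H61.Geo.DvdDet

/-! # GEO-10b: the lattice of the short vectors (5.3) -/

open MvPolynomial

namespace H61.Geo

/-- GEO-10b. (5.3).
Proof: let `V` be the `ℚ`-span of the vectors `v ∈ ⋂_{l ∈ S} M l` with `|v|_∞ ≤ A`; the second claim
is clear (`Submodule.subset_span`). Suppose `finrank (ℚ^r / V) < g`, i.e. `finrank V ≥ r - g + 1`
(`Submodule.finrank_quotient_add_finrank`). Choose among the generators a basis of `V`
(`exists_linearIndependent`..), hence `r - g + 1` linearly independent short vectors in all `M l`,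
and extend them by unit vectors to a basis of `ℚ^r` (`exists_linearIndependent_extension` inside the
set of short vectors union the standard basis, or steinitz), giving a matrix `w` over `ℤ` with
`det w ≠ 0`, all entries of absolute value at most `A` (`A ≥ 1`) and the rows in a set `T` of
cardinality `≥ r - g + 1` in all `M l`. By `dvd_det` every `l ∈ S` divides `det w`, so
`∏_{l ∈ S} l ∣ det w` (distinct primes, `Finset.prod_primes_dvd`), but
`|det w| ≤ r! A^r < ∏ l` (`Matrix.det_le`), so `det w = 0`: contradiction. -/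
theorem exists_V {r g A : ℕ} (hA : 1 ≤ A) (S : Finset ℕ) (hS : ∀ l ∈ S, l.Prime)
    (M : ℕ → AddSubgroup (Fin r → ℤ))
    (hM : ∀ l ∈ S, ∃ G : AddSubgroup (Fin r → ZMod l), l ^ g ≤ Nat.card G ∧ M l = ML G)
    (hprod : r.factorial * A ^ r < ∏ l ∈ S, l) :
    ∃ V : Submodule ℚ (Fin r → ℚ), g ≤ Module.finrank ℚ ((Fin r → ℚ) ⧸ V) ∧
      ∀ v : Fin r → ℤ, v ∈ (⨅ l ∈ S, M l) → (∀ i, |v i| ≤ (A : ℤ)) → v ∈ LamV V := by
  classical
  -- the short vectors
  set Sh : Set (Fin r → ℚ) := {x | ∃ v : Fin r → ℤ, v ∈ (⨅ l ∈ S, M l) ∧ (∀ i, |v i| ≤ (A : ℤ)) ∧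
    (fun i => (v i : ℚ)) = x} with hSh
  refine ⟨Submodule.span ℚ Sh, ?_, fun v hv hv' =>
    mem_LamV.2 (Submodule.subset_span ⟨v, hv, hv', rfl⟩)⟩
  by_contra hlt
  push Not at hlt
  have hfin := Submodule.finrank_quotient_add_finrank (Submodule.span ℚ Sh)
  rw [Module.finrank_fin_fun] at hfin
  obtain ⟨b, hb, hbs, hbl⟩ := exists_linearIndependent ℚ Sh
  have hbl' : LinearIndepOn ℚ id b := hbl
  obtain ⟨B, hB1, hB2, hB3, hB4⟩ := exists_linearIndepOn_id_extension hbl'
    (Set.subset_union_left (s := b) (t := Set.range fun i : Fin r => (Pi.single i (1 : ℚ) :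
      Fin r → ℚ)))
  have hBtop : ⊤ ≤ Submodule.span ℚ (Set.range ((↑) : B → (Fin r → ℚ))) := by
    rw [Subtype.range_coe_subtype, Set.setOf_mem_eq]
    intro x _
    have : x = ∑ i, x i • (Pi.single i (1 : ℚ) : Fin r → ℚ) := by
      funext j
      simp [Finset.sum_apply, Pi.single_apply]
    rw [this]
    exact Submodule.sum_mem _ fun i _ => Submodule.smul_mem _ _ (hB3 (Or.inr ⟨i, rfl⟩))
  let bas : Module.Basis B ℚ (Fin r → ℚ) := Module.Basis.mk hB4 hBtop
  haveI : Finite B := Module.Finite.finite_basis bas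
  haveI := Fintype.ofFinite B
  have hcard : Fintype.card B = r := by
    rw [← Module.finrank_eq_card_basis bas, Module.finrank_fin_fun]
  let e : Fin r ≃ B := (Fintype.equivFinOfCardEq hcard).symm
  have hvec : ∀ x : B, ∃ v : Fin r → ℤ, (∀ i, |v i| ≤ (A : ℤ)) ∧ (fun i => (v i : ℚ)) = (x : Fin r → ℚ)
      ∧ ((x : Fin r → ℚ) ∈ b → v ∈ (⨅ l ∈ S, M l)) := by
    intro x
    by_cases hx : (x : Fin r → ℚ) ∈ b
    · obtain ⟨v, h1, h2, h3⟩ := hb hx
      exact ⟨v, h2, h3, fun _ => h1⟩
    · rcases hB1 x.2 with h | ⟨i, h⟩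
      · exact absurd h hx
      · refine ⟨Pi.single i 1, fun j => ?_, ?_, fun h => absurd h hx⟩
        · by_cases hj : j = i
          · subst hj; simp; exact_mod_cast hA
          · simp [Pi.single_apply, hj]
        · rw [← h]
          funext j
          by_cases hj : j = i
          · subst hj; simp
          · simp [Pi.single_apply, hj]
  choose vec hv1 hv2 hv3 using hvec
  let w : Matrix (Fin r) (Fin r) ℤ := fun i => vec (e i)
  let T : Finset (Fin r) := Finset.univ.filter fun i => ((e i : B) : Fin r → ℚ) ∈ b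
  have hTcard : Module.finrank ℚ (Submodule.span ℚ Sh) = T.card := by
    rw [← hbs]
    haveI : Finite b := Set.Finite.subset (Set.toFinite B) hB2
    haveI := Fintype.ofFinite b
    rw [finrank_span_set_eq_card hbl', Set.toFinset_card]
    rw [← Fintype.card_coe]
    refine Fintype.card_congr (Equiv.ofBijective
      (fun x => ⟨e.symm ⟨x.1, hB2 x.2⟩, by simp [T]⟩) ⟨?_, ?_⟩)
    · intro x y hxy
      simp only [Subtype.mk.injEq, EmbeddingLike.apply_eq_iff_eq] at hxy
      exact Subtype.ext hxy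
    · rintro ⟨i, hi⟩
      refine ⟨⟨(e i : B), (Finset.mem_filter.1 hi).2⟩, ?_⟩
      simp
  have hdet : w.det ≠ 0 := by
    have hwQ : LinearIndependent ℚ (w.map (Int.cast : ℤ → ℚ)).row := by
      have : (w.map (Int.cast : ℤ → ℚ)).row = (fun x : B => (x : Fin r → ℚ)) ∘ e := by
        funext i
        exact hv2 (e i)
      rw [this]
      exact LinearIndependent.comp hB4 e e.injective
    rw [Matrix.linearIndependent_rows_iff_isUnit, Matrix.isUnit_iff_isUnit_det] at hwQ
    have h2 : (w.map (Int.cast : ℤ → ℚ)).det = ((w.det : ℤ) : ℚ) := by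
      have := (Int.castRingHom ℚ).map_det w
      simpa using this.symm
    rw [h2] at hwQ
    intro h0
    rw [h0] at hwQ
    simp at hwQ
  have hdvd : ∀ l ∈ S, l ∣ w.det.natAbs := by
    intro l hl
    obtain ⟨G, hG, hMG⟩ := hM l hl
    rw [← Int.natCast_dvd]
    refine dvd_det (hS l hl) G hG w T ?_ ?_
    · rw [← hTcard]; omega
    · intro i hi
      have h1 := hv3 (e i) (Finset.mem_filter.1 hi).2
      rw [← hMG]
      exact (AddSubgroup.mem_iInf.1 (AddSubgroup.mem_iInf.1 h1 l)) hl
  have hprodvd : ∏ l ∈ S, l ∣ w.det.natAbs :=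
    Finset.prod_primes_dvd _ (fun l hl => (hS l hl).prime) hdvd
  have hle : w.det.natAbs ≤ r.factorial * A ^ r := by
    have h := Matrix.det_le (A := w) (abv := AbsoluteValue.abs) (x := (A : ℤ))
      (fun i j => hv1 (e i) j)
    rw [Fintype.card_fin, AbsoluteValue.abs_apply] at h
    zify
    simpa [nsmul_eq_mul] using h
  have := Nat.le_of_dvd (Int.natAbs_pos.2 hdet) hprodvd
  omega

end H61.Geo
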