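import Mathlib

/-!
# A subspace of small doubling defines a field (section 7)
-/

open Polynomial

namespace H61.Geo

/-- the space of the elements `x` of `A` with `w x ∈ A` -/
def fieldX {k W : Type*} [Field k] [Field W] [Algebra k W] (A : Submodule k W) (w : W) :
    Submodule k W := A ⊓ A.comap (LinearMap.mulLeft k w)

theorem mem_fieldX {k W : Type*} [Field k] [Field W] [Algebra k W] {A : Submodule k W} {w x : W} :
    x ∈ fieldX A w ↔ x ∈ A ∧ w * x ∈ A := by
  unfold fieldX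
  simp

theorem finrank_map_mulLeft {k W : Type*} [Field k] [Field W] [Algebra k W] (A : Submodule k W)
    {w : W} (hw : w ≠ 0) :
    Module.finrank k (A.map (LinearMap.mulLeft k w)) = Module.finrank k A := by
  have hinj : Function.Injective (LinearMap.mulLeft k w) := by
    intro x y hxy
    simpa [hw] using hxy
  exact (Submodule.equivMapOfInjective _ hinj A).finrank_eq.symm

theorem fieldX_dim {k W : Type*} [Field k] [Field W] [Algebra k W]
    (A B : Submodule k W) [FiniteDimensional k A] [FiniteDimensional k B] (h1 : (1 : W) ∈ A)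
    (hmul : ∀ x ∈ A, ∀ y ∈ A, x * y ∈ B)
    (hd : 2 * Module.finrank k B < 3 * Module.finrank k A) {w u1 u2 : W} (hu1 : u1 ∈ A)
    (hu2 : u2 ∈ A) (hu20 : u2 ≠ 0) (hw : w * u2 = u1) :
    Module.finrank k A < 2 * Module.finrank k (fieldX A w) := by
  have hpos : 0 < Module.finrank k A := by
    rw [Module.finrank_pos_iff]
    refine ⟨⟨⟨1, h1⟩, 0, ?_⟩⟩
    intro h
    exact one_ne_zero (congrArg Subtype.val h)
  by_cases hu10 : u1 = 0
  · have hw0 : w = 0 := by
      rw [hu10] at hw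
      exact (mul_eq_zero.1 hw).resolve_right hu20
    have hX : fieldX A w = A := by
      ext x
      rw [mem_fieldX, hw0]
      simp
    rw [hX]
    omega
  · have e1 := finrank_map_mulLeft A hu10
    have e2 := finrank_map_mulLeft A hu20
    have b1 : A.map (LinearMap.mulLeft k u1) ≤ B := by
      rintro _ ⟨x, hx, rfl⟩
      exact hmul _ hu1 _ hx
    have b2 : A.map (LinearMap.mulLeft k u2) ≤ B := by
      rintro _ ⟨x, hx, rfl⟩
      exact hmul _ hu2 _ hx
    have hsum := Submodule.finrank_sup_add_finrank_inf_eq (A.map (LinearMap.mulLeft k u1))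
      (A.map (LinearMap.mulLeft k u2))
    have hsup : Module.finrank k ((A.map (LinearMap.mulLeft k u1) ⊔
        A.map (LinearMap.mulLeft k u2) : Submodule k W)) ≤ Module.finrank k B :=
      Submodule.finrank_mono (sup_le b1 b2)
    have hinf : Module.finrank k ((A.map (LinearMap.mulLeft k u1) ⊓
        A.map (LinearMap.mulLeft k u2) : Submodule k W)) ≤ Module.finrank k (fieldX A w) := by
      haveI : FiniteDimensional k (fieldX A w) :=
        Submodule.finiteDimensional_of_le (inf_le_left : fieldX A w ≤ A)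
      have hle : A.map (LinearMap.mulLeft k u1) ⊓ A.map (LinearMap.mulLeft k u2) ≤
          (fieldX A w).map (LinearMap.mulLeft k u1) := by
        rintro z ⟨⟨x, hx, hxz⟩, ⟨y, hy, hyz⟩⟩
        refine ⟨x, ?_, hxz⟩
        have hx' : x ∈ A := hx
        have hy' : y ∈ A := hy
        rw [LinearMap.mulLeft_apply] at hxz hyz
        have hwx : w * x = y := by
          apply mul_left_cancel₀ hu20
          rw [hyz, ← hxz, ← hw]
          ring
        exact mem_fieldX.2 ⟨hx', by rw [hwx]; exact hy'⟩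
      have h2 := Submodule.finrank_mono (R := k) hle
      rw [finrank_map_mulLeft (fieldX A w) hu10] at h2
      exact h2
    omega

theorem field_meet {k W : Type*} [Field k] [Field W] [Algebra k W]
    (A X Y : Submodule k W) [FiniteDimensional k A] (hX : X ≤ A) (hY : Y ≤ A)
    (dX : Module.finrank k A < 2 * Module.finrank k X)
    (dY : Module.finrank k A < 2 * Module.finrank k Y) : ∃ z, z ∈ X ∧ z ∈ Y ∧ z ≠ 0 := by
  haveI : FiniteDimensional k X := Submodule.finiteDimensional_of_le hX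
  haveI : FiniteDimensional k Y := Submodule.finiteDimensional_of_le hY
  have hsum := Submodule.finrank_sup_add_finrank_inf_eq X Y
  have hsup : Module.finrank k (X ⊔ Y : Submodule k W) ≤ Module.finrank k A :=
    Submodule.finrank_mono (sup_le hX hY)
  have hpos : 0 < Module.finrank k (X ⊓ Y : Submodule k W) := by omega
  have hne : X ⊓ Y ≠ ⊥ := by
    intro h
    rw [h, finrank_bot] at hpos
    exact lt_irrefl _ hpos
  obtain ⟨z, hz, hz0⟩ := Submodule.exists_mem_ne_zero_of_ne_bot hne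
  exact ⟨z, hz.1, hz.2, hz0⟩

/-- GEO-15. `A ⊆ W` a finite dimensional subspace with `1 ∈ A`, `A·A ⊆ B`, `2 dim B < 3 dim A`;
`φ : W → W'` linear, injective on `B`, with `φ(xy) = φ(x) φ(y)` for `x, y ∈ A`. Then for `u ∈ A`
every polynomial vanishing at `u` vanishes at `φ(u)`.
Proof. `φ(1) = 1` (`φ(1) = φ(1)^2`, `φ(1) ≠ 0`). `φ(x) ≠ 0` for `0 ≠ x ∈ A` (`A ⊆ B` as `1 ∈ A`).
Let `F = {w | ∃ u1 ∈ A, u2 ∈ A, u2 ≠ 0, w u2 = u1}`.
(a) for `w ∈ F` the subspace `X_w = {x ∈ A | w x ∈ A}` has `2 dim X_w > dim A`: `w = u1/u2`; if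
`w = 0` it is `A`; otherwise `u1 A` and `u2 A` are subspaces of `B` of dimension `dim A`, so
`dim (u1 A ∩ u2 A) ≥ 2 dim A - dim B > dim A / 2`, and `x ↦ u1 x` maps `X_w` onto `u1 A ∩ u2 A`
(`u1 x = u2 y` iff `w x = y`).
(b) two subspaces of `A` of dimension more than half meet in a nonzero vector.
(c) `F` is closed under addition: for `w1, w2 ∈ F` take `0 ≠ x ∈ X_{w1} ∩ X_{w2}`:
`(w1 + w2) x = w1 x + w2 x ∈ A`. Under multiplication: `w2 X_{w2} ⊆ A` has dimension more than half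
if `w2 ≠ 0`, so there is `x ∈ X_{w2}`, `x ≠ 0`, with `y = w2 x ∈ X_{w1}`: `w1 w2 x = w1 y ∈ A`.
Scalars are in `F`.
(d) define `ψ : F → W'`, `ψ(w) = φ(u1)/φ(u2)`: well defined since `u1 u4 = u3 u2` implies
`φ(u1) φ(u4) = φ(u3) φ(u2)`. By (c) `ψ(w1 + w2) = ψ(w1) + ψ(w2)`, `ψ(w1 w2) = ψ(w1) ψ(w2)`,
`ψ(c) = c` for scalars: with the common denominators of (c).
(e) so for a polynomial `p` over `k`, `ψ(p(u)) = p(ψ(u))`, in particular for `w = u ∈ A` (with
`u2 = 1`), `ψ(u) = φ(u)`; if `p(u) = 0` then `p(φ(u)) = ψ(0) = 0`.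
(In the file: make `F` a `Subalgebra k W` and `ψ : F →ₐ[k] W'`, then `Polynomial.aeval_algHom_apply`;
or prove by induction on `p` the relation `R w w' := ∃ u1 u2 ∈ A, u2 ≠ 0 ∧ w u2 = u1 ∧ w' φ(u2) = φ(u1)`
for `(p(u), p(φ u))`, which avoids choices: `R` is closed under `+`, `*` by (c), contains
`(c, c)` and `(u, φ u)`, and `R 0 w'` implies `w' = 0`.) -/
theorem fieldLemma {k W W' : Type*} [Field k] [Field W] [Field W'] [Algebra k W] [Algebra k W']
    (A B : Submodule k W) [FiniteDimensional k A] [FiniteDimensional k B] (h1 : (1 : W) ∈ A)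
    (hmul : ∀ x ∈ A, ∀ y ∈ A, x * y ∈ B)
    (hd : 2 * Module.finrank k B < 3 * Module.finrank k A) (φ : W →ₗ[k] W')
    (hinj : ∀ x ∈ B, φ x = 0 → x = 0) (hφ : ∀ x ∈ A, ∀ y ∈ A, φ (x * y) = φ x * φ y)
    (u : W) (hu : u ∈ A) (p : k[X]) (hp : aeval u p = 0) : aeval (φ u) p = 0 := by
  have hφ0 : ∀ x ∈ A, x ≠ 0 → φ x ≠ 0 := by
    intro x hx hx0 h
    have hxB : x ∈ B := by simpa using hmul x hx 1 h1
    exact hx0 (hinj x hxB h)
  obtain ⟨R, hR⟩ : ∃ R : W → W' → Prop, R = fun w w' => ∃ u1 ∈ A, ∃ u2 ∈ A, u2 ≠ 0 ∧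
    w * u2 = u1 ∧ w' * φ u2 = φ u1 := ⟨_, rfl⟩
  have hRdim : ∀ w w', R w w' → Module.finrank k A < 2 * Module.finrank k (fieldX A w) := by
    intro w w' h
    rw [hR] at h
    obtain ⟨u1, hu1, u2, hu2, hu20, hw, -⟩ := h
    exact fieldX_dim A B h1 hmul hd hu1 hu2 hu20 hw
  have hRx : ∀ w w', R w w' → ∀ x ∈ fieldX A w, w' * φ x = φ (w * x) := by
    intro w w' h x hx
    rw [hR] at h
    obtain ⟨u1, hu1, u2, hu2, hu20, hw, hw'⟩ := h
    obtain ⟨hxA, hwx⟩ := mem_fieldX.1 hx
    apply mul_left_cancel₀ (hφ0 u2 hu2 hu20)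
    rw [← hφ u2 hu2 (w * x) hwx]
    calc φ u2 * (w' * φ x) = (w' * φ u2) * φ x := by ring
      _ = φ u1 * φ x := by rw [hw']
      _ = φ (u1 * x) := (hφ u1 hu1 x hxA).symm
      _ = φ (u2 * (w * x)) := by rw [← hw]; congr 1; ring
  have hXA : ∀ w, fieldX A w ≤ A := fun w => inf_le_left
  have hadd : ∀ w1 w1' w2 w2', R w1 w1' → R w2 w2' → R (w1 + w2) (w1' + w2') := by
    intro w1 w1' w2 w2' r1 r2
    obtain ⟨x, hx1, hx2, hx0⟩ := field_meet A _ _ (hXA w1) (hXA w2) (hRdim _ _ r1) (hRdim _ _ r2)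
    have hx1' := mem_fieldX.1 hx1
    have hx2' := mem_fieldX.1 hx2
    rw [hR]
    refine ⟨w1 * x + w2 * x, A.add_mem hx1'.2 hx2'.2, x, hx1'.1, hx0, by ring, ?_⟩
    rw [map_add, ← hRx _ _ r1 x hx1, ← hRx _ _ r2 x hx2]
    ring
  have hzero : ∀ w', R 0 w' → w' = 0 := by
    intro w' h
    rw [hR] at h
    obtain ⟨u1, hu1, u2, hu2, hu20, hw, hw'⟩ := h
    rw [zero_mul] at hw
    rw [← hw, map_zero] at hw'
    exact (mul_eq_zero.1 hw').resolve_right (hφ0 u2 hu2 hu20)
  have hmulR : ∀ w1 w1' w2 w2', R w1 w1' → R w2 w2' → R (w1 * w2) (w1' * w2') := by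
    intro w1 w1' w2 w2' r1 r2
    by_cases hw2 : w2 = 0
    · rw [hw2] at r2
      have h2' := hzero _ r2
      rw [hR, hw2, h2']
      refine ⟨0, A.zero_mem, 1, h1, one_ne_zero, by ring, by simp⟩
    · have hYA : (fieldX A w2).map (LinearMap.mulLeft k w2) ≤ A := by
        rintro _ ⟨x, hx, rfl⟩
        exact (mem_fieldX.1 hx).2
      obtain ⟨y, hy1, hy2, hy0⟩ := field_meet A _ _ hYA (hXA w1)
        (by rw [finrank_map_mulLeft _ hw2]; exact hRdim _ _ r2) (hRdim _ _ r1)
      obtain ⟨x, hx, hxy⟩ := hy1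
      rw [LinearMap.mulLeft_apply] at hxy
      have hx' : x ∈ fieldX A w2 := hx
      have hxA := (mem_fieldX.1 hx').1
      have hyA := (mem_fieldX.1 hy2).2
      have hx0 : x ≠ 0 := by
        rintro rfl
        rw [mul_zero] at hxy
        exact hy0 hxy.symm
      rw [hR]
      refine ⟨w1 * y, hyA, x, hxA, hx0, by rw [← hxy]; ring, ?_⟩
      calc w1' * w2' * φ x = w1' * (w2' * φ x) := by ring
        _ = w1' * φ y := by rw [hRx _ _ r2 x hx', hxy]
        _ = φ (w1 * y) := hRx _ _ r1 y hy2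
  have hu' : R u (φ u) := by
    rw [hR]
    refine ⟨u, hu, 1, h1, one_ne_zero, by ring, ?_⟩
    rw [← hφ u hu 1 h1, mul_one]
  have hC : ∀ a : k, R (algebraMap k W a) (algebraMap k W' a) := by
    intro a
    rw [hR]
    refine ⟨a • 1, A.smul_mem a h1, 1, h1, one_ne_zero, ?_, ?_⟩
    · rw [Algebra.smul_def]
    · rw [map_smul, Algebra.smul_def]
  have hall : ∀ q : k[X], R (aeval u q) (aeval (φ u) q) := by
    intro q
    induction q using Polynomial.induction_on with
    | C a => simpa using hC a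
    | add p q hp hq =>
      rw [map_add, map_add]
      exact hadd _ _ _ _ hp hq
    | monomial n a h =>
      rw [pow_succ, ← mul_assoc, map_mul (aeval u), map_mul (aeval (φ u)), aeval_X, aeval_X]
      exact hmulR _ _ _ _ h hu'
  have := hall p
  rw [hp] at this
  exact hzero _ this

end H61.Geo
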