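import Pool.Agent.H61.Geo.ClassDefs

/-! # GEO-12a: the dimension of a centred box -/

open MvPolynomial

namespace H61.Geo

variable {k W : Type*} [Field k] [Field W] [Algebra k W] {r : ℕ} {x : Fin r → W}

/-- GEO-12a. Translation of the box: the span of all `x^v`, `|v| ≤ a`, has dimension
`Hd k x (2 a)`. Proof: multiplication by `x^(a,…,a) ≠ 0` maps it onto `Sp k x (2a)`
(`Sp_eq_span_mon`, `mon_add`). -/
theorem finrank_box (hx : ∀ i, x i ≠ 0) (a : ℕ) :
    Module.finrank k (Submodule.span k (mon x '' {v | ∀ i, |v i| ≤ (a : ℤ)})) =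
      Hd k x (2 * a) := by
  set c : Fin r → ℤ := fun _ => (a : ℤ) with hc
  have hc0 : mon x c ≠ 0 := mon_ne_zero hx c
  have hinj : Function.Injective (LinearMap.mulLeft k (mon x c)) := by
    intro u v huv
    exact mul_left_cancel₀ hc0 (by simpa using huv)
  have hmap : (Submodule.span k (mon x '' {v | ∀ i, |v i| ≤ (a : ℤ)})).map
      (LinearMap.mulLeft k (mon x c)) = Sp k x (2 * a) := by
    rw [Submodule.map_span, Sp_eq_span_mon]
    congr 1
    ext w
    constructor
    · rintro ⟨_, ⟨v, hv, rfl⟩, rfl⟩
      refine ⟨c + v, fun i => ?_, ?_⟩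
      · have := abs_le.1 (hv i)
        simp only [Pi.add_apply, hc]
        push_cast
        constructor <;> omega
      · rw [mon_add hx]; rfl
    · rintro ⟨v, hv, rfl⟩
      refine ⟨mon x (v - c), ⟨v - c, fun i => ?_, rfl⟩, ?_⟩
      · have := hv i
        push_cast at this
        simp only [Pi.sub_apply, hc]
        rw [abs_le]
        constructor <;> omega
      · change mon x c * mon x (v - c) = mon x v
        rw [← mon_add hx, add_sub_cancel]
  unfold Hd
  rw [← hmap]
  exact (LinearEquiv.finrank_eq (Submodule.equivMapOfInjective _ hinj _))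

end H61.Geo
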