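import Mathlib

/-!
# Two different powers of an algebraic number are conjugate only for roots of unity
-/

open Polynomial

namespace H61.Geo

/-- GEO-17. Proof: by hypothesis (for `p = minpoly ℚ (x^m1)`) `x^m2` is a root of `minpoly ℚ (x^m1)`,
so the minimal polynomials agree (`minpoly.eq_of_irreducible_of_monic`) and there is
`σ : W ≃ₐ[ℚ] W` with `σ (x^m1) = x^m2` (`Normal`: `isConjRoot_iff_exists_algEquiv` or
`Normal.exists_algEquiv..`). By induction on `j`: `(σ^j x)^(m1^j) = x^(m2^j)`: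
`(σ^(j+1) x)^(m1^(j+1)) = (σ ((σ^j x)^(m1^j)))^(m1) = (σ (x^(m2^j)))^(m1) = (σ (x^m1))^(m2^j) =
x^(m2^(j+1))`. The `σ^j x` are roots of `minpoly ℚ x`: finitely many, so `σ^i x = σ^j x` for some
`i < j` and `σ^(j-i) x = x`. With `N = j - i ≥ 1`: `x^(m1^N) = x^(m2^N)` and `m1^N ≠ m2^N`, so
`x` is a root of unity (`x ≠ 0`). -/
theorem finalContra {W : Type*} [Field W] [Algebra ℚ W] [Normal ℚ W] (x : W) (hx : x ≠ 0)
    {m1 m2 : ℕ} (h1 : 0 < m1) (h2 : 0 < m2) (hm : m1 ≠ m2)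
    (h : ∀ p : ℚ[X], aeval (x ^ m1) p = 0 → aeval (x ^ m2) p = 0) :
    ∃ n : ℕ, 0 < n ∧ x ^ n = 1 := by
  have hxi : IsIntegral ℚ x := Normal.isIntegral inferInstance x
  have hint : IsIntegral ℚ (x ^ m1) := hxi.pow m1
  have hconj : IsConjRoot ℚ (x ^ m1) (x ^ m2) :=
    isConjRoot_of_aeval_eq_zero hint (h _ (minpoly.aeval ℚ _))
  obtain ⟨σ, hσ⟩ := isConjRoot_iff_exists_algEquiv.1 hconj.symm
  have key : ∀ j : ℕ, ((σ ^ j) x) ^ (m1 ^ j) = x ^ (m2 ^ j) := by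
    intro j
    induction j with
    | zero => simp
    | succ j ih =>
      calc ((σ ^ (j + 1)) x) ^ (m1 ^ (j + 1)) = (σ (((σ ^ j) x) ^ (m1 ^ j))) ^ m1 := by
            rw [pow_succ' σ, AlgEquiv.mul_apply, map_pow, ← pow_mul, ← pow_succ]
        _ = (σ (x ^ (m2 ^ j))) ^ m1 := by rw [ih]
        _ = (σ (x ^ m1)) ^ (m2 ^ j) := by simp only [map_pow, ← pow_mul, mul_comm]
        _ = (x ^ m2) ^ (m2 ^ j) := by rw [← hσ]
        _ = x ^ (m2 ^ (j + 1)) := by rw [← pow_mul, pow_succ']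
  have hfin : Set.Finite (Set.range fun j : ℕ => (σ ^ j) x) := by
    refine Set.Finite.subset ((minpoly ℚ x).rootSet_finite W) ?_
    rintro _ ⟨j, rfl⟩
    rw [mem_rootSet]
    refine ⟨minpoly.ne_zero hxi, ?_⟩
    have h3 : aeval ((σ ^ j) x) (minpoly ℚ x) = (σ ^ j) (aeval x (minpoly ℚ x)) := by
      rw [← aeval_algHom_apply]
    simpa using h3
  obtain ⟨i, j, hij, he⟩ : ∃ i j : ℕ, i < j ∧ (σ ^ i) x = (σ ^ j) x := by
    by_contra hcon
    push Not at hcon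
    have hinj : Function.Injective (fun j : ℕ => (σ ^ j) x) := by
      intro i j hij
      rcases lt_trichotomy i j with h | h | h
      · exact absurd hij (hcon i j h)
      · exact h
      · exact absurd hij.symm (hcon j i h)
    exact Set.infinite_range_of_injective hinj hfin
  have hN : (σ ^ (j - i)) x = x := by
    have h3 : σ ^ j = σ ^ i * σ ^ (j - i) := by rw [← pow_add, Nat.add_sub_cancel' hij.le]
    rw [h3, AlgEquiv.mul_apply] at he
    exact ((σ ^ i).injective he).symm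
  have hN0 : j - i ≠ 0 := (Nat.sub_pos_of_lt hij).ne'
  have hk := key (j - i)
  rw [hN] at hk
  have hne : m1 ^ (j - i) ≠ m2 ^ (j - i) := fun h => hm (Nat.pow_left_injective hN0 h)
  rcases lt_or_gt_of_ne hne with hlt | hlt
  · refine ⟨m2 ^ (j - i) - m1 ^ (j - i), Nat.sub_pos_of_lt hlt, ?_⟩
    rw [pow_sub₀ x hx hlt.le, hk]
    exact mul_inv_cancel₀ (pow_ne_zero _ hx)
  · refine ⟨m1 ^ (j - i) - m2 ^ (j - i), Nat.sub_pos_of_lt hlt, ?_⟩
    rw [pow_sub₀ x hx hlt.le, hk]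
    exact mul_inv_cancel₀ (pow_ne_zero _ hx)

end H61.Geo
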