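import Pool.Agent.H61.Geo.GeoK
import Pool.Agent.H25.Arith.TWProof

/-!
# The geometric half in the form of `H25.GeoHalf`, and Theorem W
-/

open MvPolynomial Filter

namespace H61.Geo

theorem exists_k (c : ℕ) : ∃ k : ℕ, c * 2 ^ k < 3 ^ k := by
  have h : Tendsto (fun k : ℕ => ((3 : ℝ) / 2) ^ k) atTop atTop :=
    tendsto_pow_atTop_atTop_of_one_lt (by norm_num)
  obtain ⟨k, hk⟩ := (h.eventually_gt_atTop (c : ℝ)).exists
  refine ⟨k, ?_⟩
  rw [div_pow, lt_div_iff₀ (by positivity)] at hk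
  exact_mod_cast hk

/-- the numerical conditions hold for large `n` -/
theorem params (r : ℕ) (hr : 1 ≤ r) (e d : ℝ) (D k : ℕ) (he : 0 < e) (he1 : e < 1)
    (hd : 0 < d) :
    ∃ n0 : ℕ, ∀ n : ℕ, n0 ≤ n → 1 ≤ n ∧
      (4 : ℝ) ^ (r + 1) * 2 ^ D ≤ (n : ℝ) ^ ((1 - e) / 2) ∧
      (2 : ℝ) ^ (k + 2) ≤ (n : ℝ) ^ (3 * d) ∧
      (r.factorial : ℝ) * (n : ℝ) ^ (2 * r) < Real.exp (Real.log 2 * (n : ℝ) ^ (3 * d)) := by
  have hcast : Tendsto (fun n : ℕ => (n : ℝ)) atTop atTop := tendsto_natCast_atTop_atTop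
  have h1 : Tendsto (fun n : ℕ => (n : ℝ) ^ ((1 - e) / 2)) atTop atTop :=
    (tendsto_rpow_atTop (by linarith)).comp hcast
  have h2 : Tendsto (fun n : ℕ => (n : ℝ) ^ (3 * d)) atTop atTop :=
    (tendsto_rpow_atTop (by linarith)).comp hcast
  have h3 : Tendsto (fun x : ℝ => x ^ (2 * r / (3 * d) : ℝ) * Real.exp (-(Real.log 2) * x)) atTop
      (nhds 0) := tendsto_rpow_mul_exp_neg_mul_atTop_nhds_zero _ _ (Real.log_pos (by norm_num))
  have h4 := h3.comp h2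
  have hf : (0 : ℝ) < r.factorial := by exact_mod_cast Nat.factorial_pos r
  have h5 := h4.eventually (gt_mem_nhds (show (0 : ℝ) < (r.factorial : ℝ)⁻¹ by positivity))
  have h6 := ((eventually_ge_atTop 1).and ((h1.eventually_ge_atTop ((4 : ℝ) ^ (r + 1) * 2 ^ D)).and
    ((h2.eventually_ge_atTop ((2 : ℝ) ^ (k + 2))).and h5)))
  obtain ⟨n0, hn0⟩ := eventually_atTop.1 h6
  refine ⟨n0, fun n hn => ?_⟩
  obtain ⟨ha, hb, hc, hdd⟩ := hn0 n hn
  refine ⟨ha, hb, hc, ?_⟩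
  have hn0' : (0 : ℝ) < n := by exact_mod_cast ha
  simp only [Function.comp] at hdd
  have e1 : ((n : ℝ) ^ (3 * d)) ^ (2 * r / (3 * d) : ℝ) = (n : ℝ) ^ (2 * r) := by
    rw [← Real.rpow_mul hn0'.le]
    have : 3 * d * (2 * (r : ℝ) / (3 * d)) = ((2 * r : ℕ) : ℝ) := by
      push_cast
      field_simp
    rw [this, Real.rpow_natCast]
  rw [e1, neg_mul, Real.exp_neg, ← div_eq_mul_inv, div_lt_iff₀ (Real.exp_pos _)] at hdd
  rw [← lt_div_iff₀' hf, div_eq_mul_inv]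
  exact hdd.trans_eq (mul_comm _ _)

theorem geoHalf (r : ℕ) (E : ℝ) (hE0 : 0 < E) (hE : E < r) : H25.GeoHalf r E := by
  have hr0 : (0 : ℝ) < r := hE0.trans hE
  have hr : 1 ≤ r := by exact_mod_cast hr0
  set e : ℝ := E / r with he
  have he0 : 0 < e := div_pos hE0 hr0
  have he1 : e < 1 := (div_lt_one hr0).2 hE
  set D : ℕ := 6 * r * (r + 1) + 9 with hD
  have hDpos : (0 : ℝ) < D := by rw [hD]; positivity
  set d : ℝ := (1 - e) / (2 * D) with hd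
  have hd0 : 0 < d := div_pos (by linarith) (by positivity)
  refine ⟨d, hd0, fun C1 => ?_⟩
  obtain ⟨k, hk⟩ := exists_k ((12 * r) ^ r * (2 ^ r * C1))
  obtain ⟨n0, hn0⟩ := params r hr e d D k he0 he1 hd0
  refine ⟨n0, ?_⟩
  intro K _ _ _ a n N m1 m2 hn hN1 hN2 ha hfin hm hp1 hp2 _ _ _ _ hE' hLL
  obtain ⟨hn1, hb1, hb2, hb3⟩ := hn0 n hn
  obtain ⟨LL, hLLc, hLLp⟩ := hLL
  have hn1' : (1 : ℝ) ≤ n := by exact_mod_cast hn1
  have hn0' : (0 : ℝ) < n := by linarith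
  have hnd : (1 : ℝ) ≤ (n : ℝ) ^ d := Real.one_le_rpow hn1' hd0.le
  have hNpos : 1 ≤ N := by
    have : (1 : ℝ) ≤ N := hnd.trans hN1
    exact_mod_cast this
  set a0 : ℕ := ⌊(n : ℝ) ^ e⌋₊ with ha0
  have hne : (1 : ℝ) ≤ (n : ℝ) ^ e := Real.one_le_rpow hn1' he0.le
  have ha01 : 1 ≤ a0 := by
    rw [ha0]
    exact Nat.le_floor (by exact_mod_cast hne)
  have ha02 : (a0 : ℝ) ≤ (n : ℝ) ^ e := Nat.floor_le (by positivity)
  have ha03 : (n : ℝ) ^ e < (a0 : ℝ) + 1 := Nat.lt_floor_add_one _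
  set A : ℕ → ℕ := fun i => (4 * (N ^ 6) ^ r) ^ i * a0 with hA
  have hA0 : A 0 = a0 := by simp [hA]
  -- the main size condition
  have hsize : A (r + 1) * N ^ 9 ≤ n := by
    have h1 : ((A (r + 1) * N ^ 9 : ℕ) : ℝ) = 4 ^ (r + 1) * (N : ℝ) ^ D * a0 := by
      rw [hA, hD]
      push_cast
      rw [mul_pow, ← pow_mul, ← pow_mul]
      ring_nf
    have h2 : (N : ℝ) ^ D ≤ 2 ^ D * (n : ℝ) ^ ((1 - e) / 2) := by
      calc (N : ℝ) ^ D ≤ (2 * (n : ℝ) ^ d) ^ D := pow_le_pow_left₀ (Nat.cast_nonneg _) hN2 D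
        _ = 2 ^ D * (n : ℝ) ^ ((1 - e) / 2) := by
          rw [mul_pow, ← Real.rpow_natCast ((n : ℝ) ^ d), ← Real.rpow_mul hn0'.le]
          congr 2
          rw [hd]
          field_simp
    have h3 : (4 : ℝ) ^ (r + 1) * (N : ℝ) ^ D * a0 ≤ n := by
      calc (4 : ℝ) ^ (r + 1) * (N : ℝ) ^ D * a0
          ≤ (4 : ℝ) ^ (r + 1) * (2 ^ D * (n : ℝ) ^ ((1 - e) / 2)) * (n : ℝ) ^ e := by
            gcongr
        _ = ((4 : ℝ) ^ (r + 1) * 2 ^ D) * ((n : ℝ) ^ ((1 - e) / 2) * (n : ℝ) ^ e) := by ring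
        _ ≤ (n : ℝ) ^ ((1 - e) / 2) * ((n : ℝ) ^ ((1 - e) / 2) * (n : ℝ) ^ e) := by
            gcongr
        _ = n := by
            rw [← Real.rpow_add hn0', ← Real.rpow_add hn0']
            have : (1 - e) / 2 + ((1 - e) / 2 + e) = 1 := by ring
            rw [this, Real.rpow_one]
    have h4 : ((A (r + 1) * N ^ 9 : ℕ) : ℝ) ≤ n := by rw [h1]; exact h3
    exact_mod_cast h4
  have hN9 : 1 ≤ N ^ 9 := Nat.one_le_pow _ _ hNpos
  have hAn : A (r + 1) ≤ n := (Nat.le_mul_of_pos_right _ hN9).trans hsize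
  have hA3 : A (r + 1) ≤ n / N ^ 3 := by
    rw [Nat.le_div_iff_mul_le (Nat.pos_of_ne_zero (pow_ne_zero _ (by omega)))]
    exact (Nat.mul_le_mul_left _ (Nat.pow_le_pow_right hNpos (by norm_num))).trans hsize
  have hApos' : 1 ≤ A (r + 1) := by
    have h1 : 0 < (4 * (N ^ 6) ^ r) ^ (r + 1) := by positivity
    exact Nat.mul_pos h1 ha01
  -- N^3 is large
  have hN3 : (n : ℝ) ^ (3 * d) ≤ ((N ^ 3 : ℕ) : ℝ) := by
    have h1 : (n : ℝ) ^ (3 * d) = ((n : ℝ) ^ d) ^ 3 := by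
      rw [← Real.rpow_natCast ((n : ℝ) ^ d), ← Real.rpow_mul hn0'.le]
      congr 1
      push_cast
      ring
    rw [h1]
    push_cast
    gcongr
  have hlow : ∀ l ∈ LL, 2 ^ (k + 2) ≤ l := by
    intro l hl
    have h1 : ((2 ^ (k + 2) : ℕ) : ℝ) ≤ ((N ^ 3 : ℕ) : ℝ) := by
      push_cast at hN3 ⊢
      exact hb2.trans hN3
    exact (by exact_mod_cast h1 : 2 ^ (k + 2) ≤ N ^ 3).trans (hLLp l hl).2.1
  have hfin' : (Module.finrank ℚ (IntermediateField.adjoin ℚ (Set.range a)) : ℝ) ≤ (n : ℝ) ^ r := by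
    refine hfin.trans ?_
    rw [← Real.rpow_natCast]
    exact Real.rpow_le_rpow_of_exponent_le hn1' hE.le
  have hfinA : Module.finrank ℚ (IntermediateField.adjoin ℚ (Set.range a)) < (A 0 + 1) ^ r := by
    have h1 : (n : ℝ) ^ E < ((a0 : ℝ) + 1) ^ r := by
      have h2 : (n : ℝ) ^ E = ((n : ℝ) ^ e) ^ r := by
        rw [← Real.rpow_natCast ((n : ℝ) ^ e), ← Real.rpow_mul hn0'.le, he]
        congr 1
        field_simp
      rw [h2]
      exact pow_lt_pow_left₀ ha03 (by positivity) (by omega)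
    rw [hA0]
    have h3 := hfin.trans_lt h1
    exact_mod_cast h3
  have hcard : r.factorial * (A (r + 1)) ^ r *
      Module.finrank ℚ (IntermediateField.adjoin ℚ (Set.range a)) < 2 ^ LL.card := by
    have h1 : ((r.factorial * (A (r + 1)) ^ r *
        Module.finrank ℚ (IntermediateField.adjoin ℚ (Set.range a)) : ℕ) : ℝ) <
        ((2 ^ LL.card : ℕ) : ℝ) := by
      push_cast
      calc (r.factorial : ℝ) * (A (r + 1) : ℝ) ^ r *
          (Module.finrank ℚ (IntermediateField.adjoin ℚ (Set.range a)) : ℝ)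
          ≤ (r.factorial : ℝ) * (n : ℝ) ^ r * (n : ℝ) ^ r := by
            gcongr
        _ = (r.factorial : ℝ) * (n : ℝ) ^ (2 * r) := by
            rw [mul_assoc, ← pow_add]; ring_nf
        _ < Real.exp (Real.log 2 * (n : ℝ) ^ (3 * d)) := hb3
        _ ≤ Real.exp (Real.log 2 * (LL.card : ℝ)) := by
            apply Real.exp_le_exp.2
            apply mul_le_mul_of_nonneg_left _ (Real.log_nonneg (by norm_num))
            exact hN3.trans (by exact_mod_cast hLLc)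
        _ = (2 : ℝ) ^ LL.card := by
            rw [mul_comm, Real.exp_nat_mul, Real.exp_log (by norm_num)]
    exact_mod_cast h1
  obtain ⟨lam, hlam, t, ht, h⟩ := geometryK hr C1 k hk K a ha m1 m2 hp1.pos hp2.pos hm LL
    (fun l hl => (hLLp l hl).1) hlow A hfinA (by rw [hA0]; exact ha01) hApos'
    (by
      intro i _ l hl
      change 4 * l ^ r * ((4 * (N ^ 6) ^ r) ^ i * a0) ≤ (4 * (N ^ 6) ^ r) ^ (i + 1) * a0
      have h1 : 4 * l ^ r ≤ 4 * (N ^ 6) ^ r :=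
        Nat.mul_le_mul_left _ (Nat.pow_le_pow_left (hLLp l hl).2.2.1 r)
      calc 4 * l ^ r * ((4 * (N ^ 6) ^ r) ^ i * a0)
          ≤ 4 * (N ^ 6) ^ r * ((4 * (N ^ 6) ^ r) ^ i * a0) := Nat.mul_le_mul_right _ h1
        _ = (4 * (N ^ 6) ^ r) ^ (i + 1) * a0 := by rw [pow_succ]; ring)
    hcard
    (fun l hl L hL => (hLLp l hl).2.2.2 L ((Nat.mul_le_mul_right _ hL).trans hsize))
    (fun P hP => hE' P (rd_mono hA3 hP))
  exact ⟨lam, hlam, t, ht, h⟩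

/-- THEOREM W (weak Amoroso-David theorem) -/
theorem theoremW (r : ℕ) (E : ℝ) (hE0 : 0 < E) (hE : E < r) : H25.TheoremW r E :=
  H25.theoremW_of_geo r E (geoHalf r E hE0 hE)

end H61.Geo
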