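import Pool.Agent.H61.Geo.Geometry

/-!
# The geometry theorem for a point with coordinates in a number field
-/

open MvPolynomial IntermediateField

namespace H61.Geo

theorem aeval_comp_hom {k K W : Type*} [Field k] [Field K] [Field W] [Algebra k K] [Algebra k W]
    {r : ℕ} (j : K →ₐ[k] W) (a : Fin r → K) (P : MvPolynomial (Fin r) k) :
    aeval (fun i => j (a i)) P = j (aeval a P) := by
  have h : aeval (fun i => j (a i)) = j.comp (aeval a) := by
    apply MvPolynomial.algHom_ext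
    intro i
    simp
  rw [h]
  rfl

theorem Sp_map {k K W : Type*} [Field k] [Field K] [Field W] [Algebra k K] [Algebra k W]
    {r : ℕ} (j : K →ₐ[k] W) (a : Fin r → K) (L : ℕ) :
    Sp k (fun i => j (a i)) L = (Sp k a L).map j.toLinearMap := by
  ext w
  rw [mem_Sp, Submodule.mem_map]
  constructor
  · rintro ⟨P, hP, rfl⟩
    exact ⟨aeval a P, mem_Sp.2 ⟨P, hP, rfl⟩, (aeval_comp_hom j a P).symm⟩
  · rintro ⟨u, hu, rfl⟩
    obtain ⟨P, hP, rfl⟩ := mem_Sp.1 hu
    exact ⟨P, hP, aeval_comp_hom j a P⟩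

theorem Hd_map {k K W : Type*} [Field k] [Field K] [Field W] [Algebra k K] [Algebra k W]
    {r : ℕ} (j : K →ₐ[k] W) (a : Fin r → K) (L : ℕ) :
    Hd k (fun i => j (a i)) L = Hd k a L := by
  unfold Hd
  rw [Sp_map]
  exact (LinearEquiv.finrank_eq (Submodule.equivMapOfInjective j.toLinearMap j.injective _)).symm

theorem pw_comp {K W : Type*} [Field K] [Field W] {r : ℕ} (j : K →+* W) (a : Fin r → K) (m : ℕ) :
    pw (fun i => j (a i)) m = fun i => j (pw a m i) := by
  funext i; simp [pw]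

theorem mon_comp {K W : Type*} [Field K] [Field W] {r : ℕ} (j : K →+* W) (a : Fin r → K)
    (v : Fin r → ℤ) : mon (fun i => j (a i)) v = j (mon a v) := by
  simp [mon, map_prod, map_zpow₀]

theorem normal_algClosure_rat : Normal ℚ (AlgebraicClosure ℚ) := by
  have h : ∀ (i1 i2 : Algebra ℚ (AlgebraicClosure ℚ)),
      @Normal ℚ (AlgebraicClosure ℚ) _ _ i1 → @Normal ℚ (AlgebraicClosure ℚ) _ _ i2 := by
    intro i1 i2 h
    rwa [Subsingleton.elim i2 i1]
  exact h _ _ (@IsAlgClosure.normal ℚ (AlgebraicClosure ℚ) _ _ _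
    (AlgebraicClosure.instIsAlgClosure ℚ))

/-- the geometry theorem with the primes that are not disjoint from the field counted -/
theorem geometryK {r : ℕ} (hr : 1 ≤ r) (C k : ℕ)
    (hk : ((12 * r) ^ r * (2 ^ r * C)) * 2 ^ k < 3 ^ k)
    (K : Type*) [Field K] [NumberField K] (a : Fin r → K) (ha : ∀ i, a i ≠ 0) (m1 m2 : ℕ)
    (hm1 : 0 < m1) (hm2 : 0 < m2) (hm : m1 ≠ m2)
    (S : Finset ℕ) (hS : ∀ l ∈ S, l.Prime) (hlow : ∀ l ∈ S, 2 ^ (k + 2) ≤ l)
    (A : ℕ → ℕ)
    (hA0 : Module.finrank ℚ (IntermediateField.adjoin ℚ (Set.range a)) < (A 0 + 1) ^ r)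
    (hApos : 1 ≤ A 0) (hApos' : 1 ≤ A (r + 1))
    (hstep : ∀ i ≤ r, ∀ l ∈ S, 4 * l ^ r * A i ≤ A (i + 1))
    (hcard : r.factorial * (A (r + 1)) ^ r *
      Module.finrank ℚ (IntermediateField.adjoin ℚ (Set.range a)) < 2 ^ S.card)
    (hC : ∀ l ∈ S, ∀ L ≤ A (r + 1), Hd ℚ (pw (pw a m1) l) L ≤ C * Hd ℚ (pw a m1) L)
    (hE : ∀ P ∈ restrictDegree (Fin r) ℚ (A (r + 1)),
      aeval (pw a m1) P = 0 ↔ aeval (pw a m2) P = 0) :
    ∃ lam : Fin r → ℤ, lam ≠ 0 ∧ ∃ n : ℕ, 0 < n ∧ (mon a lam) ^ n = 1 := by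
  classical
  let W := AlgebraicClosure ℚ
  let j : K →ₐ[ℚ] W := IsAlgClosed.lift
  let b : Fin r → W := fun i => j (a i)
  let F : IntermediateField ℚ W := (IntermediateField.adjoin ℚ (Set.range a)).map j
  have hnorm : Normal ℚ W := normal_algClosure_rat
  have hFfin : FiniteDimensional ℚ F :=
    LinearEquiv.finiteDimensional
      (IntermediateField.equivMap (IntermediateField.adjoin ℚ (Set.range a)) j).toLinearEquiv
  have hfr : Module.finrank ℚ F = Module.finrank ℚ (IntermediateField.adjoin ℚ (Set.range a)) :=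
    (LinearEquiv.finrank_eq
      (IntermediateField.equivMap (IntermediateField.adjoin ℚ (Set.range a)) j).toLinearEquiv).symm
  have hprim : ∀ l : ℕ, ∃ z : W, l ≠ 0 → IsPrimitiveRoot z l := by
    intro l
    by_cases hl : l = 0
    · exact ⟨1, fun h => absurd hl h⟩
    · have : NeZero (l : ℚ) := ⟨by exact_mod_cast hl⟩
      obtain ⟨z, hz⟩ := HasEnoughRootsOfUnity.exists_primitiveRoot W l
      exact ⟨z, fun _ => hz⟩
  choose Z hZ using hprim
  have hFpos : 0 < Module.finrank ℚ F := Module.finrank_pos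
  -- the primes disjoint from F
  set S' : Finset ℕ := S.filter (fun l => (ℚ⟮Z l⟯).LinearDisjoint F) with hS'
  set B' : Finset ℕ := S.filter (fun l => ¬ (ℚ⟮Z l⟯).LinearDisjoint F) with hB'
  have hSB : S'.card + B'.card = S.card := Finset.card_filter_add_card_filter_not _
  have hBcard : 2 ^ B'.card ≤ Module.finrank ℚ F :=
    card_not_disjoint F B' (fun l hl => hS l (Finset.mem_filter.1 hl).1) Z
      (fun l hl => hZ l (hS l (Finset.mem_filter.1 hl).1).ne_zero)
      (fun l hl => (Finset.mem_filter.1 hl).2)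
  have hS'card : r.factorial * (A (r + 1)) ^ r < 2 ^ S'.card := by
    rw [← hSB, pow_add, ← hfr] at hcard
    by_contra hcon
    push Not at hcon
    exact absurd hcard (not_lt.2 (Nat.mul_le_mul hcon hBcard))
  have hne : S'.Nonempty := by
    rw [Finset.nonempty_iff_ne_empty]
    intro h
    rw [h, Finset.card_empty, pow_zero] at hS'card
    have := Nat.mul_pos (Nat.factorial_pos r) (pow_pos hApos' r)
    omega
  have hprod : r.factorial * (A (r + 1)) ^ r < ∏ l ∈ S', l := by
    refine lt_of_lt_of_le hS'card ?_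
    rw [← Finset.prod_const]
    exact Finset.prod_le_prod' fun l hl => (hS l (Finset.mem_filter.1 hl).1).two_le
  have hsub : ∀ l ∈ S', l ∈ S := fun l hl => (Finset.mem_filter.1 hl).1
  have hb : ∀ i, b i ≠ 0 := fun i => (map_ne_zero j).2 (ha i)
  have hbF : ∀ i, b i ∈ F := fun i =>
    ⟨a i, IntermediateField.subset_adjoin ℚ _ ⟨i, rfl⟩, rfl⟩
  have hpwb : ∀ m, pw b m = fun i => j (pw a m i) := fun m => pw_comp (j : K →+* W) a m
  obtain ⟨lam, hlam, n, hn, h⟩ := geometry hr C k hk b hb F hbF m1 m2 hm1 hm2 hm S' hne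
    (fun l hl => hS l (hsub l hl)) (fun l hl => hlow l (hsub l hl)) Z
    (fun l hl => hZ l (hS l (hsub l hl)).ne_zero) (fun l hl => (Finset.mem_filter.1 hl).2) A
    (by rw [hfr]; exact hA0) hApos (fun i hi l hl => hstep i hi l (hsub l hl)) hprod
    (by
      intro l hl L hL
      have h1 : pw (pw b m1) l = fun i => j (pw (pw a m1) l i) := by
        rw [hpwb]; exact pw_comp (j : K →+* W) _ l
      rw [h1, Hd_map, hpwb, Hd_map]
      exact hC l (hsub l hl) L hL)
    (by
      intro P hP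
      rw [hpwb, hpwb, aeval_comp_hom, aeval_comp_hom]
      exact (map_eq_zero j).trans ((hE P hP).trans (map_eq_zero j).symm))
  refine ⟨lam, hlam, n, hn, ?_⟩
  have h2 : mon b lam = j (mon a lam) := mon_comp (j : K →+* W) a lam
  rw [h2, ← map_pow] at h
  exact j.injective (h.trans (map_one j).symm)

end H61.Geo
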