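import Pool.Agent.H61.Geo.HomDefs

/-! # GEO-9: coarsening -/

open MvPolynomial

namespace H61.Geo

variable {k W : Type*} [Field k] [Field W] [Algebra k W] {r : ℕ} {x : Fin r → W} {A : ℕ}

/-- GEO-9. Coarsening. Proof: let `P ∈ rd A` be a relation, `v0` fixed, `S = P.support`,
`T = {s ∈ S | s - v0 ∈ N}`. For `s ∈ T`, every `s' ∈ S` with `s' - s ∈ M` has `|s'_i - s_i| ≤ A`,
so `s' - s ∈ N` and `s' ∈ T`. Split the sum over `T` according to the class of `s` in
`(Fin r → ℤ) ⧸ M` (`Finset.sum_fiberwise_of_maps_to` with the image of `T`): the fibre of the class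
of `s ∈ T` is `{s' ∈ S | s' - s ∈ M}` and its sum is `aeval x (part P {v | v - s ∈ M}) = 0`. -/
theorem HomM.coarsen {M N : AddSubgroup (Fin r → ℤ)} (h : HomM k M x A)
    (hMN : ∀ v ∈ M, (∀ i, |v i| ≤ (A : ℤ)) → v ∈ N) : HomM k N x A := by
  classical
  intro P hP hP0 v0
  have hdeg := mem_rd.1 hP
  unfold part
  rw [map_sum]
  set q : (Fin r →₀ ℕ) → (Fin r → ℤ) ⧸ M := fun s => QuotientAddGroup.mk (fun i => (s i : ℤ)) with hq
  set T : Finset (Fin r →₀ ℕ) :=
    P.support.filter (fun s => (fun i => (s i : ℤ)) ∈ {v : Fin r → ℤ | v - v0 ∈ N}) with hT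
  rw [← Finset.sum_fiberwise_of_maps_to (s := T) (t := T.image q) (g := q)
    (fun s hs => Finset.mem_image_of_mem q hs)]
  refine Finset.sum_eq_zero fun c hc => ?_
  obtain ⟨s0, hs0, rfl⟩ := Finset.mem_image.1 hc
  have h1 := h P hP hP0 (fun i => (s0 i : ℤ))
  unfold part at h1
  rw [map_sum] at h1
  rw [← h1]
  refine Finset.sum_congr ?_ fun _ _ => rfl
  have hs0' := Finset.mem_filter.1 hs0
  ext s
  simp only [Finset.mem_filter, hT, Set.mem_setOf_eq]
  have hqs : q s = q s0 ↔ (fun i => (s i : ℤ)) - (fun i => (s0 i : ℤ)) ∈ M := by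
    rw [hq, eq_comm, QuotientAddGroup.eq, ← sub_eq_neg_add]
  rw [hqs]
  constructor
  · rintro ⟨⟨hs, _⟩, hsM⟩
    exact ⟨hs, hsM⟩
  · rintro ⟨hs, hsM⟩
    refine ⟨⟨hs, ?_⟩, hsM⟩
    have h2 : (fun i => (s i : ℤ)) - (fun i => (s0 i : ℤ)) ∈ N := by
      refine hMN _ hsM fun i => ?_
      have h3 := hdeg s hs i
      have h4 := hdeg s0 hs0'.1 i
      simp only [Pi.sub_apply]
      rw [abs_le]
      constructor <;> omega
    have h5 : (fun i => (s0 i : ℤ)) - v0 ∈ N := hs0'.2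
    have h6 := N.add_mem h2 h5
    rwa [sub_add_sub_cancel] at h6

end H61.Geo
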