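import Pool.Agent.H61.Geo.HomDefs

/-! # GEO-8: homogeneity for intersections -/

open MvPolynomial

namespace H61.Geo

variable {k W : Type*} [Field k] [Field W] [Algebra k W] {r : ℕ} {x : Fin r → W} {A : ℕ}

/-- GEO-8. Homogeneity for a finite intersection. Proof: induction on the finset; for the empty
intersection `⊤` use `part_univ`; for two subgroups: `part (part P {v - v0 ∈ M}) {v - v0 ∈ M'}
= part P {v - v0 ∈ M ⊓ M'}` (`part_part`), `part P _ ∈ rd A` (`part_mem`) is a relation, apply
`HomM` twice. -/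
theorem HomM.iInf {ι : Type*} (s : Finset ι) (M : ι → AddSubgroup (Fin r → ℤ))
    (h : ∀ i ∈ s, HomM k (M i) x A) : HomM k (⨅ i ∈ s, M i) x A := by
  classical
  induction s using Finset.induction_on with
  | empty =>
    intro P _ hP0 v0
    have h1 : {v : Fin r → ℤ | v - v0 ∈ (⨅ i ∈ (∅ : Finset ι), M i)} = Set.univ := by
      ext v; simp
    rw [h1, part_univ]
    exact hP0
  | insert a s ha ih =>
    intro P hP hP0 v0
    have ih' := ih fun i hi => h i (Finset.mem_insert_of_mem hi)
    have h1 : {v : Fin r → ℤ | v - v0 ∈ (⨅ i ∈ insert a s, M i)} =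
        {v | v - v0 ∈ M a} ∩ {v | v - v0 ∈ (⨅ i ∈ s, M i)} := by
      ext v
      rw [Finset.iInf_insert]
      simp only [Set.mem_setOf_eq, AddSubgroup.mem_inf, Set.mem_inter_iff]
    rw [h1, ← part_part]
    exact ih' _ (part_mem hP _) (h a (Finset.mem_insert_self a s) P hP hP0 v0) v0

end H61.Geo
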