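import Pool.Agent.H61.Geo.Defs

/-!
# Equal relations of low degree give a linear map
-/

open MvPolynomial

namespace H61.Geo

theorem aeval_monomial_mon {k W : Type*} [Field k] [Field W] [Algebra k W] {r : ℕ} (x : Fin r → W)
    (s : Fin r →₀ ℕ) : aeval x (monomial s (1 : k)) = mon x (fun i => (s i : ℤ)) := by
  rw [aeval_monomial, map_one, one_mul, Finsupp.prod_fintype _ _ (by simp)]
  simp [mon]

/-- GEO-16. If two points with nonzero coordinates have the same relations of box degree at most
`2 a` then `mon x v ↦ mon y v` (`|v| ≤ a`) extends to a linear map, injective on the span.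
Proof: relations `∑ c_v mon x v = 0` with `|v| ≤ a` correspond to relations of box degree `≤ 2a`
by multiplication by `x^(a,…,a)` resp. `y^(a,…,a)` (nonzero). So the kernel of
`((box) →₀ k) → W` (or `(box → k) → W`, box finite), `c ↦ ∑ c_v mon x v`, equals the kernel of the
analogous map to `W'`; hence there is a linear map on the span with `mon x v ↦ mon y v`
(`LinearMap.exists_extend`, or `LinearMap.exists_rightInverse..`/quotient by the kernel), and
extend it to `W` (`LinearMap.exists_extend`). Injectivity from the equality of the kernels. -/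
theorem exists_phi {k W W' : Type*} [Field k] [Field W] [Field W'] [Algebra k W] [Algebra k W']
    {r : ℕ} (x : Fin r → W) (y : Fin r → W') (hx : ∀ i, x i ≠ 0) (hy : ∀ i, y i ≠ 0) (a : ℕ)
    (h : ∀ P ∈ restrictDegree (Fin r) k (2 * a), aeval x P = 0 ↔ aeval y P = 0) :
    ∃ φ : W →ₗ[k] W', (∀ v : Fin r → ℤ, (∀ i, |v i| ≤ (a : ℤ)) → φ (mon x v) = mon y v) ∧
      ∀ w ∈ Submodule.span k (mon x '' {v | ∀ i, |v i| ≤ (a : ℤ)}), φ w = 0 → w = 0 := by
  classical
  let R := restrictDegree (Fin r) k (2 * a)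
  let ex : R →ₗ[k] W := (aeval x).toLinearMap.comp R.subtype
  let ey : R →ₗ[k] W' := (aeval y).toLinearMap.comp R.subtype
  have hex : ∀ P : R, ex P = aeval x (P : MvPolynomial (Fin r) k) := fun _ => rfl
  have hey : ∀ P : R, ey P = aeval y (P : MvPolynomial (Fin r) k) := fun _ => rfl
  have hker : LinearMap.ker ex = LinearMap.ker ey := by
    ext P
    rw [LinearMap.mem_ker, LinearMap.mem_ker, hex, hey]
    exact h P P.2
  obtain ⟨ρ, hρ⟩ := ex.rangeRestrict.exists_rightInverse_of_surjective
    (LinearMap.range_rangeRestrict ex)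
  obtain ⟨ψ, hψ⟩ := LinearMap.exists_extend (ey.comp ρ)
  have hψe : ∀ P : R, ψ (ex P) = ey P := by
    intro P
    have h1 : ψ (ex P) = ey (ρ (ex.rangeRestrict P)) :=
      LinearMap.congr_fun hψ (ex.rangeRestrict P)
    have h2 : ρ (ex.rangeRestrict P) - P ∈ LinearMap.ker ex := by
      rw [LinearMap.mem_ker, map_sub, sub_eq_zero]
      exact congrArg Subtype.val (LinearMap.congr_fun hρ (ex.rangeRestrict P))
    rw [hker, LinearMap.mem_ker, map_sub, sub_eq_zero] at h2
    rw [h1, h2]
  -- the shift
  let u : Fin r → ℤ := fun _ => (a : ℤ)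
  have hmon : ∀ v : Fin r → ℤ, (∀ i, |v i| ≤ (a : ℤ)) → ∃ P : R,
      ex P = mon x (u + v) ∧ ey P = mon y (u + v) := by
    intro v hv
    let s : Fin r →₀ ℕ := Finsupp.equivFunOnFinite.symm (fun i => ((a : ℤ) + v i).toNat)
    have hs : ∀ i, ((s i : ℕ) : ℤ) = (a : ℤ) + v i := by
      intro i
      have h1 := abs_le.mp (hv i)
      change (((((a : ℤ) + v i).toNat : ℕ)) : ℤ) = _
      exact Int.toNat_of_nonneg (by linarith [h1.1])
    have hs2 : ∀ i, s i ≤ 2 * a := by
      intro i
      have h1 := abs_le.mp (hv i)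
      have h2 := hs i
      have h3 : ((s i : ℕ) : ℤ) ≤ 2 * a := by rw [h2]; linarith [h1.2]
      exact_mod_cast h3
    refine ⟨⟨monomial s 1, rd_monomial 1 hs2⟩, ?_, ?_⟩
    · rw [hex]
      change aeval x (monomial s (1 : k)) = _
      rw [aeval_monomial_mon]
      congr 1
      funext i
      exact hs i
    · rw [hey]
      change aeval y (monomial s (1 : k)) = _
      rw [aeval_monomial_mon]
      congr 1
      funext i
      exact hs i
  have hx1 := mon_ne_zero hx u
  have hy1 := mon_ne_zero hy u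
  refine ⟨(LinearMap.mulLeft k (mon y u)⁻¹).comp (ψ.comp (LinearMap.mulLeft k (mon x u))), ?_, ?_⟩
  · intro v hv
    obtain ⟨P, hP1, hP2⟩ := hmon v hv
    simp only [LinearMap.comp_apply, LinearMap.mulLeft_apply]
    rw [← mon_add hx, ← hP1, hψe, hP2, mon_add hy, inv_mul_cancel_left₀ hy1]
  · intro w hw hw0
    simp only [LinearMap.comp_apply, LinearMap.mulLeft_apply] at hw0
    have hw1 : ψ (mon x u * w) = 0 := by
      rcases mul_eq_zero.mp hw0 with h1 | h1
      · exact absurd (inv_eq_zero.mp h1) hy1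
      · exact h1
    have hw2 : mon x u * w ∈ LinearMap.range ex := by
      have h1 : Submodule.span k (mon x '' {v | ∀ i, |v i| ≤ (a : ℤ)}) ≤
          (LinearMap.range ex).comap (LinearMap.mulLeft k (mon x u)) := by
        rw [Submodule.span_le]
        rintro _ ⟨v, hv, rfl⟩
        obtain ⟨P, hP1, -⟩ := hmon v hv
        rw [SetLike.mem_coe, Submodule.mem_comap, LinearMap.mulLeft_apply, ← mon_add hx, ← hP1]
        exact ⟨P, rfl⟩
      exact h1 hw
    obtain ⟨P, hP⟩ := hw2
    rw [← hP, hψe] at hw1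
    have h2 : P ∈ LinearMap.ker ex := by
      rw [hker, LinearMap.mem_ker]; exact hw1
    rw [LinearMap.mem_ker, hP] at h2
    exact (mul_eq_zero.mp h2).resolve_left hx1

end H61.Geo
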