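import Pool.Agent.H61.Geo.Scale
import Pool.Agent.H61.Geo.HomInf
import Pool.Agent.H61.Geo.HomCoarsen
import Pool.Agent.H61.Geo.ExistsLam
import Pool.Agent.H61.Geo.ExistsV
import Pool.Agent.H61.Geo.Doubl
import Pool.Agent.H61.Geo.Field
import Pool.Agent.H61.Geo.Phi
import Pool.Agent.H61.Geo.Final
import Pool.Agent.H61.Geo.Disj

/-!
# The geometry half of the weak Amoroso-David theorem (assembly)
-/

open MvPolynomial IntermediateField

namespace H61.Geo

/-- the choice of the scale (5.4) -/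
theorem exists_scale (r R : ℕ) (S : Finset ℕ) (hp : ∀ l ∈ S, 1 ≤ l) (g : ℕ → ℕ → ℕ)
    (hg : ∀ l ∈ S, ∀ A, g l A ≤ r) (hanti : ∀ l ∈ S, ∀ A A', A ≤ A' → g l A' ≤ g l A)
    (A : ℕ → ℕ) (hA : ∀ i ≤ r, A i ≤ A (i + 1)) (hR : R < ∏ l ∈ S, l) (hR1 : 1 ≤ R) :
    ∃ i ≤ r, ∃ d, R < ∏ l ∈ S.filter (fun l => d ≤ g l (A (i + 1))), l ∧
      ∃ l ∈ S, g l (A i) ≤ d := by
  classical
  let P : ℕ → ℕ → Prop := fun i d => R < ∏ l ∈ S.filter (fun l => d ≤ g l (A i)), l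
  have hP0 : ∀ i, P i 0 := by
    intro i
    have h1 : S.filter (fun l => 0 ≤ g l (A i)) = S := by simp
    change R < ∏ l ∈ S.filter (fun l => 0 ≤ g l (A i)), l
    rw [h1]; exact hR
  have hmono : ∀ i ≤ r, ∀ d, P (i + 1) d → P i d := by
    intro i hi d hd
    refine lt_of_lt_of_le hd ?_
    refine Finset.prod_le_prod_of_subset_of_one_le' ?_ ?_
    · intro l hl
      rw [Finset.mem_filter] at hl ⊢
      exact ⟨hl.1, hl.2.trans (hanti l hl.1 _ _ (hA i hi))⟩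
    · intro l hl _
      exact hp l (Finset.mem_filter.1 hl).1
  let f : ℕ → ℕ := fun i => Nat.findGreatest (P i) r
  have hf0 : f 0 ≤ r := Nat.findGreatest_le r
  have hf : ∀ i ≤ r, f (i + 1) ≤ f i := by
    intro i hi
    have h1 : P (i + 1) (f (i + 1)) := Nat.findGreatest_spec (P := P (i + 1)) (Nat.zero_le r) (hP0 _)
    exact Nat.le_findGreatest (Nat.findGreatest_le r) (hmono i hi _ h1)
  obtain ⟨i, hi, hfi⟩ := pigeon f r hf0 hf
  refine ⟨i, hi, f i, ?_, ?_⟩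
  · have h1 : P (i + 1) (f (i + 1)) := Nat.findGreatest_spec (P := P (i + 1)) (Nat.zero_le r) (hP0 _)
    rw [hfi] at h1
    exact h1
  · by_cases hr : f i = r
    · have hne : S.Nonempty := by
        rw [Finset.nonempty_iff_ne_empty]
        rintro rfl
        simp at hR
        omega
      obtain ⟨l, hl⟩ := hne
      exact ⟨l, hl, by rw [hr]; exact hg l hl _⟩
    · have hlt : f i < r := lt_of_le_of_ne (Nat.findGreatest_le r) hr
      have h2 : ¬ P i (f i + 1) := Nat.findGreatest_is_greatest (Nat.lt_succ_self _) hlt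
      by_contra hcon
      push Not at hcon
      apply h2
      have h3 : S.filter (fun l => f i + 1 ≤ g l (A i)) = S := by
        rw [Finset.filter_eq_self]
        exact fun l hl => hcon l hl
      change R < ∏ l ∈ S.filter (fun l => f i + 1 ≤ g l (A i)), l
      rw [h3]
      exact hR

/-- products of two elements of the span of a class -/
theorem Bsp_mul {k W : Type*} [Field k] [Field W] [Algebra k W] {r : ℕ} {x : Fin r → W}
    (hx : ∀ i, x i ≠ 0) (V : Submodule ℚ (Fin r → ℚ)) {a : ℕ} {u v : W}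
    (hu : u ∈ Bsp k V x a) (hv : v ∈ Bsp k V x a) : u * v ∈ Bsp k V x (2 * a) := by
  have h1 : u * v ∈ (Bsp k V x a) * (Bsp k V x a) := Submodule.mul_mem_mul hu hv
  refine (?_ : (Bsp k V x a) * (Bsp k V x a) ≤ Bsp k V x (2 * a)) h1
  unfold Bsp
  rw [Submodule.span_mul_span, Submodule.span_le]
  rintro _ ⟨_, ⟨v1, hv1, rfl⟩, _, ⟨v2, hv2, rfl⟩, rfl⟩
  refine Submodule.subset_span ⟨v1 + v2, ⟨(LamV V).add_mem hv1.1 hv2.1, fun i => ?_⟩, mon_add hx v1 v2⟩
  have h1 := abs_le.1 (hv1.2 i)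
  have h2 := abs_le.1 (hv2.2 i)
  rw [Pi.add_apply, abs_le]
  push_cast
  constructor <;> linarith [h1.1, h1.2, h2.1, h2.2]

/-- a linear map with `mon x v ↦ mon y v` on the double box is multiplicative on the span -/
theorem phi_mul {k W W' : Type*} [Field k] [Field W] [Field W'] [Algebra k W] [Algebra k W']
    {r : ℕ} {x : Fin r → W} {y : Fin r → W'} (hx : ∀ i, x i ≠ 0) (hy : ∀ i, y i ≠ 0) {a : ℕ}
    (φ : W →ₗ[k] W') (hφ : ∀ v : Fin r → ℤ, (∀ i, |v i| ≤ ((2 * a : ℕ) : ℤ)) → φ (mon x v) = mon y v)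
    (V : Submodule ℚ (Fin r → ℚ)) {u v : W} (hu : u ∈ Bsp k V x a) (hv : v ∈ Bsp k V x a) :
    φ (u * v) = φ u * φ v := by
  unfold Bsp at hu hv
  induction hu using Submodule.span_induction with
  | mem u hu =>
    obtain ⟨v1, hv1, rfl⟩ := hu
    induction hv using Submodule.span_induction with
    | mem v hv =>
      obtain ⟨v2, hv2, rfl⟩ := hv
      rw [← mon_add hx, hφ, hφ, hφ, mon_add hy]
      · intro i
        refine (hv2.2 i).trans ?_
        push_cast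
        linarith [(abs_nonneg (v2 i)).trans (hv2.2 i)]
      · intro i
        refine (hv1.2 i).trans ?_
        push_cast
        linarith [(abs_nonneg (v1 i)).trans (hv1.2 i)]
      · intro i
        have h1 := abs_le.1 (hv1.2 i)
        have h2 := abs_le.1 (hv2.2 i)
        rw [Pi.add_apply, abs_le]
        push_cast
        constructor <;> linarith [h1.1, h1.2, h2.1, h2.2]
    | zero => simp
    | add v w _ _ ih1 ih2 => rw [mul_add, map_add, ih1, ih2, map_add, mul_add]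
    | smul c v _ ih => rw [mul_smul_comm, map_smul, ih, map_smul, mul_smul_comm]
  | zero => simp
  | add u w _ _ ih1 ih2 => rw [add_mul, map_add, ih1, ih2, map_add, add_mul]
  | smul c u _ ih => rw [smul_mul_assoc, map_smul, ih, map_smul, smul_mul_assoc]

/-- GEOMETRY THEOREM. `a` a point with nonzero coordinates in a field `F` of finite degree, whose
powers `a^m1`, `a^m2` (`m1 ≠ m2`) satisfy the same relations of box degree at most `A (r+1)`;
scales `A 0, …, A (r+1)` with `[F:ℚ] < (A 0 + 1)^r`; a finite nonempty set of primes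
`l ≥ 2^(k+2)`, with `ℚ(ζ_l)` linearly disjoint from `F`, with `4 l^r A i ≤ A (i+1)`, product larger
than `r! A(r+1)^r`, and with `H(β^l, L) ≤ C H(β, L)`, `β = a^m1`, for `L ≤ A (r+1)`. Then `a` is
multiplicatively dependent modulo roots of unity. -/
theorem geometry {W : Type*} [Field W] [Algebra ℚ W] [Normal ℚ W] {r : ℕ} (hr : 1 ≤ r) (C k : ℕ)
    (hk : ((12 * r) ^ r * (2 ^ r * C)) * 2 ^ k < 3 ^ k)
    (a : Fin r → W) (ha : ∀ i, a i ≠ 0) (F : IntermediateField ℚ W) [FiniteDimensional ℚ F]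
    (haF : ∀ i, a i ∈ F) (m1 m2 : ℕ) (hm1 : 0 < m1) (hm2 : 0 < m2) (hm : m1 ≠ m2)
    (S : Finset ℕ) (hne : S.Nonempty) (hS : ∀ l ∈ S, l.Prime) (hlow : ∀ l ∈ S, 2 ^ (k + 2) ≤ l)
    (Z : ℕ → W) (hZ : ∀ l ∈ S, IsPrimitiveRoot (Z l) l)
    (hdis : ∀ l ∈ S, (ℚ⟮Z l⟯).LinearDisjoint F)
    (A : ℕ → ℕ) (hA0 : Module.finrank ℚ F < (A 0 + 1) ^ r) (hApos : 1 ≤ A 0)
    (hstep : ∀ i ≤ r, ∀ l ∈ S, 4 * l ^ r * A i ≤ A (i + 1))
    (hprod : r.factorial * (A (r + 1)) ^ r < ∏ l ∈ S, l)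
    (hC : ∀ l ∈ S, ∀ L ≤ A (r + 1), Hd ℚ (pw (pw a m1) l) L ≤ C * Hd ℚ (pw a m1) L)
    (hE : ∀ P ∈ restrictDegree (Fin r) ℚ (A (r + 1)),
      aeval (pw a m1) P = 0 ↔ aeval (pw a m2) P = 0) :
    ∃ lam : Fin r → ℤ, lam ≠ 0 ∧ ∃ n : ℕ, 0 < n ∧ (mon a lam) ^ n = 1 := by
  classical
  set x : Fin r → W := pw a m1 with hxdef
  have hx0 : ∀ i, x i ≠ 0 := fun i => pow_ne_zero _ (ha i)
  have hy0 : ∀ i, pw a m2 i ≠ 0 := fun i => pow_ne_zero _ (ha i)
  have hxF : ∀ i, x i ∈ F := fun i => pow_mem (haF i) _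
  obtain ⟨l1, hl1⟩ := hne
  -- the scales increase
  have hmono1 : ∀ i ≤ r, A i ≤ A (i + 1) := by
    intro i hi
    have h1 := hstep i hi l1 hl1
    have h2 : 1 ≤ 4 * l1 ^ r := by
      have := pow_pos (hS l1 hl1).pos r
      omega
    exact (Nat.le_mul_of_pos_left (A i) h2).trans h1
  have hmono : ∀ j ≤ r + 1, ∀ i ≤ j, A i ≤ A j := by
    intro j
    induction j with
    | zero => intro _ i hi; rw [Nat.le_zero.1 hi]
    | succ j ih =>
      intro hj i hi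
      rcases Nat.lt_or_ge i (j + 1) with h | h
      · exact (ih (by omega) i (by omega)).trans (hmono1 j (by omega))
      · rw [le_antisymm hi h]
  have hpos : ∀ i ≤ r + 1, 1 ≤ A i := fun i hi => hApos.trans (hmono i hi 0 (Nat.zero_le _))
  -- the data of the primes
  have hloc : ∀ l : ℕ, ∃ (g : ℕ → ℕ) (M : ℕ → AddSubgroup (Fin r → ℤ)), l ∈ S →
      (∀ A, g A ≤ r) ∧ (∀ A A', A ≤ A' → g A' ≤ g A) ∧
      (∀ A, ∃ G : AddSubgroup (Fin r → ZMod l), Nat.card G = l ^ g A ∧ M A = ML G) ∧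
      (∀ A, HomM ℚ (M A) x A) ∧
      (∀ A L, 2 * l ^ r * A ≤ l * L → Hd ℚ (pw x l) L ≤ C * Hd ℚ x L →
        Hd ℚ x (l * L) ≤ 2 ^ r * C * l ^ g A * Hd ℚ x L) := by
    intro l
    by_cases hl : l ∈ S
    · obtain ⟨g, M, h⟩ := local_data (hS l hl) x F hxF (Z l) (hZ l hl) (hdis l hl) C
      exact ⟨g, M, fun _ => h⟩
    · exact ⟨fun _ => 0, fun _ => ⊤, fun h => absurd h hl⟩
  choose g M hgM using hloc
  -- the scale
  have hR1 : 1 ≤ r.factorial * (A (r + 1)) ^ r :=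
    Nat.succ_le_of_lt (Nat.mul_pos (Nat.factorial_pos r) (pow_pos (hpos (r + 1) le_rfl) r))
  obtain ⟨i, hi, d, hheavy, l, hlS, hgl⟩ := exists_scale r (r.factorial * (A (r + 1)) ^ r) S
    (fun l hl => (hS l hl).one_lt.le) g (fun l hl => (hgM l hl).1) (fun l hl => (hgM l hl).2.1) A
    hmono1 hprod hR1
  set T : Finset ℕ := S.filter (fun l => d ≤ g l (A (i + 1))) with hT
  have hTS : ∀ l ∈ T, l ∈ S := fun l hl => (Finset.mem_filter.1 hl).1
  obtain ⟨V, hVd, hV⟩ := exists_V (r := r) (g := d) (hpos (i + 1) (by omega)) T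
    (fun l hl => hS l (hTS l hl)) (fun l => M l (A (i + 1))) (by
      intro l hl
      obtain ⟨G, hG1, hG2⟩ := (hgM l (hTS l hl)).2.2.1 (A (i + 1))
      refine ⟨G, ?_, hG2⟩
      rw [hG1]
      exact Nat.pow_le_pow_right (hS l (hTS l hl)).pos (Finset.mem_filter.1 hl).2)
    (lt_of_le_of_lt (Nat.mul_le_mul_left _ (Nat.pow_le_pow_left
      (hmono (r + 1) le_rfl (i + 1) (by omega)) r)) hheavy)
  have hH : HomM ℚ (LamV V) x (A (i + 1)) :=
    (HomM.iInf T (fun l => M l (A (i + 1))) fun l hl => (hgM l (hTS l hl)).2.2.2.1 _).coarsen hV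
  -- the slope for the prime l at the scale A i
  have hlp := hS l hlS
  set L : ℕ := l ^ (r - 1) * A i with hLdef
  have hlL : l * L = l ^ r * A i := by
    rw [hLdef, ← mul_assoc, ← pow_succ', Nat.sub_add_cancel hr]
  have hst := hstep i hi l hlS
  have h4lL : 4 * (l * L) ≤ A (i + 1) := by rw [hlL, ← mul_assoc]; exact hst
  have hLpos : 1 ≤ L := Nat.mul_pos (pow_pos hlp.pos _) (hpos i (by omega))
  have h4L : 4 * L ≤ A (i + 1) :=
    (Nat.mul_le_mul_left 4 (Nat.le_mul_of_pos_left L hlp.pos)).trans h4lL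
  have hAi : A (i + 1) ≤ A (r + 1) := hmono (r + 1) le_rfl (i + 1) (by omega)
  have hslope : Hd ℚ x (l * (4 * L)) ≤ (2 ^ r * C) * l ^ d * Hd ℚ x (4 * L) := by
    have h1 := (hgM l hlS).2.2.2.2 (A i) (4 * L) (by
      have : l * (4 * L) = 4 * (l ^ r * A i) := by rw [← hlL]; ring
      rw [this, mul_assoc]
      omega) (hC l hlS (4 * L) (h4L.trans hAi))
    refine h1.trans (Nat.mul_le_mul_right _ (Nat.mul_le_mul_left _ ?_))
    exact Nat.pow_le_pow_right hlp.pos hgl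
  have hdoub := doubling hr hx0 hH hLpos hlp.two_le h4lL hVd hslope
  -- dyadic steps
  have hk2 := hlow l hlS
  have hbk : bb ℚ V x (2 ^ k * (4 * L)) ≤
      ((12 * r) ^ r * (2 ^ r * C)) * bb ℚ V x (4 * L) := by
    refine (bb_mono V ?_).trans hdoub
    calc 2 ^ k * (4 * L) = 2 ^ (k + 2) * L := by ring
      _ ≤ l * L := Nat.mul_le_mul_right _ hk2
  obtain ⟨j, hj, hdd⟩ := dyadic (bb ℚ V x) (4 * L) k ((12 * r) ^ r * (2 ^ r * C)) (bb_pos V _) hk hbk
  set L1 : ℕ := 2 ^ j * (4 * L) with hL1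
  have hL1a : A 0 ≤ L1 := by
    have h1 : A 0 ≤ A i := hmono i (by omega) 0 (Nat.zero_le _)
    have h2 : A i ≤ L := Nat.le_mul_of_pos_left _ (pow_pos hlp.pos _)
    have h3 : L ≤ 4 * L := by omega
    have h4 : 4 * L ≤ L1 := Nat.le_mul_of_pos_left _ (pow_pos (by norm_num) _)
    omega
  have hL1b : 2 * (2 * L1) ≤ A (r + 1) := by
    refine le_trans ?_ (h4lL.trans hAi)
    have h1 : 2 ^ (j + 1) ≤ 2 ^ k := Nat.pow_le_pow_right (by norm_num) hj
    calc 2 * (2 * L1) = 2 * (2 ^ (j + 1) * (4 * L)) := by rw [hL1]; ring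
      _ ≤ 2 * (2 ^ k * (4 * L)) := Nat.mul_le_mul_left _ (Nat.mul_le_mul_right _ h1)
      _ = 2 * (2 ^ (k + 2) * L) := by ring
      _ ≤ 2 * (l * L) := Nat.mul_le_mul_left _ (Nat.mul_le_mul_right _ hk2)
      _ ≤ 4 * (l * L) := Nat.mul_le_mul_right _ (by norm_num)
  -- the short vector
  obtain ⟨lam, hlam0, hlamV, hlamA⟩ := exists_lam hx0 F hxF hH (hmono (i + 1) (by omega) 0
    (Nat.zero_le _)) hA0
  refine ⟨lam, hlam0, ?_⟩
  -- the linear map
  obtain ⟨φ, hφ1, hφ2⟩ := exists_phi (k := ℚ) x (pw a m2) hx0 hy0 (2 * L1)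
    (fun P hP => hE P (rd_mono hL1b hP))
  have hu : mon x lam ∈ Bsp ℚ V x L1 :=
    Submodule.subset_span ⟨lam, ⟨hlamV, fun i => (hlamA i).trans (by exact_mod_cast hL1a)⟩, rfl⟩
  refine finalContra (mon a lam) (mon_ne_zero ha lam) hm1 hm2 hm fun p hp => ?_
  have h1 := fieldLemma (Bsp ℚ V x L1) (Bsp ℚ V x (2 * L1)) (one_mem_Bsp V L1)
    (fun u hu v hv => Bsp_mul hx0 V hu hv) hdd φ
    (fun w hw h0 => hφ2 w (Submodule.span_mono (Set.image_mono fun v hv => hv.2) hw) h0)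
    (fun u hu v hv => phi_mul hx0 hy0 φ hφ1 V hu hv) (mon x lam) hu p
    (by rw [hxdef, mon_pw]; exact hp)
  rw [hφ1 lam (fun i => (hlamA i).trans (by exact_mod_cast (by omega : A 0 ≤ 2 * L1))), mon_pw] at h1
  exact h1

end H61.Geo
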