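import Pool.Agent.H61.Geo.Twist

/-!
# Homogeneity of the relations with respect to a subgroup of `ℤ^r` (5.2)
-/

open MvPolynomial

namespace H61.Geo

open Classical in
/-- the part of a polynomial supported on a set of exponents -/
noncomputable def part {k : Type*} [Field k] {r : ℕ} (P : MvPolynomial (Fin r) k)
    (S : Set (Fin r → ℤ)) : MvPolynomial (Fin r) k :=
  ∑ s ∈ P.support.filter (fun s => (fun i => (s i : ℤ)) ∈ S), monomial s (coeff s P)

/-- all relations over `k` of box degree at most `A` at `x` are homogeneous for `M`: the part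
supported on any class modulo `M` is again a relation -/
def HomM (k : Type*) {W : Type*} [Field k] [Field W] [Algebra k W] {r : ℕ}
    (M : AddSubgroup (Fin r → ℤ)) (x : Fin r → W) (A : ℕ) : Prop :=
  ∀ P ∈ restrictDegree (Fin r) k A, aeval x P = 0 →
    ∀ v0 : Fin r → ℤ, aeval x (part P {v | v - v0 ∈ M}) = 0

/-- the vectors of `ℤ^r` orthogonal to a subgroup of `(ℤ/l)^r` -/
def ML {r l : ℕ} (G : AddSubgroup (Fin r → ZMod l)) : AddSubgroup (Fin r → ℤ) where
  carrier := {v | ∀ t ∈ G, ∑ i, t i * (v i : ZMod l) = 0}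
  add_mem' := by
    intro a b ha hb t ht
    have := ha t ht
    have := hb t ht
    simp only [Pi.add_apply, Int.cast_add, mul_add, Finset.sum_add_distrib, *, add_zero]
  zero_mem' := by intro t _; simp
  neg_mem' := by
    intro a ha t ht
    have := ha t ht
    simp only [Pi.neg_apply, Int.cast_neg, mul_neg, Finset.sum_neg_distrib, *, neg_zero]

theorem mem_ML {r l : ℕ} {G : AddSubgroup (Fin r → ZMod l)} {v : Fin r → ℤ} :
    v ∈ ML G ↔ ∀ t ∈ G, ∑ i, t i * (v i : ZMod l) = 0 := Iff.rfl

/-- the lattice of integer vectors of a rational subspace -/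
def LamV {r : ℕ} (V : Submodule ℚ (Fin r → ℚ)) : AddSubgroup (Fin r → ℤ) where
  carrier := {v | (fun i => (v i : ℚ)) ∈ V}
  add_mem' := by
    intro a b ha hb
    have := V.add_mem ha hb
    simpa [Pi.add_def] using this
  zero_mem' := by
    have h : (fun i => (((0 : Fin r → ℤ) i : ℤ) : ℚ)) = (0 : Fin r → ℚ) := by funext i; simp
    change (fun i => (((0 : Fin r → ℤ) i : ℤ) : ℚ)) ∈ V
    rw [h]
    exact V.zero_mem
  neg_mem' := by
    intro a ha
    have := V.neg_mem ha
    simpa [Pi.neg_def] using this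

theorem mem_LamV {r : ℕ} {V : Submodule ℚ (Fin r → ℚ)} {v : Fin r → ℤ} :
    v ∈ LamV V ↔ (fun i => (v i : ℚ)) ∈ V := Iff.rfl

theorem part_mem {k : Type*} [Field k] {r : ℕ} {P : MvPolynomial (Fin r) k} {A : ℕ}
    (hP : P ∈ restrictDegree (Fin r) k A) (S : Set (Fin r → ℤ)) :
    part P S ∈ restrictDegree (Fin r) k A := by
  classical
  unfold part
  refine Submodule.sum_mem _ fun s hs => rd_monomial _ ?_
  exact mem_rd.1 hP s (Finset.mem_filter.1 hs).1

open Classical in
theorem coeff_part {k : Type*} [Field k] {r : ℕ} (P : MvPolynomial (Fin r) k)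
    (S : Set (Fin r → ℤ)) (s : Fin r →₀ ℕ) :
    coeff s (part P S) = if (fun i => (s i : ℤ)) ∈ S then coeff s P else 0 := by
  unfold part
  rw [coeff_sum]
  simp only [coeff_monomial]
  rw [Finset.sum_ite_eq' (Finset.filter _ _) s]
  simp only [Finset.mem_filter, mem_support_iff]
  by_cases h : (fun i => (s i : ℤ)) ∈ S <;> by_cases h' : coeff s P = 0 <;> simp [h, h']

theorem part_part {k : Type*} [Field k] {r : ℕ} (P : MvPolynomial (Fin r) k)
    (S T : Set (Fin r → ℤ)) : part (part P S) T = part P (S ∩ T) := by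
  classical
  ext s
  simp only [coeff_part, Set.mem_inter_iff]
  by_cases h : (fun i => (s i : ℤ)) ∈ S <;> by_cases h' : (fun i => (s i : ℤ)) ∈ T <;> simp [h, h']

theorem part_univ {k : Type*} [Field k] {r : ℕ} (P : MvPolynomial (Fin r) k) :
    part P Set.univ = P := by
  classical
  ext s
  simp [coeff_part]

end H61.Geo
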