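import Pool.Agent.H61.Geo.HomDefs

/-! # GEO-7: homogeneity for the orthogonal of the stabiliser -/

open MvPolynomial

namespace H61.Geo

variable {k W : Type*} [Field k] [Field W] [Algebra k W] {r : ℕ} {x : Fin r → W} {A : ℕ}

theorem addChar_sum {ι M R : Type*} [AddCommMonoid M] [CommMonoid R] (ψ : AddChar M R)
    (s : Finset ι) (f : ι → M) : ψ (∑ i ∈ s, f i) = ∏ i ∈ s, ψ (f i) := by
  classical
  induction s using Finset.induction_on with
  | empty => simp
  | insert a s ha ih => rw [Finset.sum_insert ha, Finset.prod_insert ha, AddChar.map_add_eq_mul, ih]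

/-- GEO-7. The relations are homogeneous for the orthogonal of the stabiliser.
Proof: let `Q` be the image of `P` in `MvPolynomial (Fin r) K` (`MvPolynomial.map (algebraMap k K)`;
in `rd A`, and `aeval y Q = aeval y P` for every point `y` of `W`). `G = Stab ζ _ x A`. For all
`t ∈ G`: `0 = aeval (tw ζ t x) P = ∑_s c_s ∏ (ζ^(t_i.val))^(s_i) x^s` (in `W`). Multiply by
`∏ (ζ^(t_i.val))^(-v0_i)` (zpow, or use `v0_i` replaced by a natural number congruent to it modulo
`l`) and sum over `t ∈ G`:
`0 = ∑_s c_s x^s S(s - v0)`, `S(w) = ∑_{t ∈ G} ζ^(∑ t_i.val w_i)`, and `S(w) = |G|` if `w ∈ ML G`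
(the exponent is divisible by `l`, `(ZMod.intCast_zmod_eq_zero..)`), while `S(w) = 0` otherwise: pick
`t0 ∈ G` with `∑ t0_i w_i ≠ 0` in `ZMod l`; translation by `t0` multiplies `S(w)` by
`ζ^(∑ t0_i.val w_i) ≠ 1` (`IsPrimitiveRoot.zpow_eq_one_iff_dvd`). As `W` has characteristic zero
`|G| ≠ 0`, so `∑_{s, s - v0 ∈ ML G} c_s x^s = 0`, which is the claim (`part`). -/
theorem hom_stab {K : Type*} [Field K] [Algebra k K] [Algebra K W] [IsScalarTower k K W]
    [CharZero W] {l : ℕ} [NeZero l] {ζ : K} (hζ : IsPrimitiveRoot ζ l) (x : Fin r → W) (A : ℕ) :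
    HomM k (ML (Stab ζ hζ.pow_eq_one x A)) x A := by
  classical
  intro P hP h0 v0
  set G : AddSubgroup (Fin r → ZMod l) := Stab ζ hζ.pow_eq_one x A with hG
  have hz : IsPrimitiveRoot (algebraMap K W ζ) l :=
    hζ.map_of_injective (FaithfulSMul.algebraMap_injective K W)
  set z : W := algebraMap K W ζ with hzdef
  set ψ : AddChar (ZMod l) W := AddChar.zmodChar l hz.pow_eq_one with hψ
  -- the characters
  let hom : (Fin r → ℤ) → (G →+ ZMod l) := fun w =>
    { toFun := fun t => ∑ i, (t : Fin r → ZMod l) i * (w i : ZMod l)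
      map_zero' := by simp
      map_add' := by
        intro a b
        simp [add_mul, Finset.sum_add_distrib] }
  let φ : (Fin r → ℤ) → AddChar G W := fun w => ψ.compAddMonoidHom (hom w)
  have hφ : ∀ w (t : G), φ w t = ψ (∑ i, (t : Fin r → ZMod l) i * (w i : ZMod l)) := by
    intro w t; rfl
  have hS : ∀ w, ∑ t : G, φ w t = if w ∈ ML G then (Fintype.card G : W) else 0 := by
    intro w
    rw [AddChar.sum_eq_ite]
    congr 1
    rw [eq_iff_iff]
    constructor
    · intro h t ht
      have h1 : φ w ⟨t, ht⟩ = 1 := by rw [h]; simp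
      rw [hφ, hψ, AddChar.zmodChar_apply] at h1
      have h2 := (hz.pow_eq_one_iff_dvd _).1 h1
      have h3 := Nat.eq_zero_of_dvd_of_lt h2 (ZMod.val_lt _)
      exact (ZMod.val_eq_zero _).1 h3
    · intro h
      ext t
      rw [hφ, h t t.2]
      simp
  -- evaluation of the polynomial at twisted points
  have hev : ∀ t : G, ∑ s ∈ P.support, algebraMap k W (coeff s P) *
      ((∏ i, x i ^ s i) * φ (fun i => (s i : ℤ)) t) = 0 := by
    intro t
    have h1 : aeval (tw ζ (t : Fin r → ZMod l) x) (MvPolynomial.map (algebraMap k K) P) = 0 := by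
      refine t.2 _ ?_ ?_
      · rw [mem_rd] at hP ⊢
        intro s hs
        exact hP s (support_map_subset _ _ hs)
      · rw [aeval_map_algebraMap]; exact h0
    rw [aeval_map_algebraMap, aeval_def, eval₂_eq'] at h1
    rw [← h1]
    refine Finset.sum_congr rfl fun s _ => ?_
    congr 1
    have h2 : φ (fun i => (s i : ℤ)) t = ∏ i, (z ^ ((t : Fin r → ZMod l) i).val) ^ s i := by
      rw [hφ, addChar_sum]
      refine Finset.prod_congr rfl fun i _ => ?_
      have h3 : (t : Fin r → ZMod l) i * ((((s i : ℕ) : ℤ)) : ZMod l) =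
          (s i) • ((t : Fin r → ZMod l) i) := by
        rw [nsmul_eq_mul]; push_cast; ring
      rw [h3, AddChar.map_nsmul_eq_pow, hψ, AddChar.zmodChar_apply]
    rw [h2, ← Finset.prod_mul_distrib]
    refine Finset.prod_congr rfl fun i _ => ?_
    simp only [tw, map_pow, mul_pow]
    ring
  -- sum over the group
  have hsum : ∑ s ∈ P.support, algebraMap k W (coeff s P) *
      ((∏ i, x i ^ s i) * (if ((fun i => (s i : ℤ)) - v0) ∈ ML G then (Fintype.card G : W) else 0))
      = 0 := by
    have h1 : ∑ t : G, φ (-v0) t * ∑ s ∈ P.support, algebraMap k W (coeff s P) *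
      ((∏ i, x i ^ s i) * φ (fun i => (s i : ℤ)) t) = 0 := by
      refine Finset.sum_eq_zero fun t _ => ?_
      rw [hev t, mul_zero]
    refine Eq.trans ?_ h1
    simp only [Finset.mul_sum]
    rw [Finset.sum_comm]
    refine Finset.sum_congr rfl fun s _ => ?_
    rw [← hS, Finset.mul_sum, Finset.mul_sum]
    refine Finset.sum_congr rfl fun t _ => ?_
    have h2 : φ ((fun i => (s i : ℤ)) - v0) t = φ (-v0) t * φ (fun i => (s i : ℤ)) t := by
      rw [hφ, hφ, hφ, ← AddChar.map_add_eq_mul]
      congr 1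
      rw [← Finset.sum_add_distrib]
      refine Finset.sum_congr rfl fun i _ => ?_
      simp only [Pi.sub_apply, Pi.neg_apply]
      push_cast
      ring
    rw [h2]; ring
  have hcard : (Fintype.card G : W) ≠ 0 := Nat.cast_ne_zero.2 Fintype.card_ne_zero
  have hfin : (Fintype.card G : W) * aeval x (part P {v | v - v0 ∈ ML G}) = 0 := by
    rw [← hsum]
    unfold part
    rw [map_sum, Finset.sum_filter, Finset.mul_sum]
    refine Finset.sum_congr rfl fun s _ => ?_
    simp only [Set.mem_ofPred_eq]
    split_ifs with h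
    · rw [aeval_monomial, Finsupp.prod_fintype _ _ (by simp)]
      ring
    · simp
  exact (mul_eq_zero.1 hfin).resolve_left hcard

end H61.Geo
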