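import Pool.Agent.H61.Geo.FinBox

/-! # GEO-12b: lower bound by classes -/

open MvPolynomial

namespace H61.Geo

variable {k W : Type*} [Field k] [Field W] [Algebra k W] {r : ℕ} {x : Fin r → W}

/-- an element of the span of the monomials of the lattice of `V`, shifted, is the value of a
polynomial supported on one class -/
theorem lower_poly (hx : ∀ i, x i ≠ 0) {V : Submodule ℚ (Fin r → ℚ)} {a : ℕ}
    {v : Fin r → ℤ} (hv : ∀ i, |v i| ≤ (a : ℤ)) {u : W} (hu : u ∈ Bsp k V x a) :
    ∃ Q ∈ restrictDegree (Fin r) k (4 * a),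
      (∀ s : Fin r →₀ ℕ, coeff s Q ≠ 0 →
        (fun i => (s i : ℤ)) - (v + fun _ => 2 * (a : ℤ)) ∈ LamV V) ∧
      aeval x Q = mon x (v + fun _ => 2 * (a : ℤ)) * u := by
  classical
  unfold Bsp at hu
  induction hu using Submodule.span_induction with
  | mem y hy =>
    obtain ⟨w, ⟨hw, hwa⟩, rfl⟩ := hy
    have hnn : ∀ i, 0 ≤ v i + 2 * (a : ℤ) + w i ∧ v i + 2 * (a : ℤ) + w i ≤ 4 * (a : ℤ) := by
      intro i
      have h1 := abs_le.1 (hv i)
      have h2 := abs_le.1 (hwa i)
      omega
    let s0 : Fin r →₀ ℕ := Finsupp.equivFunOnFinite.symm (fun i => (v i + 2 * (a : ℤ) + w i).toNat)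
    have hs0 : ∀ i, ((s0 i : ℕ) : ℤ) = v i + 2 * (a : ℤ) + w i := by
      intro i
      simp only [s0, Finsupp.coe_equivFunOnFinite_symm]
      exact Int.toNat_of_nonneg (hnn i).1
    refine ⟨monomial s0 1, rd_monomial 1 ?_, ?_, ?_⟩
    · intro i
      have := hs0 i
      have := (hnn i).2
      omega
    · intro s hs
      have h1 : s0 = s := by
        by_contra h
        rw [coeff_monomial, if_neg h] at hs
        exact hs rfl
      subst h1
      have h2 : (fun i => ((s0 i : ℕ) : ℤ)) - (v + fun _ => 2 * (a : ℤ)) = w := by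
        funext i
        simp only [Pi.sub_apply, Pi.add_apply, hs0]
        ring
      rw [h2]
      exact hw
    · rw [aeval_monomial, map_one, one_mul, Finsupp.prod_fintype _ _ (by simp), ← mon_add hx]
      unfold mon
      refine Finset.prod_congr rfl fun i _ => ?_
      rw [← zpow_natCast, hs0]
      simp only [Pi.add_apply]
  | zero =>
    exact ⟨0, Submodule.zero_mem _, by simp, by simp⟩
  | add y z _ _ hy hz =>
    obtain ⟨Q, hQ, hQ1, hQ2⟩ := hy
    obtain ⟨R, hR, hR1, hR2⟩ := hz
    refine ⟨Q + R, Submodule.add_mem _ hQ hR, ?_, ?_⟩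
    · intro s hs
      by_cases h : coeff s Q = 0
      · refine hR1 s ?_
        intro h'
        rw [coeff_add, h, h', add_zero] at hs
        exact hs rfl
      · exact hQ1 s h
    · rw [map_add, hQ2, hR2, mul_add]
  | smul c y _ hy =>
    obtain ⟨Q, hQ, hQ1, hQ2⟩ := hy
    refine ⟨c • Q, Submodule.smul_mem _ _ hQ, ?_, ?_⟩
    · intro s hs
      refine hQ1 s ?_
      intro h
      rw [coeff_smul, h, smul_zero] at hs
      exact hs rfl
    · rw [map_smul, hQ2, mul_smul_comm]

/-- GEO-12b. Lower bound.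
Proof: let `C` run through the `nu V a` classes meeting `{|v| ≤ a}`, choose `v_C` in the class,
`|v_C| ≤ a`, and put `U_C = span {mon x (v_C + w) | w ∈ LamV V, |w| ≤ a}` (dimension `bb k V x a`:
multiplication by `mon x v_C ≠ 0`). By homogeneity the `U_C` are independent: if
`∑_C u_C = 0`, `u_C = ∑_w c_(C,w) mon x (v_C + w)`, multiply by `x^(2a,…,2a)`: we get a polynomial
`P ∈ rd (4 a)`, `P(x) = 0`, whose part in the class of `v_C + (2a,…,2a)` is exactly the `C`-part,
so `u_C = 0` (`HomM`; classes modulo `LamV V` = equality of `cls V`). So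
`nu * bb = ∑_C dim U_C = dim (⨆ U_C) ≤ dim span {mon x v | |v| ≤ 2 a} = Hd k x (4 a)`
(`finrank_box`). -/
theorem lower (hx : ∀ i, x i ≠ 0) {V : Submodule ℚ (Fin r → ℚ)} {A a : ℕ}
    (hH : HomM k (LamV V) x A) (ha : 4 * a ≤ A) : nu V a * bb k V x a ≤ Hd k x (4 * a) := by
  classical
  set S : Set ((Fin r → ℚ) ⧸ V) := cls V '' {v | ∀ i, |v i| ≤ (a : ℤ)} with hS
  have hSfin : S.Finite := (finite_box a).image _
  have : Fintype S := hSfin.fintype
  have hrep : ∀ C : S, ∃ v : Fin r → ℤ, (∀ i, |v i| ≤ (a : ℤ)) ∧ cls V v = C := by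
    intro C
    obtain ⟨v, hv, h⟩ := C.2
    exact ⟨v, hv, h⟩
  choose rep hrep1 hrep2 using hrep
  let Φ : (S → Bsp k V x a) →ₗ[k] W :=
    ∑ C : S, (LinearMap.mulLeft k (mon x (rep C))) ∘ₗ (Bsp k V x a).subtype ∘ₗ LinearMap.proj C
  have hΦ : ∀ f, Φ f = ∑ C : S, mon x (rep C) * (f C : W) := by
    intro f
    simp [Φ, LinearMap.sum_apply]
  -- injectivity
  have hinj : Function.Injective Φ := by
    rw [← LinearMap.ker_eq_bot, LinearMap.ker_eq_bot']
    intro f hf
    rw [hΦ] at hf
    have hQ : ∀ C : S, ∃ Q ∈ restrictDegree (Fin r) k (4 * a),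
      (∀ s : Fin r →₀ ℕ, coeff s Q ≠ 0 →
        (fun i => (s i : ℤ)) - (rep C + fun _ => 2 * (a : ℤ)) ∈ LamV V) ∧
      aeval x Q = mon x (rep C + fun _ => 2 * (a : ℤ)) * (f C : W) :=
      fun C => lower_poly hx (hrep1 C) (f C).2
    choose Q hQ1 hQ2 hQ3 using hQ
    have hP1 : (∑ C : S, Q C) ∈ restrictDegree (Fin r) k A :=
      Submodule.sum_mem _ fun C _ => rd_mono ha (hQ1 C)
    have hP2 : aeval x (∑ C : S, Q C) = 0 := by
      rw [map_sum]
      have h1 : ∑ C : S, aeval x (Q C) =
          mon x (fun _ => 2 * (a : ℤ)) * ∑ C : S, mon x (rep C) * (f C : W) := by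
        rw [Finset.mul_sum]
        refine Finset.sum_congr rfl fun C _ => ?_
        rw [hQ3, mon_add hx]
        ring
      rw [h1, hf, mul_zero]
    funext C0
    have h2 := hH _ hP1 hP2 (rep C0 + fun _ => 2 * (a : ℤ))
    have h3 : part (∑ C : S, Q C) {v | v - (rep C0 + fun _ => 2 * (a : ℤ)) ∈ LamV V} = Q C0 := by
      ext s
      rw [coeff_part, coeff_sum]
      by_cases hs : (fun i => (s i : ℤ)) ∈
          {v : Fin r → ℤ | v - (rep C0 + fun _ => 2 * (a : ℤ)) ∈ LamV V}
      · rw [if_pos hs]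
        refine Finset.sum_eq_single C0 ?_ ?_
        · intro C _ hC
          by_contra h
          have h4 := hQ2 C s h
          have h5 : (fun i => (s i : ℤ)) - (rep C0 + fun _ => 2 * (a : ℤ)) ∈ LamV V := hs
          have h6 := (LamV V).sub_mem h5 h4
          have h7 : (fun i => (s i : ℤ)) - (rep C0 + fun _ => 2 * (a : ℤ)) -
              ((fun i => (s i : ℤ)) - (rep C + fun _ => 2 * (a : ℤ))) = rep C - rep C0 := by
            abel
          rw [h7] at h6
          have h8 := cls_eq_iff.2 h6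
          rw [hrep2, hrep2] at h8
          exact hC (Subtype.ext h8)
        · intro h; exact absurd (Finset.mem_univ _) h
      · rw [if_neg hs]
        by_contra h
        exact hs (hQ2 C0 s (Ne.symm h))
    rw [h3, hQ3] at h2
    have h4 := (mul_eq_zero.1 h2).resolve_left (mon_ne_zero hx _)
    exact Subtype.ext h4
  -- the range
  have hrange : LinearMap.range Φ ≤
      Submodule.span k (mon x '' {v | ∀ i, |v i| ≤ ((2 * a : ℕ) : ℤ)}) := by
    rintro _ ⟨f, rfl⟩
    rw [hΦ]
    refine Submodule.sum_mem _ fun C _ => ?_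
    have h1 : ∀ u ∈ Bsp k V x a, mon x (rep C) * u ∈
        Submodule.span k (mon x '' {v | ∀ i, |v i| ≤ ((2 * a : ℕ) : ℤ)}) := by
      intro u hu
      unfold Bsp at hu
      induction hu using Submodule.span_induction with
      | mem y hy =>
        obtain ⟨w, ⟨hw, hwa⟩, rfl⟩ := hy
        rw [← mon_add hx]
        refine Submodule.subset_span ⟨_, ?_, rfl⟩
        intro i
        have h1 := hrep1 C i
        have h2 := hwa i
        have h3 := abs_add_le (rep C i) (w i)
        simp only [Pi.add_apply]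
        push_cast
        omega
      | zero => simp
      | add y z _ _ hy hz => rw [mul_add]; exact Submodule.add_mem _ hy hz
      | smul c y _ hy => rw [mul_smul_comm]; exact Submodule.smul_mem _ _ hy
    exact h1 _ (f C).2
  have : FiniteDimensional k
      (Submodule.span k (mon x '' {v | ∀ i, |v i| ≤ ((2 * a : ℕ) : ℤ)})) :=
    FiniteDimensional.span_of_finite k ((finite_box (2 * a)).image _)
  have h1 := Submodule.finrank_mono hrange
  rw [finrank_box hx, LinearMap.finrank_range_of_inj hinj, Module.finrank_pi_fintype,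
    Finset.sum_const, Finset.card_univ, smul_eq_mul] at h1
  have h2 : nu V a = Fintype.card S := by
    unfold nu
    rw [← Nat.card_eq_fintype_card]
    rfl
  rw [h2]
  have h3 : 2 * (2 * a) = 4 * a := by ring
  rw [h3] at h1
  exact h1

end H61.Geo
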