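import Pool.Agent.H61.Geo.SlopeQ
import Pool.Agent.H61.Geo.HomStab

/-!
# The data of one prime, and the choice of the scale (5.4)
-/

open MvPolynomial IntermediateField

namespace H61.Geo

/-- a decreasing sequence of `r + 2` natural numbers starting at most at `r` is constant somewhere -/
theorem pigeon (f : ℕ → ℕ) (r : ℕ) (h0 : f 0 ≤ r) (hf : ∀ i ≤ r, f (i + 1) ≤ f i) :
    ∃ i ≤ r, f (i + 1) = f i := by
  by_contra hcon
  push Not at hcon
  have key : ∀ i ≤ r + 1, f i + i ≤ r := by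
    intro i
    induction i with
    | zero => intro _; simpa using h0
    | succ i ih =>
      intro hi
      have h1 := ih (by omega)
      have h2 := hf i (by omega)
      have h3 := hcon i (by omega)
      omega
  have := key (r + 1) le_rfl
  omega

/-- the number of elements of a subgroup of `(ℤ/l)^r` is a power of `l` -/
theorem card_eq_pow {r l : ℕ} (hl : l.Prime) (G : AddSubgroup (Fin r → ZMod l)) :
    ∃ j ≤ r, Nat.card G = l ^ j := by
  have : Fact l.Prime := ⟨hl⟩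
  have h1 : Nat.card G ∣ Nat.card (Fin r → ZMod l) := AddSubgroup.card_addSubgroup_dvd_card G
  have h2 : Nat.card (Fin r → ZMod l) = l ^ r := by
    rw [Nat.card_eq_fintype_card, Fintype.card_fun, ZMod.card, Fintype.card_fin]
  rw [h2] at h1
  exact (Nat.dvd_prime_pow hl).1 h1

/-- the exponent of the order of the stabiliser, and what it means, for one prime `l` -/
theorem local_data {W : Type*} [Field W] [Algebra ℚ W] {r l : ℕ} (hl : l.Prime)
    (x : Fin r → W) (F : IntermediateField ℚ W) (hxF : ∀ i, x i ∈ F) (z : W)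
    (hz : IsPrimitiveRoot z l) (hdis : (ℚ⟮z⟯).LinearDisjoint F) (C : ℕ) :
    ∃ (g : ℕ → ℕ) (M : ℕ → AddSubgroup (Fin r → ℤ)),
      (∀ A, g A ≤ r) ∧ (∀ A A', A ≤ A' → g A' ≤ g A) ∧
      (∀ A, ∃ G : AddSubgroup (Fin r → ZMod l), Nat.card G = l ^ g A ∧ M A = ML G) ∧
      (∀ A, HomM ℚ (M A) x A) ∧
      (∀ A L, 2 * l ^ r * A ≤ l * L → Hd ℚ (pw x l) L ≤ C * Hd ℚ x L →
        Hd ℚ x (l * L) ≤ 2 ^ r * C * l ^ g A * Hd ℚ x L) := by
  have : NeZero l := ⟨hl.ne_zero⟩
  have : CharZero W := algebraRat.charZero W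
  let ζ : ℚ⟮z⟯ := AdjoinSimple.gen ℚ z
  have hζ : IsPrimitiveRoot ζ l := by
    have h1 : algebraMap ℚ⟮z⟯ W ζ = z := AdjoinSimple.algebraMap_gen ℚ z
    rw [← h1] at hz
    exact (IsPrimitiveRoot.map_iff_of_injective (algebraMap ℚ⟮z⟯ W).injective).1 hz
  choose g hg1 hg2 using fun A => card_eq_pow hl (Stab (W := W) ζ hζ.pow_eq_one x A)
  refine ⟨g, fun A => ML (Stab ζ hζ.pow_eq_one x A), hg1, ?_, fun A => ⟨_, hg2 A, rfl⟩,
    fun A => hom_stab hζ x A, ?_⟩
  · intro A A' h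
    have h1 : Nat.card (Stab (W := W) ζ hζ.pow_eq_one x A') ≤
        Nat.card (Stab (W := W) ζ hζ.pow_eq_one x A) :=
      AddSubgroup.card_le_of_le (Stab_anti hζ.pow_eq_one x h)
    rw [hg2, hg2] at h1
    exact (Nat.pow_le_pow_iff_right hl.one_lt).1 h1
  · intro A L hA hC
    exact slope ℚ⟮z⟯ F hdis ζ hζ.pow_eq_one x hxF A L C (g A) hA (hg2 A).le hC

end H61.Geo
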