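import Pool.Agent.H61.Geo.Twist

/-! # GEO-1: twisting does not change the dimension -/

open MvPolynomial

namespace H61.Geo

variable {K W : Type*} [Field K] [Field W] [Algebra K W] {r l : ℕ}

theorem TwHd_le (c : Fin r → K) (x : Fin r → W) (L : ℕ) :
    Sp K (fun i => algebraMap K W (c i) * x i) L ≤ Sp K x L := by
  rw [Sp_eq_span, Sp_eq_span, Submodule.span_le]
  rintro _ ⟨v, hv, rfl⟩
  have h : ∏ i, (algebraMap K W (c i) * x i) ^ v i =
      (∏ i, c i ^ v i) • ∏ i, x i ^ v i := by
    rw [Algebra.smul_def, map_prod, ← Finset.prod_mul_distrib]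
    exact Finset.prod_congr rfl fun i _ => by rw [mul_pow, map_pow]
  simp only
  rw [h]
  exact Submodule.smul_mem _ _ (Submodule.subset_span ⟨v, hv, rfl⟩)

theorem TwHd_eq {c : Fin r → K} (hc : ∀ i, c i ≠ 0) (x : Fin r → W) (L : ℕ) :
    Sp K (fun i => algebraMap K W (c i) * x i) L = Sp K x L := by
  refine le_antisymm (TwHd_le c x L) ?_
  have h := TwHd_le (fun i => (c i)⁻¹) (fun i => algebraMap K W (c i) * x i) L
  have h1 : (fun i => algebraMap K W ((c i)⁻¹) * (algebraMap K W (c i) * x i)) = x := by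
    funext i
    rw [← mul_assoc, ← map_mul, inv_mul_cancel₀ (hc i), map_one, one_mul]
  rwa [h1] at h

/-- GEO-1. Twisting does not change the dimension of the span of the monomials.
Proof: the monomial `∏ (c_i x_i)^(v_i)`, `c_i = algebraMap (ζ^(t_i))`, is a nonzero element of `K`
times `∏ x_i^(v_i)`; hence `Sp K (tw ζ t x) L ≤ Sp K x L` (use `Sp_eq_span`, or `aeval_twP` and
`twP_mem`), and `≥` because `x = tw ζ⁻¹ t (tw ζ t x)` (or since each monomial of `x` is the inverse
constant times that of `tw ζ t x`). -/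
theorem Hd_tw {ζ : K} (hζ : ζ ≠ 0) (t : Fin r → ZMod l) (x : Fin r → W) (L : ℕ) :
    Hd K (tw ζ t x) L = Hd K x L := by
  unfold Hd
  have h : Sp K (tw ζ t x) L = Sp K x L := TwHd_eq (fun i => pow_ne_zero _ hζ) x L
  rw [h]

end H61.Geo
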