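import Pool.Agent.H61.Geo.Block
import Pool.Agent.H61.Geo.TwHd
import Pool.Agent.H61.Geo.EvUpper

/-! # GEO-3: the slope inequality over a field with roots of unity -/

open MvPolynomial

namespace H61.Geo

variable {K W : Type*} [Field K] [Field W] [Algebra K W] {r l : ℕ}

/-- GEO-3. The slope inequality.
Proof: `G = Stab ζ hζ x A`, `s = G.index`, `ι = (Fin r → ZMod l) ⧸ G` with representatives
`t_q = Quotient.out q`. For `q ≠ q'` the element `t_{q'} - t_q` is not in `G`, so there is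
`P ∈ rd A` with `P(x) = 0`, `P(tw (t_{q'} - t_q) x) ≠ 0`; put `P_{q q'} = twP ζ (-t_q) P ∈ rd A`;
then `P_{q q'}(tw t_q x) = P(x) = 0` and `P_{q q'}(tw t_{q'} x) = P(tw (t_{q'} - t_q) x) ≠ 0`
(`aeval_twP`, `tw_add`). For `q ∈ ι` let `D_q = ∏_{q' ≠ q} P_{q' q}` (in `rd ((s-1) A)`): it
vanishes at `tw t_{q'} x` for all `q' ≠ q` and not at `tw t_q x`. Let `U_q` be the set of the
products `D_q R`, `R ∈ rd B`, inside `rd (l L)` (degrees: `(s-1) A + B ≤ l L`). Apply `block` to
the maps `f_q = evT ζ x (l L) (t_q)`: `f_{q'}(U_q) = 0` for `q' ≠ q` and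
`f_q(U_q) = D_q(tw t_q x) • Sp K (tw ζ t_q x) B` has dimension `Hd K (tw ..) B = Hd K x B`
(`Hd_tw`; multiplication by a nonzero element of `W` is injective). So
`s * Hd K x B ≤ rank of (f_q)_{q ∈ ι} ≤ rank of (evT t)_t` (the former is the composition of the
latter with the restriction `(T → W) → (ι → W)`) `≤ l^r * Hd K (pw x l) L` by `ev_upper`. -/
theorem slopeK [NeZero l] {ζ : K} (hζ : ζ ^ l = 1) (x : Fin r → W) (A B L : ℕ)
    (hB : B + (Stab ζ hζ x A).index * A ≤ l * L) :
    (Stab ζ hζ x A).index * Hd K x B ≤ l ^ r * Hd K (pw x l) L := by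
  classical
  set G := Stab ζ hζ x A with hG
  have hζ0 : ζ ≠ 0 := by
    rintro rfl
    rw [zero_pow (NeZero.ne l)] at hζ
    exact zero_ne_one hζ
  have : Fintype ((Fin r → ZMod l) ⧸ G) := Fintype.ofFinite _
  have hcard : Fintype.card ((Fin r → ZMod l) ⧸ G) = G.index := by
    rw [AddSubgroup.index, Nat.card_eq_fintype_card]
  let t : ((Fin r → ZMod l) ⧸ G) → (Fin r → ZMod l) := Quotient.out
  have ht : ∀ q, (QuotientAddGroup.mk (t q) : (Fin r → ZMod l) ⧸ G) = q := fun q => Quotient.out_eq q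
  have hsep : ∀ q q' : (Fin r → ZMod l) ⧸ G, ∃ P : MvPolynomial (Fin r) K, q ≠ q' →
      P ∈ restrictDegree (Fin r) K A ∧ aeval (tw ζ (t q) x) P = 0 ∧
        aeval (tw ζ (t q') x) P ≠ 0 := by
    intro q q'
    by_cases hqq : q = q'
    · exact ⟨0, fun h => absurd hqq h⟩
    have hnot : t q' - t q ∉ G := by
      intro h
      apply hqq
      rw [← ht q, ← ht q', QuotientAddGroup.eq]
      rwa [sub_eq_neg_add] at h
    rw [hG, mem_Stab] at hnot
    push Not at hnot
    obtain ⟨P, hP, h0, h1⟩ := hnot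
    refine ⟨twP ζ (-t q) P, fun _ => ⟨twP_mem ζ _ hP, ?_, ?_⟩⟩
    · rw [aeval_twP, ← tw_add hζ, neg_add_cancel, tw_zero]
      exact h0
    · rw [aeval_twP, ← tw_add hζ, ← sub_eq_neg_add]
      exact h1
  choose P hP using hsep
  let D : ((Fin r → ZMod l) ⧸ G) → MvPolynomial (Fin r) K :=
    fun q => ∏ q' ∈ Finset.univ.erase q, P q' q
  have hDdeg : ∀ q, D q ∈ restrictDegree (Fin r) K ((G.index - 1) * A) := by
    intro q
    have h := rd_prod (Finset.univ.erase q) (fun q' => P q' q) (fun _ => A)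
      (fun q' hq' => (hP q' q (Finset.ne_of_mem_erase hq')).1)
    rwa [Finset.sum_const, Finset.card_erase_of_mem (Finset.mem_univ q), Finset.card_univ, hcard,
      smul_eq_mul] at h
  have hD0 : ∀ q q', q ≠ q' → aeval (tw ζ (t q') x) (D q) = 0 := by
    intro q q' hqq
    rw [map_prod]
    exact Finset.prod_eq_zero (Finset.mem_erase.2 ⟨hqq.symm, Finset.mem_univ q'⟩)
      (hP q' q hqq.symm).2.1
  have hD1 : ∀ q, aeval (tw ζ (t q) x) (D q) ≠ 0 := by
    intro q
    rw [map_prod]
    exact Finset.prod_ne_zero_iff.2 fun q' hq' => (hP q' q (Finset.ne_of_mem_erase hq')).2.2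
  have hle : (G.index - 1) * A + B ≤ l * L := by
    have h1 : (G.index - 1) * A ≤ G.index * A := Nat.mul_le_mul_right A (Nat.sub_le _ _)
    omega
  let mu : ((Fin r → ZMod l) ⧸ G) →
      (restrictDegree (Fin r) K B →ₗ[K] restrictDegree (Fin r) K (l * L)) := fun q =>
    LinearMap.codRestrict (restrictDegree (Fin r) K (l * L))
      ((LinearMap.mulLeft K (D q)).comp (restrictDegree (Fin r) K B).subtype)
      (fun R => rd_mono hle (rd_mul (hDdeg q) R.2))
  have hmu : ∀ q (R : restrictDegree (Fin r) K B),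
      ((mu q R : restrictDegree (Fin r) K (l * L)) : MvPolynomial (Fin r) K) = D q * R := by
    intro q R
    simp [mu]
  have hev : ∀ (s : Fin r → ZMod l) (R : restrictDegree (Fin r) K (l * L)),
      evT ζ x (l * L) s R = aeval (tw ζ s x) (R : MvPolynomial (Fin r) K) := fun s R => rfl
  have hblock := block (fun q => evT (l := l) ζ x (l * L) (t q))
    (fun q => LinearMap.range (mu q)) (by
      rintro q q' hqq _ ⟨R, rfl⟩
      rw [hev, hmu, map_mul, hD0 q q' hqq, zero_mul])
  have hdim : ∀ q, Hd K x B ≤ Module.finrank K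
      ((LinearMap.range (mu q)).map (evT (l := l) ζ x (l * L) (t q))) := by
    intro q
    have hinj : Function.Injective (LinearMap.mulLeft K (aeval (tw ζ (t q) x) (D q))) :=
      mul_right_injective₀ (hD1 q)
    have h1 : (Sp K (tw ζ (t q) x) B).map (LinearMap.mulLeft K (aeval (tw ζ (t q) x) (D q))) ≤
        (LinearMap.range (mu q)).map (evT (l := l) ζ x (l * L) (t q)) := by
      rintro _ ⟨w, hw, rfl⟩
      obtain ⟨R, hR, rfl⟩ := mem_Sp.1 hw
      refine ⟨mu q ⟨R, hR⟩, ⟨_, rfl⟩, ?_⟩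
      rw [hev, hmu, map_mul]
      rfl
    calc Hd K x B = Hd K (tw ζ (t q) x) B := (Hd_tw hζ0 (t q) x B).symm
      _ = Module.finrank K ((Sp K (tw ζ (t q) x) B).map
            (LinearMap.mulLeft K (aeval (tw ζ (t q) x) (D q)))) :=
          (Submodule.equivMapOfInjective _ hinj _).finrank_eq
      _ ≤ _ := Submodule.finrank_mono h1
  have hcomp : LinearMap.pi (fun q => evT (l := l) ζ x (l * L) (t q)) =
      (LinearMap.funLeft K W t).comp (LinearMap.pi (evT (l := l) ζ x (l * L))) := by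
    ext R q
    rfl
  calc G.index * Hd K x B = ∑ _q : (Fin r → ZMod l) ⧸ G, Hd K x B := by
        rw [Finset.sum_const, Finset.card_univ, hcard, smul_eq_mul]
    _ ≤ _ := Finset.sum_le_sum fun q _ => hdim q
    _ ≤ _ := hblock
    _ ≤ Module.finrank K (LinearMap.range (LinearMap.pi (evT (l := l) ζ x (l * L)))) := by
        rw [hcomp, LinearMap.range_comp]
        exact Submodule.finrank_map_le _ _
    _ ≤ l ^ r * Hd K (pw x l) L := ev_upper hζ x L

end H61.Geo
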