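import Pool.Agent.H61.Geo.Defs

/-! # GEO-4: change of the field of coefficients -/

open MvPolynomial

namespace H61.Geo

/-- the span over the small field is contained in the span over the large field -/
theorem towerLe_sub {k K W : Type*} [Field k] [Field K] [Field W] [Algebra k K] [Algebra K W]
    [Algebra k W] [IsScalarTower k K W] {r : ℕ} (x : Fin r → W) (L : ℕ) {w : W}
    (hw : w ∈ Sp k x L) : w ∈ Sp K x L := by
  rw [Sp_eq_span] at hw ⊢
  exact Submodule.span_le_restrictScalars k K _ hw

/-- GEO-4a. Enlarging the field of coefficients does not increase the dimension.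
Proof: `Sp K x L` is the `K`-span of the image of a `k`-basis of `Sp k x L` (both are spans of the
monomials, `Sp_eq_span`). -/
theorem Hd_tower_le {k K W : Type*} [Field k] [Field K] [Field W] [Algebra k K] [Algebra K W]
    [Algebra k W] [IsScalarTower k K W] {r : ℕ} (x : Fin r → W) (L : ℕ) :
    Hd K x L ≤ Hd k x L := by
  set b := Module.finBasis k (Sp k x L) with hb
  set c : Fin (Module.finrank k (Sp k x L)) → W := fun i => (b i : W) with hc
  have h1 : Sp k x L = Submodule.span k (Set.range c) := by
    have h2 := b.span_eq
    have h3 := congrArg (Submodule.map (Sp k x L).subtype) h2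
    rw [Submodule.map_span, Submodule.map_top, Submodule.range_subtype, ← Set.range_comp] at h3
    exact h3.symm
  have h4 : Sp K x L ≤ Submodule.span K (Set.range c) := by
    rw [Sp_eq_span, Submodule.span_le]
    intro w hw
    have h5 : w ∈ Sp k x L := by
      rw [Sp_eq_span]
      exact Submodule.subset_span hw
    rw [h1] at h5
    exact Submodule.span_le_restrictScalars k K _ h5
  have h6 := finrank_range_le_card (R := K) c
  rw [Fintype.card_fin] at h6
  have : Module.Finite K (Submodule.span K (Set.range c)) :=
    Module.Finite.span_of_finite K (Set.finite_range c)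
  exact (Submodule.finrank_mono h4).trans h6

/-- GEO-4b. For linearly disjoint fields the dimension does not change.
Proof: `Sp k x L` is contained in `F`; a `k`-basis of it is a `k`-linearly independent family of
elements of `F`, hence `K`-linearly independent in `W`
(`IntermediateField.LinearDisjoint.linearIndependent_right` or `..._left`), and it lies in
`Sp K x L`. So `Hd k x L ≤ Hd K x L`; the other inequality is `Hd_tower_le`. -/
theorem Hd_disjoint {k W : Type*} [Field k] [Field W] [Algebra k W] {r : ℕ}
    (K F : IntermediateField k W) (h : K.LinearDisjoint F) (x : Fin r → W) (hx : ∀ i, x i ∈ F)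
    (L : ℕ) : Hd K x L = Hd k x L := by
  apply le_antisymm (Hd_tower_le x L)
  have hF : ∀ w ∈ Sp k x L, w ∈ F := by
    intro w hw
    have h1 : Sp k x L ≤ F.toSubalgebra.toSubmodule := by
      rw [Sp_eq_span, Submodule.span_le]
      rintro _ ⟨v, _, rfl⟩
      have h2 : ∏ i, x i ^ v i ∈ F := prod_mem fun i _ => pow_mem (hx i) _
      exact h2
    exact h1 hw
  set b := Module.finBasis k (Sp k x L) with hb
  set c : Fin (Module.finrank k (Sp k x L)) → F := fun i => ⟨(b i : W), hF _ (b i).2⟩ with hc
  have hc1 : LinearIndependent k c := by
    refine LinearIndependent.of_comp F.val.toLinearMap ?_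
    exact b.linearIndependent.map' (Sp k x L).subtype (Submodule.ker_subtype _)
  have hc2 : LinearIndependent K (F.val ∘ c) := h.linearIndependent_right hc1
  set d : Fin (Module.finrank k (Sp k x L)) → Sp K x L := fun i =>
    ⟨(b i : W), towerLe_sub x L (b i).2⟩ with hd
  have hd1 : LinearIndependent K d := LinearIndependent.of_comp (Sp K x L).subtype hc2
  have h2 := hd1.fintype_card_le_finrank
  rwa [Fintype.card_fin] at h2

end H61.Geo
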