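import Pool.Agent.H61.Geo.SlopeK
import Pool.Agent.H61.Geo.TowerLe
import Pool.Agent.H61.Geo.Double

/-!
# The slope inequality over the base field (5.1)
-/

open MvPolynomial

namespace H61.Geo

/-- GEO-6. Proof: `s = index`, `s * Nat.card = l^r` (`AddSubgroup.index_mul_card`,
`Nat.card (Fin r → ZMod l) = l^r`). Put `B = l L / 2`; `s A ≤ l^r A ≤ l L / 2`, so `slopeK` gives
`s * Hd K x B ≤ l^r * Hd K (pw x l) L ≤ l^r * Hd k (pw x l) L ≤ l^r * C * Hd k x L`
(`Hd_tower_le`), and `Hd K x B = Hd k x B` (`Hd_disjoint`). Multiply by `Nat.card` and cancel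
`l^r`: `Hd k x B ≤ Nat.card * C * Hd k x L ≤ l^g * C * Hd k x L`. Finally
`Hd k x (l L) ≤ Hd k x (2 B + 1) ≤ 2^r * Hd k x B` (`Hd_mono`, `Hd_double`). -/
theorem slope {k W : Type*} [Field k] [Field W] [Algebra k W] {r l : ℕ} [NeZero l]
    (K F : IntermediateField k W) (hKF : K.LinearDisjoint F) (ζ : K) (hζ : ζ ^ l = 1)
    (x : Fin r → W) (hx : ∀ i, x i ∈ F) (A L C g : ℕ) (hA : 2 * l ^ r * A ≤ l * L)
    (hG : Nat.card (Stab ζ hζ x A) ≤ l ^ g) (hC : Hd k (pw x l) L ≤ C * Hd k x L) :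
    Hd k x (l * L) ≤ 2 ^ r * C * l ^ g * Hd k x L := by
  set G := Stab ζ hζ x A with hGdef
  set B := l * L / 2 with hB
  have hl : 0 < l := Nat.pos_of_ne_zero (NeZero.ne l)
  have hlr : 0 < l ^ r := pow_pos hl r
  have hic : G.index * Nat.card G = l ^ r := by
    rw [AddSubgroup.index_mul_card, Nat.card_fun, Nat.card_zmod, Nat.card_eq_fintype_card,
      Fintype.card_fin]
  have hcpos : 0 < Nat.card G := Nat.pos_of_ne_zero (by
    intro h
    rw [h, mul_zero] at hic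
    exact hlr.ne hic)
  have hile : G.index ≤ l ^ r := by
    rw [← hic]
    exact Nat.le_mul_of_pos_right _ hcpos
  have hdeg : B + G.index * A ≤ l * L := by
    have h1 : G.index * A ≤ l ^ r * A := Nat.mul_le_mul_right _ hile
    have h2 : 2 * (l ^ r * A) ≤ l * L := by rw [← mul_assoc]; exact hA
    omega
  have h3 := slopeK hζ x A B L hdeg
  rw [Hd_disjoint K F hKF x hx B] at h3
  have h4 : Hd K (pw x l) L ≤ C * Hd k x L := (Hd_tower_le (k := k) (pw x l) L).trans hC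
  have h5 : G.index * Hd k x B ≤ l ^ r * (C * Hd k x L) := h3.trans (Nat.mul_le_mul_left _ h4)
  have h6 : Hd k x B ≤ l ^ g * (C * Hd k x L) := by
    have h7 : l ^ r * Hd k x B ≤ l ^ r * (Nat.card G * (C * Hd k x L)) := by
      calc l ^ r * Hd k x B = Nat.card G * (G.index * Hd k x B) := by rw [← hic]; ring
        _ ≤ Nat.card G * (l ^ r * (C * Hd k x L)) := Nat.mul_le_mul_left _ h5
        _ = l ^ r * (Nat.card G * (C * Hd k x L)) := by ring
    exact (Nat.le_of_mul_le_mul_left h7 hlr).trans (Nat.mul_le_mul_right _ hG)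
  calc Hd k x (l * L) ≤ Hd k x (2 * B + 1) := Hd_mono x (by omega)
    _ ≤ 2 ^ r * Hd k x B := Hd_double x B
    _ ≤ 2 ^ r * (l ^ g * (C * Hd k x L)) := Nat.mul_le_mul_left _ h6
    _ = 2 ^ r * C * l ^ g * Hd k x L := by ring

end H61.Geo
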