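import Pool.Agent.H61.Geo.Defs

/-!
# Twisting a point by roots of unity; the stabiliser of the relations of degree at most `A`

`K → W` fields, `ζ ∈ K` with `ζ^l = 1`, `t ∈ (ℤ/l)^r`: `tw ζ t x = (ζ^(t_i) x_i)_i`.
`Stab ζ x A` is the group of all `t` such that every polynomial over `K` of box degree at most `A`
vanishing at `x` vanishes at `tw ζ t x`.
-/

open MvPolynomial

namespace H61.Geo

variable {K W : Type*} [Field K] [Field W] [Algebra K W] {r l : ℕ}

/-- the twisted point -/
noncomputable def tw (ζ : K) (t : Fin r → ZMod l) (x : Fin r → W) : Fin r → W :=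
  fun i => algebraMap K W (ζ ^ (t i).val) * x i

/-- the twisted polynomial -/
noncomputable def twP (ζ : K) (t : Fin r → ZMod l) (P : MvPolynomial (Fin r) K) :
    MvPolynomial (Fin r) K :=
  aeval (fun i => C (ζ ^ (t i).val) * X i) P

theorem aeval_twP (ζ : K) (t : Fin r → ZMod l) (P : MvPolynomial (Fin r) K) (x : Fin r → W) :
    aeval x (twP ζ t P) = aeval (tw ζ t x) P := by
  have h : (aeval x).comp (aeval (fun i => C (ζ ^ (t i).val) * X i)) = aeval (tw (W := W) ζ t x) := by
    apply MvPolynomial.algHom_ext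
    intro i
    simp [tw]
  exact congrArg (fun f => f P) h

theorem twP_mem (ζ : K) (t : Fin r → ZMod l) {P : MvPolynomial (Fin r) K} {A : ℕ}
    (hP : P ∈ restrictDegree (Fin r) K A) : twP ζ t P ∈ restrictDegree (Fin r) K A := by
  classical
  rw [mem_rd] at hP
  unfold twP
  rw [aeval_def, eval₂_eq']
  refine Submodule.sum_mem _ fun s hs => ?_
  have h1 : (algebraMap K (MvPolynomial (Fin r) K)) (coeff s P) *
      ∏ i, (C (ζ ^ (t i).val) * X i) ^ s i =
      monomial s (coeff s P * ∏ i, (ζ ^ (t i).val) ^ s i) := by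
    simp only [mul_pow, Finset.prod_mul_distrib]
    rw [monomial_eq, Finsupp.prod_fintype _ _ (by simp)]
    simp only [algebraMap_eq, C_mul, map_prod, map_pow]
    ring
  rw [h1]
  exact rd_monomial _ (hP s hs)

theorem tw_zero (ζ : K) (x : Fin r → W) : tw ζ (0 : Fin r → ZMod l) x = x := by
  funext i; simp [tw]

theorem pow_val_add [NeZero l] {ζ : K} (hζ : ζ ^ l = 1) (a b : ZMod l) :
    ζ ^ (a + b).val = ζ ^ a.val * ζ ^ b.val := by
  rw [← pow_add, ZMod.val_add]
  conv_rhs => rw [← Nat.div_add_mod (a.val + b.val) l, pow_add, pow_mul, hζ, one_pow, one_mul]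

theorem tw_add [NeZero l] {ζ : K} (hζ : ζ ^ l = 1) (s t : Fin r → ZMod l) (x : Fin r → W) :
    tw ζ (s + t) x = tw ζ s (tw ζ t x) := by
  funext i
  simp only [tw, Pi.add_apply, pow_val_add hζ, map_mul]
  ring

/-- the stabiliser -/
noncomputable def Stab [NeZero l] (ζ : K) (hζ : ζ ^ l = 1) (x : Fin r → W) (A : ℕ) :
    AddSubgroup (Fin r → ZMod l) :=
  have hadd : ∀ {s t : Fin r → ZMod l},
      (∀ P ∈ restrictDegree (Fin r) K A, aeval x P = 0 → aeval (tw ζ s x) P = 0) →
      (∀ P ∈ restrictDegree (Fin r) K A, aeval x P = 0 → aeval (tw ζ t x) P = 0) →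
      (∀ P ∈ restrictDegree (Fin r) K A, aeval x P = 0 → aeval (tw ζ (s + t) x) P = 0) := by
    intro s t hs ht P hP h0
    rw [tw_add hζ, ← aeval_twP]
    refine ht _ (twP_mem ζ s hP) ?_
    rw [aeval_twP]
    exact hs P hP h0
  have hzero : ∀ P ∈ restrictDegree (Fin r) K A, aeval x P = 0 →
      aeval (tw ζ (0 : Fin r → ZMod l) x) P = 0 := by
    intro P _ h0
    rwa [tw_zero]
  { carrier := {t | ∀ P ∈ restrictDegree (Fin r) K A, aeval x P = 0 → aeval (tw ζ t x) P = 0}
    add_mem' := hadd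
    zero_mem' := hzero
    neg_mem' := by
      intro t ht
      have h1 : ∀ n : ℕ, ∀ P ∈ restrictDegree (Fin r) K A, aeval x P = 0 →
          aeval (tw ζ (n • t) x) P = 0 := by
        intro n
        induction n with
        | zero => simpa using hzero
        | succ n ih => rw [succ_nsmul]; exact hadd ih ht
      have h2 : -t = (l - 1) • t := by
        have hl : l • t = 0 := by funext i; simp
        have hl1 : (l - 1) + 1 = l := Nat.succ_pred_eq_of_pos (Nat.pos_of_ne_zero (NeZero.ne l))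
        rw [neg_eq_iff_add_eq_zero, add_comm, ← succ_nsmul, hl1, hl]
      rw [h2]
      exact h1 (l - 1) }

theorem mem_Stab [NeZero l] {ζ : K} {hζ : ζ ^ l = 1} {x : Fin r → W} {A : ℕ}
    {t : Fin r → ZMod l} : t ∈ Stab ζ hζ x A ↔
      ∀ P ∈ restrictDegree (Fin r) K A, aeval x P = 0 → aeval (tw ζ t x) P = 0 :=
  Iff.rfl

theorem Stab_anti [NeZero l] {ζ : K} (hζ : ζ ^ l = 1) (x : Fin r → W) {A A' : ℕ} (h : A ≤ A') :
    Stab ζ hζ x A' ≤ Stab ζ hζ x A :=
  fun _ ht P hP h0 => ht P (rd_mono h hP) h0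

/-- the evaluations at the twisted points, on the polynomials of box degree at most `B` -/
noncomputable def evT (ζ : K) (x : Fin r → W) (B : ℕ) (t : Fin r → ZMod l) :
    restrictDegree (Fin r) K B →ₗ[K] W :=
  (aeval (tw ζ t x)).toLinearMap.domRestrict (restrictDegree (Fin r) K B)

end H61.Geo
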